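import Pool.Agent.H47.C3.Defs

set_option autoImplicit false

/-! Module ANAL: from the recursion to the exponential bound. -/

namespace Pool.H47.D

open Finset Filter

/-- polynomially bounded on `l ≥ 1` -/
def AnalPB (f : ℕ → ℕ) : Prop := ∃ C d : ℕ, ∀ l, 1 ≤ l → f l ≤ C * l ^ d

lemma AnalPB.const (c : ℕ) : AnalPB (fun _ => c) := ⟨c, 0, fun l _ => by simp⟩

lemma AnalPB.id : AnalPB (fun l => l) := ⟨1, 1, fun l _ => by simp⟩

lemma AnalPB.add {f g : ℕ → ℕ} (hf : AnalPB f) (hg : AnalPB g) : AnalPB (fun l => f l + g l) := by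
  obtain ⟨C, d, h1⟩ := hf
  obtain ⟨C', d', h2⟩ := hg
  refine ⟨C + C', d + d', fun l hl => ?_⟩
  have e1 : l ^ d ≤ l ^ (d + d') := Nat.pow_le_pow_right hl (Nat.le_add_right _ _)
  have e2 : l ^ d' ≤ l ^ (d + d') := Nat.pow_le_pow_right hl (Nat.le_add_left _ _)
  calc f l + g l ≤ C * l ^ d + C' * l ^ d' := Nat.add_le_add (h1 l hl) (h2 l hl)
    _ ≤ C * l ^ (d + d') + C' * l ^ (d + d') :=
      Nat.add_le_add (Nat.mul_le_mul le_rfl e1) (Nat.mul_le_mul le_rfl e2)
    _ = (C + C') * l ^ (d + d') := by ring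

lemma AnalPB.mul {f g : ℕ → ℕ} (hf : AnalPB f) (hg : AnalPB g) : AnalPB (fun l => f l * g l) := by
  obtain ⟨C, d, h1⟩ := hf
  obtain ⟨C', d', h2⟩ := hg
  refine ⟨C * C', d + d', fun l hl => ?_⟩
  calc f l * g l ≤ (C * l ^ d) * (C' * l ^ d') := Nat.mul_le_mul (h1 l hl) (h2 l hl)
    _ = (C * C') * l ^ (d + d') := by ring

lemma AnalPB.pow {f : ℕ → ℕ} (hf : AnalPB f) (k : ℕ) : AnalPB (fun l => f l ^ k) := by
  induction k with
  | zero => simpa using AnalPB.const 1
  | succ k ih => simpa [pow_succ] using ih.mul hf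

lemma anal_q : AnalPB q := (AnalPB.const 16).mul (AnalPB.id.pow 2)

lemma anal_sg : AnalPB sg :=
  (((AnalPB.const 2).mul (anal_q.add (AnalPB.const 1))).mul AnalPB.id).add (AnalPB.const 10)

lemma anal_s1 : AnalPB s1 :=
  ((AnalPB.const 4).mul ((anal_sg.add (AnalPB.const 1)).add anal_q)).add
    (((AnalPB.const 4).mul anal_q).mul AnalPB.id)

lemma anal_tt : AnalPB tt :=
  ((((((AnalPB.const 4).mul anal_q).mul AnalPB.id).mul AnalPB.id)).add AnalPB.id).add
    (AnalPB.const 6)

lemma anal_La : AnalPB La := (AnalPB.const 7).mul (anal_s1.add anal_tt)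

lemma anal_L4 : AnalPB L4 := (AnalPB.const 2).mul (anal_La.add anal_sg)

lemma anal_t4 : AnalPB t4 :=
  ((anal_q.add (AnalPB.const 1)).mul AnalPB.id).add (AnalPB.const 5)

lemma anal_ww : AnalPB ww :=
  anal_L4.add ((AnalPB.const 6).mul (((AnalPB.id.mul anal_L4).add anal_La).add anal_t4))

lemma anal_sw : AnalPB sw := (AnalPB.const 4).mul ((anal_sg.add anal_ww).add anal_q)

lemma anal_ge : AnalPB ge :=
  ((((((AnalPB.const 4).mul anal_q).mul AnalPB.id).mul AnalPB.id)).add anal_sw).add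
    (((AnalPB.const 4).mul anal_q).mul AnalPB.id)

lemma anal_gg : AnalPB gg :=
  (((AnalPB.id.mul anal_ww).add (anal_ww.pow 2)).add (anal_ge.mul anal_ww)).add (AnalPB.const 1)

/-- polynomials in `l` are eventually below `2 ^ l` -/
lemma anal_poly_lt (C d : ℕ) : ∃ L : ℕ, ∀ l ≥ L, C * l ^ d ≤ 2 ^ l := by
  have h := tendsto_pow_const_div_const_pow_of_one_lt d (r := (2 : ℝ)) one_lt_two
  have h2 : ∀ᶠ l : ℕ in atTop, (l : ℝ) ^ d / 2 ^ l < 1 / (C + 1) :=
    h.eventually_lt_const (by positivity)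
  obtain ⟨L, hL⟩ := eventually_atTop.1 h2
  refine ⟨L, fun l hl => ?_⟩
  have h3 := hL l hl
  rw [div_lt_div_iff₀ (by positivity) (by positivity)] at h3
  have h4 : ((C * l ^ d : ℕ) : ℝ) ≤ ((2 ^ l : ℕ) : ℝ) := by
    push_cast
    have h5 : (0 : ℝ) ≤ (l : ℝ) ^ d := by positivity
    nlinarith
  exact_mod_cast h4

lemma anal_lam_lower (n : ℕ) : 2 * n + 1 ≤ 2 ^ lam n := Nat.le_pow_clog one_lt_two _

lemma anal_lam_upper (n : ℕ) (hn : 1 ≤ n) : 2 ^ lam n ≤ 4 * n + 1 := by
  unfold lam
  have h := Nat.pow_pred_clog_lt_self (b := 2) one_lt_two (x := 2 * n + 1) (by omega)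
  have h2 : 0 < Nat.clog 2 (2 * n + 1) := Nat.clog_pos one_lt_two (by omega)
  have h3 : 2 ^ Nat.clog 2 (2 * n + 1) = 2 * 2 ^ (Nat.clog 2 (2 * n + 1)).pred := by
    rw [← pow_succ']
    congr 1
    simp only [Nat.pred_eq_sub_one]
    omega
  omega

/-- for every polynomial, `P (lam n) ≤ n` for large `n` -/
lemma anal_lam_poly (C d : ℕ) : ∃ N : ℕ, ∀ n ≥ N, C * lam n ^ d ≤ n := by
  obtain ⟨L, hL⟩ := anal_poly_lt (5 * C) d
  refine ⟨2 ^ L + 1, fun n hn => ?_⟩
  have h1 : L ≤ lam n := by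
    have := anal_lam_lower n
    by_contra h
    push Not at h
    have h2 : 2 ^ lam n ≤ 2 ^ L := Nat.pow_le_pow_right two_pos h.le
    omega
  have h2 := hL _ h1
  have hn1 : 1 ≤ n := by
    have : 0 ≤ 2 ^ L := Nat.zero_le _
    omega
  have h3 := anal_lam_upper n hn1
  have h4 : 5 * (C * lam n ^ d) ≤ 5 * n := by
    calc 5 * (C * lam n ^ d) = 5 * C * lam n ^ d := by ring
      _ ≤ 2 ^ lam n := h2
      _ ≤ 4 * n + 1 := h3
      _ ≤ 5 * n := by omega
  omega

lemma anal_lam_pos (n : ℕ) (hn : 1 ≤ n) : 1 ≤ lam n := Nat.clog_pos one_lt_two (by omega)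

/-- the size of the smallest part in the recursion -/
lemma anal_main : ∃ N : ℕ, ∀ n ≥ N, 1 ≤ n / (64 * q (lam n)) / 8 ∧
    (2 : ℝ) ^ gg (lam n) * (n + 1) ≤
      Real.exp (Real.sqrt ((n / (64 * q (lam n)) / 8 : ℕ) : ℝ) / 4) := by
  obtain ⟨C, d, hC⟩ := anal_gg.add AnalPB.id
  obtain ⟨N, hN⟩ := anal_lam_poly (8192 * (16 * (C * C) + 1)) (2 + 2 * d)
  refine ⟨N + 1, fun n hn => ?_⟩
  have hn1 : 1 ≤ n := by omega
  have hl := anal_lam_pos n hn1
  set l := lam n with hl_def
  have h1 := hN n (by omega)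
  have h2 := hC l hl
  have hq : n / (64 * q l) / 8 = n / (8192 * l ^ 2) := by
    rw [Nat.div_div_eq_div_mul]
    congr 1
    unfold q
    ring
  have h3 : (16 * (C * C) + 1) * (l ^ d) ^ 2 ≤ n / (64 * q l) / 8 := by
    rw [hq, Nat.le_div_iff_mul_le (by positivity)]
    calc (16 * (C * C) + 1) * (l ^ d) ^ 2 * (8192 * l ^ 2)
        = 8192 * (16 * (C * C) + 1) * l ^ (2 + 2 * d) := by
          rw [pow_add, pow_mul']
          ring
      _ ≤ n := h1
  have hpos : 1 ≤ (l ^ d) ^ 2 := Nat.one_le_pow _ _ (Nat.one_le_pow _ _ hl)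
  refine ⟨?_, ?_⟩
  · refine le_trans ?_ h3
    nlinarith
  · have h4 : ((4 * (C * l ^ d) : ℕ) : ℝ) ≤ Real.sqrt ((n / (64 * q l) / 8 : ℕ) : ℝ) := by
      apply Real.le_sqrt_of_sq_le
      have : (4 * (C * l ^ d)) ^ 2 ≤ n / (64 * q l) / 8 := by
        refine le_trans ?_ h3
        calc (4 * (C * l ^ d)) ^ 2 = (16 * (C * C)) * (l ^ d) ^ 2 := by ring
          _ ≤ (16 * (C * C) + 1) * (l ^ d) ^ 2 := Nat.mul_le_mul (by omega) le_rfl
      exact_mod_cast this
    have h5 : ((n : ℝ) + 1) ≤ 2 ^ l := by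
      have h7 := anal_lam_lower n
      rw [← hl_def] at h7
      have h6 : n + 1 ≤ 2 ^ l := by omega
      exact_mod_cast h6
    calc (2 : ℝ) ^ gg l * (n + 1) ≤ 2 ^ gg l * 2 ^ l := by gcongr
      _ = 2 ^ (gg l + l) := by rw [pow_add]
      _ ≤ 2 ^ (C * l ^ d) := pow_le_pow_right₀ one_le_two h2
      _ ≤ (Real.exp 1) ^ (C * l ^ d) := by
          refine pow_le_pow_left₀ (by norm_num) ?_ _
          have := Real.add_one_le_exp (1 : ℝ)
          linarith
      _ = Real.exp ((C * l ^ d : ℕ) : ℝ) := by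
          rw [← Real.exp_nat_mul]
          simp
      _ ≤ _ := by
          apply Real.exp_le_exp.2
          push_cast at h4 ⊢
          linarith

/-- the gain from subadditivity of the square root -/
lemma anal_sqrt (k m c : ℕ) (hk : c ≤ k) (hm : c ≤ m) :
    Real.sqrt ((k + m : ℕ) : ℝ) + Real.sqrt (c : ℝ) / 4 ≤ Real.sqrt (k : ℝ) + Real.sqrt (m : ℝ) := by
  wlog h : k ≤ m generalizing k m
  · have := this m k hm hk (by omega)
    rw [add_comm m k] at this
    linarith
  have hx : 0 ≤ Real.sqrt (k : ℝ) := Real.sqrt_nonneg _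
  have hy : 0 ≤ Real.sqrt (m : ℝ) := Real.sqrt_nonneg _
  have hxy : Real.sqrt (k : ℝ) ≤ Real.sqrt (m : ℝ) := Real.sqrt_le_sqrt (by exact_mod_cast h)
  have hcx : Real.sqrt (c : ℝ) ≤ Real.sqrt (k : ℝ) := Real.sqrt_le_sqrt (by exact_mod_cast hk)
  have h1 : Real.sqrt ((k + m : ℕ) : ℝ) ≤ 3 / 4 * Real.sqrt (k : ℝ) + Real.sqrt (m : ℝ) := by
    apply Real.sqrt_le_iff.2
    refine ⟨by positivity, ?_⟩
    push_cast
    have e1 : Real.sqrt (k : ℝ) ^ 2 = k := Real.sq_sqrt (Nat.cast_nonneg _)
    have e2 : Real.sqrt (m : ℝ) ^ 2 = m := Real.sq_sqrt (Nat.cast_nonneg _)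
    nlinarith
  linarith

theorem growth (u : ℕ → ℝ) (hu : ∀ n, 0 < u n)
    (h : ∃ N₀ : ℕ, ∀ n ≥ N₀, u n ≤ 2 ^ gg (lam n) *
      ∑ k ∈ (range (n + 1)).filter (fun k => n / (64 * q (lam n)) / 8 ≤ k ∧
        n / (64 * q (lam n)) / 8 ≤ n - k), u k * u (n - k)) :
    ∃ κ : ℝ, 1 ≤ κ ∧ ∀ n, 1 ≤ n → u n ≤ κ ^ n := by
  obtain ⟨N₀, hN₀⟩ := h
  obtain ⟨N₁, hN₁⟩ := anal_main
  set N := max N₀ N₁ with hN
  set K : ℝ := 1 + ∑ n ∈ range N, |Real.log (u n)| with hK
  have hK1 : 1 ≤ K := by
    have : 0 ≤ ∑ n ∈ range N, |Real.log (u n)| := sum_nonneg fun _ _ => abs_nonneg _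
    linarith
  have key : ∀ n, 1 ≤ n → u n ≤ Real.exp (K * n - Real.sqrt n) := by
    intro n
    induction n using Nat.strong_induction_on with
    | _ n ih =>
      intro hn
      by_cases hnN : n < N
      · have h1 : |Real.log (u n)| ≤ ∑ n ∈ range N, |Real.log (u n)| :=
          single_le_sum (f := fun n => |Real.log (u n)|) (fun _ _ => abs_nonneg _)
            (mem_range.2 hnN)
        have h2 : Real.log (u n) ≤ K - 1 := (le_abs_self _).trans (by linarith)
        have h3 : (1 : ℝ) ≤ n := by exact_mod_cast hn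
        have h4 : Real.sqrt n ≤ n := by
          apply Real.sqrt_le_iff.2
          constructor
          · linarith
          · nlinarith
        have h5 : K - 1 ≤ K * n - Real.sqrt n := by nlinarith
        calc u n = Real.exp (Real.log (u n)) := (Real.exp_log (hu n)).symm
          _ ≤ _ := Real.exp_le_exp.2 (by linarith)
      · have hn0 : N₀ ≤ n := by omega
        have hn1 : N₁ ≤ n := by omega
        obtain ⟨hc1, hc2⟩ := hN₁ n hn1
        have hrec := hN₀ n hn0
        set c := n / (64 * q (lam n)) / 8 with hc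
        have hsum : ∑ k ∈ (range (n + 1)).filter (fun k => c ≤ k ∧ c ≤ n - k),
            u k * u (n - k) ≤ ((n : ℝ) + 1) *
              (Real.exp (K * n - Real.sqrt n) * Real.exp (-(Real.sqrt c / 4))) := by
          calc ∑ k ∈ (range (n + 1)).filter (fun k => c ≤ k ∧ c ≤ n - k), u k * u (n - k)
              ≤ ∑ k ∈ (range (n + 1)).filter (fun k => c ≤ k ∧ c ≤ n - k),
                (Real.exp (K * n - Real.sqrt n) * Real.exp (-(Real.sqrt c / 4))) := by
                refine sum_le_sum fun k hk => ?_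
                obtain ⟨hk1, hk2, hk3⟩ := mem_filter.1 hk
                have hk1' : k ≤ n := by
                  have := mem_range.1 hk1
                  omega
                have i1 := ih k (by omega) (by omega)
                have i2 := ih (n - k) (by omega) (by omega)
                have i3 := anal_sqrt k (n - k) c hk2 hk3
                have e1 : k + (n - k) = n := by omega
                have e2 : (k : ℝ) + ((n - k : ℕ) : ℝ) = n := by exact_mod_cast e1
                rw [e1] at i3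
                calc u k * u (n - k)
                    ≤ Real.exp (K * k - Real.sqrt k) *
                      Real.exp (K * (n - k : ℕ) - Real.sqrt (n - k : ℕ)) :=
                      mul_le_mul i1 i2 (hu _).le (Real.exp_pos _).le
                  _ = Real.exp (K * n - (Real.sqrt k + Real.sqrt (n - k : ℕ))) := by
                      rw [← Real.exp_add]
                      congr 1
                      rw [← e2]
                      ring
                  _ ≤ Real.exp ((K * n - Real.sqrt n) + (-(Real.sqrt c / 4))) := by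
                      apply Real.exp_le_exp.2
                      linarith
                  _ = _ := Real.exp_add _ _
            _ = (((range (n + 1)).filter (fun k => c ≤ k ∧ c ≤ n - k)).card : ℝ) *
                (Real.exp (K * n - Real.sqrt n) * Real.exp (-(Real.sqrt c / 4))) := by
                rw [sum_const, nsmul_eq_mul]
            _ ≤ _ := by
                refine mul_le_mul_of_nonneg_right ?_ (by positivity)
                have : ((range (n + 1)).filter (fun k => c ≤ k ∧ c ≤ n - k)).card ≤ n + 1 := by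
                  refine (card_filter_le _ _).trans ?_
                  simp
                exact_mod_cast this
        calc u n ≤ 2 ^ gg (lam n) *
              ∑ k ∈ (range (n + 1)).filter (fun k => c ≤ k ∧ c ≤ n - k), u k * u (n - k) := hrec
          _ ≤ 2 ^ gg (lam n) * (((n : ℝ) + 1) *
              (Real.exp (K * n - Real.sqrt n) * Real.exp (-(Real.sqrt c / 4)))) := by gcongr
          _ = (2 ^ gg (lam n) * ((n : ℝ) + 1)) * Real.exp (-(Real.sqrt c / 4)) *
              Real.exp (K * n - Real.sqrt n) := by ring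
          _ ≤ (Real.exp (Real.sqrt c / 4)) * Real.exp (-(Real.sqrt c / 4)) *
              Real.exp (K * n - Real.sqrt n) := by gcongr
          _ = Real.exp (K * n - Real.sqrt n) := by
              rw [← Real.exp_add]
              simp
  refine ⟨Real.exp K, ?_, fun n hn => ?_⟩
  · have := Real.add_one_le_exp K
    linarith
  · refine (key n hn).trans ?_
    rw [← Real.exp_nat_mul]
    apply Real.exp_le_exp.2
    have := Real.sqrt_nonneg (n : ℝ)
    linarith

lemma anal_choose_two (k m : ℕ) : (k + m).choose 2 = k.choose 2 + m.choose 2 + k * m := by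
  induction m with
  | zero => simp
  | succ m ih =>
    rw [← add_assoc, Nat.choose_succ_succ' (k + m) 1, Nat.choose_succ_succ' m 1, ih]
    simp
    ring

theorem a_le (hrec : ∃ N₀ : ℕ, ∀ n ≥ N₀,
    a n ≤ 2 ^ gg (lam n) *
      ∑ k ∈ (range (n + 1)).filter (fun k => n / (64 * q (lam n)) / 8 ≤ k ∧
        n / (64 * q (lam n)) / 8 ≤ n - k), n.choose k * (a k * a (n - k) * 2 ^ (k * (n - k)))) :
    ∃ κ : ℝ, 1 ≤ κ ∧ ∀ n, (a n : ℝ) ≤ κ ^ n * n.factorial * 2 ^ (n.choose 2) := by
  set u : ℕ → ℝ := fun n => (a n : ℝ) / (n.factorial * 2 ^ (n.choose 2)) with hu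
  have hupos : ∀ n, 0 < u n := fun n => by
    have := a_pos n
    have h2 : (0 : ℝ) < a n := by exact_mod_cast this
    have h3 : (0 : ℝ) < n.factorial := by exact_mod_cast n.factorial_pos
    simp only [hu]
    positivity
  have hmul : ∀ n k, k ≤ n →
      ((n.choose k * (a k * a (n - k) * 2 ^ (k * (n - k))) : ℕ) : ℝ) =
        (n.factorial * 2 ^ (n.choose 2)) * (u k * u (n - k)) := by
    intro n k hk
    simp only [hu]
    have e1 : (n.factorial : ℝ) = n.choose k * k.factorial * (n - k).factorial := by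
      exact_mod_cast (Nat.choose_mul_factorial_mul_factorial hk).symm
    have e2 : n.choose 2 = k.choose 2 + (n - k).choose 2 + k * (n - k) := by
      rw [← anal_choose_two]
      congr 1
      omega
    have h3 : (k.factorial : ℝ) ≠ 0 := by exact_mod_cast k.factorial_ne_zero
    have h4 : ((n - k).factorial : ℝ) ≠ 0 := by exact_mod_cast (n - k).factorial_ne_zero
    rw [e1, e2, pow_add, pow_add]
    push_cast
    field_simp
  obtain ⟨κ, hκ1, hκ⟩ := growth u hupos (by
    obtain ⟨N₀, hN₀⟩ := hrec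
    refine ⟨N₀, fun n hn => ?_⟩
    have h1 := hN₀ n hn
    have h2 : (0 : ℝ) < n.factorial * 2 ^ (n.choose 2) := by
      have : (0 : ℝ) < n.factorial := by exact_mod_cast n.factorial_pos
      positivity
    have h3 : (a n : ℝ) = (n.factorial * 2 ^ (n.choose 2)) * u n := by
      simp only [hu]
      field_simp
    have h4 : (a n : ℝ) ≤ 2 ^ gg (lam n) *
        ∑ k ∈ (range (n + 1)).filter (fun k => n / (64 * q (lam n)) / 8 ≤ k ∧
          n / (64 * q (lam n)) / 8 ≤ n - k),
          ((n.choose k * (a k * a (n - k) * 2 ^ (k * (n - k))) : ℕ) : ℝ) := by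
      exact_mod_cast h1
    have h5 : ∑ k ∈ (range (n + 1)).filter (fun k => n / (64 * q (lam n)) / 8 ≤ k ∧
          n / (64 * q (lam n)) / 8 ≤ n - k),
          ((n.choose k * (a k * a (n - k) * 2 ^ (k * (n - k))) : ℕ) : ℝ) =
        (n.factorial * 2 ^ (n.choose 2)) *
        ∑ k ∈ (range (n + 1)).filter (fun k => n / (64 * q (lam n)) / 8 ≤ k ∧
          n / (64 * q (lam n)) / 8 ≤ n - k), u k * u (n - k) := by
      rw [mul_sum]
      refine sum_congr rfl fun k hk => ?_
      have hk1 := mem_range.1 (mem_filter.1 hk).1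
      exact hmul n k (by omega)
    rw [h5, h3] at h4
    have h6 : (n.factorial * 2 ^ (n.choose 2) : ℝ) * u n ≤
        (n.factorial * 2 ^ (n.choose 2) : ℝ) * (2 ^ gg (lam n) *
        ∑ k ∈ (range (n + 1)).filter (fun k => n / (64 * q (lam n)) / 8 ≤ k ∧
          n / (64 * q (lam n)) / 8 ≤ n - k), u k * u (n - k)) := by
      refine h4.trans (le_of_eq ?_)
      ring
    exact le_of_mul_le_mul_left h6 h2)
  refine ⟨κ, hκ1, fun n => ?_⟩
  rcases Nat.eq_zero_or_pos n with rfl | hn
  · simp [a_zero]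
  · have h1 := hκ n hn
    simp only [hu] at h1
    rw [div_le_iff₀ (by
      have : (0 : ℝ) < n.factorial := by exact_mod_cast n.factorial_pos
      positivity)] at h1
    linarith

end Pool.H47.D
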