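import Pool.Agent.H47.C3.Base

set_option autoImplicit false

/-! Attaching few vertices. -/

namespace Pool.H47.D

open Finset

lemma att_ip_res {G : DG} {S T : Finset ℕ} (h : S ⊆ T) : ip (res G T) S S = ip G S S := by
  ext ⟨A, B⟩
  rw [mem_ip, mem_ip]
  constructor
  · rintro ⟨h1, h2, h3⟩
    exact ⟨h1, h2, (ind_res_iff (h1.trans h) (h2.trans h)).1 h3⟩
  · rintro ⟨h1, h2, h3⟩
    exact ⟨h1, h2, h3.res⟩

open Classical in
theorem attach (M : ℕ) (V E : Finset ℕ) (hE : E ⊆ V) (S : Finset DG) :
    ((cls V).filter (fun G => res G (V \ E) ∈ S ∧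
      ∀ Z ⊆ E, Z.Nonempty → (ip G (V \ Z) (V \ Z)).card ≤ M)).card ≤ S.card * M ^ E.card := by
  induction E using Finset.induction_on generalizing V with
  | empty =>
    rw [card_empty, pow_zero, mul_one]
    refine card_le_card ?_
    intro G hG
    obtain ⟨h1, h2, _⟩ := mem_filter.1 hG
    rw [sdiff_empty, res_self h1] at h2
    exact h2
  | insert e E he ih =>
    have heV : e ∈ V := hE (mem_insert_self _ _)
    have hEV : E ⊆ V.erase e := by
      intro y hy
      refine mem_erase.2 ⟨?_, hE (mem_insert_of_mem hy)⟩
      rintro rfl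
      exact he hy
    have hsd : ∀ Z : Finset ℕ, (V.erase e) \ Z = V \ insert e Z := by
      intro Z
      ext y
      simp only [mem_sdiff, mem_erase, mem_insert]
      tauto
    set P : Finset DG := (cls (V.erase e)).filter (fun H => res H ((V.erase e) \ E) ∈ S ∧
      ∀ Z ⊆ E, Z.Nonempty → (ip H ((V.erase e) \ Z) ((V.erase e) \ Z)).card ≤ M) with hP
    have hIH := ih (V.erase e) hEV
    refine (card_le_sum V e _ (filter_subset _ _) (fun H => if H ∈ P then M else 0) ?_).trans ?_
    · intro H hH
      by_cases hne : ((ip H (V.erase e) (V.erase e)).filter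
          (fun p => Pool.H47.D.ext H e p.1 p.2 ∈ (cls V).filter (fun G => res G (V \ insert e E) ∈ S ∧
            ∀ Z ⊆ insert e E, Z.Nonempty → (ip G (V \ Z) (V \ Z)).card ≤ M))).Nonempty
      · obtain ⟨⟨A, B⟩, hp⟩ := hne
        obtain ⟨hp1, hp2⟩ := mem_filter.1 hp
        obtain ⟨hp3, hp4, hp5⟩ := mem_filter.1 hp2
        change Pool.H47.D.ext H e A B ∈ cls V at hp3
        have hres : res (Pool.H47.D.ext H e A B) (V.erase e) = H := res_ext hH
        have key : ∀ Z : Finset ℕ, ip H ((V.erase e) \ Z) ((V.erase e) \ Z) =
            ip (Pool.H47.D.ext H e A B) (V \ insert e Z) (V \ insert e Z) := by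
          intro Z
          have h8 := att_ip_res (G := Pool.H47.D.ext H e A B) (S := (V.erase e) \ Z)
            (T := V.erase e) sdiff_subset
          rw [hres] at h8
          rw [← hsd]; exact h8
        have hHP : H ∈ P := by
          rw [hP]
          refine mem_filter.2 ⟨hH, ?_, ?_⟩
          · rw [hsd]
            have h6 : res (res (Pool.H47.D.ext H e A B) (V.erase e)) (V \ insert e E) =
                res (Pool.H47.D.ext H e A B) (V \ insert e E) := by
              refine res_res ?_
              rw [← hsd]; exact sdiff_subset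
            rw [hres] at h6
            rw [h6]; exact hp4
          · intro Z hZ hZne
            rw [key Z]
            exact hp5 _ (insert_subset_insert _ hZ) (insert_nonempty _ _)
        beta_reduce
        rw [if_pos hHP]
        refine (card_filter_le _ _).trans ?_
        have h7 := key ∅
        rw [sdiff_empty] at h7
        rw [h7]
        refine hp5 _ ?_ (insert_nonempty _ _)
        intro y hy
        simp only [mem_insert, notMem_empty, or_false] at hy
        rw [hy]; exact mem_insert_self _ _
      · rw [not_nonempty_iff_eq_empty] at hne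
        rw [hne, card_empty]
        exact Nat.zero_le _
    · rw [← sum_filter, sum_const, smul_eq_mul, card_insert_of_notMem he, pow_succ, ← mul_assoc]
      refine Nat.mul_le_mul_right _ (le_trans (card_le_card ?_) hIH)
      intro H hH
      exact (mem_filter.1 hH).2

end Pool.H47.D
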