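import Pool.Agent.H47.C3.Defs

set_option autoImplicit false

/-! Module BFOUR: count of the digraphs with the event `Bad4`. -/

namespace Pool.H47.D

open Finset

/-- the number of subsets with at most `k` elements of a set with `n` elements is at most
`(n + 1) ^ k` -/
lemma bfour_card_small (V : Finset ℕ) (k : ℕ) :
    (V.powerset.filter (fun J => J.card ≤ k)).card ≤ (V.card + 1) ^ k := by
  classical
  induction k with
  | zero =>
    rw [pow_zero]
    refine card_le_one.2 ?_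
    intro A hA B hB
    have h1 := (mem_filter.1 hA).2
    have h2 := (mem_filter.1 hB).2
    rw [Nat.le_zero, card_eq_zero] at h1 h2
    rw [h1, h2]
  | succ k ih =>
    set F := V.powerset.filter (fun J => J.card ≤ k) with hF
    have hsub : V.powerset.filter (fun J => J.card ≤ k + 1) ⊆
        F ∪ (V ×ˢ F).image (fun p => insert p.1 p.2) := by
      intro J hJ
      obtain ⟨hJ1, hJ2⟩ := mem_filter.1 hJ
      rw [mem_powerset] at hJ1
      rw [mem_union]
      rcases Nat.lt_or_ge k J.card with h | h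
      · right
        have hne : J.Nonempty := by
          rw [← card_pos]; omega
        obtain ⟨v, hv⟩ := hne
        refine mem_image.2 ⟨(v, J.erase v), ?_, insert_erase hv⟩
        refine mem_product.2 ⟨hJ1 hv, ?_⟩
        refine mem_filter.2 ⟨mem_powerset.2 ((erase_subset _ _).trans hJ1), ?_⟩
        change (J.erase v).card ≤ k
        rw [card_erase_of_mem hv]
        omega
      · left
        exact mem_filter.2 ⟨mem_powerset.2 hJ1, h⟩
    calc (V.powerset.filter (fun J => J.card ≤ k + 1)).card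
        ≤ (F ∪ (V ×ˢ F).image (fun p => insert p.1 p.2)).card := card_le_card hsub
      _ ≤ F.card + ((V ×ˢ F).image (fun p => insert p.1 p.2)).card := card_union_le _ _
      _ ≤ F.card + (V ×ˢ F).card := Nat.add_le_add_left card_image_le _
      _ = (V.card + 1) * F.card := by rw [card_product]; ring
      _ ≤ (V.card + 1) * (V.card + 1) ^ k := Nat.mul_le_mul_left _ ih
      _ = (V.card + 1) ^ (k + 1) := by ring

lemma bfour_mem_ext {H : DG} {x u v : ℕ} {A B : Finset ℕ} (hu : u ≠ x) (hv : v ≠ x) :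
    (u, v) ∈ Pool.H47.D.ext H x A B ↔ (u, v) ∈ H := by
  rw [mem_ext]
  constructor
  · rintro (h | ⟨h, _⟩ | ⟨h, _⟩)
    · exact h
    · exact absurd h hu
    · exact absurd h hv
  · exact Or.inl

lemma bfour_inter_Lp {H : DG} {V J S : Finset ℕ} {x : ℕ} {A B : Finset ℕ} (hx : x ∉ J)
    (hS : S ⊆ V.erase x) :
    S ∩ Lp (Pool.H47.D.ext H x A B) V J = S ∩ Lp H (V.erase x) J := by
  ext y
  simp only [mem_inter, Lp, mem_filter]
  refine and_congr_right fun hy => ?_
  have hy' := hS hy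
  have hyx : y ≠ x := (mem_erase.1 hy').1
  constructor
  · rintro ⟨_, h⟩
    refine ⟨hy', fun z hz hzy => h z hz ?_⟩
    exact (bfour_mem_ext (ne_of_mem_of_not_mem hz hx) hyx).2 hzy
  · rintro ⟨_, h⟩
    refine ⟨(mem_erase.1 hy').2, fun z hz hzy => h z hz ?_⟩
    exact (bfour_mem_ext (ne_of_mem_of_not_mem hz hx) hyx).1 hzy

lemma bfour_inter_Rp {H : DG} {V J S : Finset ℕ} {x : ℕ} {A B : Finset ℕ} (hx : x ∉ J)
    (hS : S ⊆ V.erase x) :
    S ∩ Rp (Pool.H47.D.ext H x A B) V J = S ∩ Rp H (V.erase x) J := by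
  ext y
  simp only [mem_inter, Rp, mem_filter]
  refine and_congr_right fun hy => ?_
  have hy' := hS hy
  have hyx : y ≠ x := (mem_erase.1 hy').1
  constructor
  · rintro ⟨_, h⟩
    refine ⟨hy', fun z hz hzy => h z hz ?_⟩
    exact (bfour_mem_ext hyx (ne_of_mem_of_not_mem hz hx)).2 hzy
  · rintro ⟨_, h⟩
    refine ⟨(mem_erase.1 hy').2, fun z hz hzy => h z hz ?_⟩
    exact (bfour_mem_ext hyx (ne_of_mem_of_not_mem hz hx)).1 hzy

lemma bfour_ip_ext {H : DG} {V : Finset ℕ} {x : ℕ} {A B : Finset ℕ} :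
    ip (Pool.H47.D.ext H x A B) (V.erase x) (V.erase x) = ip H (V.erase x) (V.erase x) := by
  ext ⟨C, D⟩
  rw [mem_ip, mem_ip]
  refine and_congr_right fun hC => and_congr_right fun hD => ?_
  constructor
  · intro h u hu v hv huv
    exact h u hu v hv ((bfour_mem_ext (mem_erase.1 (hC hu)).1 (mem_erase.1 (hD hv)).1).2 huv)
  · intro h u hu v hv huv
    exact h u hu v hv ((bfour_mem_ext (mem_erase.1 (hC hu)).1 (mem_erase.1 (hD hv)).1).1 huv)

open Classical in
lemma bfour_ipa_ext {H : DG} {V J : Finset ℕ} {x m : ℕ} {A B : Finset ℕ} (hx : x ∉ J) :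
    ipa (Pool.H47.D.ext H x A B) (V.erase x) (Lp (Pool.H47.D.ext H x A B) V J)
      (Rp (Pool.H47.D.ext H x A B) V J) m =
    ipa H (V.erase x) (Lp H (V.erase x) J) (Rp H (V.erase x) J) m := by
  unfold ipa
  rw [bfour_ip_ext]
  refine filter_congr ?_
  rintro ⟨C, D⟩ hp
  obtain ⟨hC, hD, _⟩ := mem_ip.1 hp
  rw [bfour_inter_Lp hx hC, bfour_inter_Rp hx hD]

open Classical in
/-- the event for a fixed sample and a fixed vertex -/
lemma bfour_fixed (l m : ℕ) (V J : Finset ℕ) (x : ℕ) (hxV : x ∈ V) (hx : x ∉ J) :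
    ((cls V).filter (fun G => (out G x ∩ Lp G V J).card + (inn G x ∩ Rp G V J).card ≤ m ∧
      (ipa G (V.erase x) (Lp G V J) (Rp G V J) m).card * 2 ^ t4 l < 2 ^ V.card)).card *
      2 ^ t4 l ≤ 2 * a V.card := by
  set E := (cls V).filter (fun G => (out G x ∩ Lp G V J).card + (inn G x ∩ Rp G V J).card ≤ m ∧
      (ipa G (V.erase x) (Lp G V J) (Rp G V J) m).card * 2 ^ t4 l < 2 ^ V.card) with hE
  have key : E.card ≤ ∑ H ∈ cls (V.erase x), 2 ^ V.card / 2 ^ t4 l := by
    refine card_le_sum V x E (filter_subset _ _) (fun _ => 2 ^ V.card / 2 ^ t4 l) ?_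
    intro H hH
    set F := (ip H (V.erase x) (V.erase x)).filter
      (fun p => Pool.H47.D.ext H x p.1 p.2 ∈ E) with hF
    rcases F.eq_empty_or_nonempty with h0 | ⟨⟨A, B⟩, hAB⟩
    · rw [h0]; simp
    · have h1 := (mem_filter.1 (mem_filter.1 hAB).2).2.2
      simp only at h1
      rw [bfour_ipa_ext hx] at h1
      rw [Nat.le_div_iff_mul_le (by positivity)]
      refine le_trans (Nat.mul_le_mul_right _ (card_le_card ?_)) h1.le
      rintro ⟨C, D⟩ hCD
      obtain ⟨hC1, hC2⟩ := mem_filter.1 hCD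
      obtain ⟨hC, hD, _⟩ := mem_ip.1 hC1
      have h2 := (mem_filter.1 hC2).2.1
      simp only at h2
      rw [out_ext hH hD, inn_ext hH hC, bfour_inter_Lp hx hC, bfour_inter_Rp hx hD] at h2
      exact mem_filter.2 ⟨hC1, h2⟩
  obtain ⟨n, hn⟩ : ∃ n, V.card = n + 1 := ⟨V.card - 1, by
    have := card_pos.2 ⟨x, hxV⟩
    omega⟩
  have hc : (cls (V.erase x)).card = a n := by
    rw [card_cls, card_erase_of_mem hxV, hn, Nat.add_sub_cancel]
  rw [sum_const, smul_eq_mul, hc] at key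
  calc E.card * 2 ^ t4 l ≤ (a n * (2 ^ V.card / 2 ^ t4 l)) * 2 ^ t4 l :=
        Nat.mul_le_mul_right _ key
    _ = a n * (2 ^ V.card / 2 ^ t4 l * 2 ^ t4 l) := by ring
    _ ≤ a n * 2 ^ V.card := Nat.mul_le_mul_left _ (Nat.div_mul_le_self _ _)
    _ = 2 * (2 ^ n * a n) := by rw [hn]; ring
    _ ≤ 2 * a (n + 1) := Nat.mul_le_mul_left _ (a_succ_ge n)
    _ = 2 * a V.card := by rw [hn]

open Classical in
theorem bad4_count (l m : ℕ) (V : Finset ℕ) (hl : 2 * V.card + 1 ≤ 2 ^ l) :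
    16 * ((cls V).filter (Bad4 l m V)).card ≤ a V.card := by
  set Ev : Finset ℕ → ℕ → Finset DG := fun J x =>
    if x ∈ J then ∅ else
    (cls V).filter (fun G => (out G x ∩ Lp G V J).card + (inn G x ∩ Rp G V J).card ≤ m ∧
      (ipa G (V.erase x) (Lp G V J) (Rp G V J) m).card * 2 ^ t4 l < 2 ^ V.card) with hEv
  set Idx := (V.powerset.filter (fun J => J.card ≤ q l)) ×ˢ V with hIdx
  have hsub : (cls V).filter (Bad4 l m V) ⊆ Idx.biUnion (fun p => Ev p.1 p.2) := by
    intro G hG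
    obtain ⟨hG1, J, hJV, hJq, x, hxV, hxJ, h1, h2⟩ := mem_filter.1 hG
    refine mem_biUnion.2 ⟨(J, x), ?_, ?_⟩
    · exact mem_product.2 ⟨mem_filter.2 ⟨mem_powerset.2 hJV, hJq⟩, hxV⟩
    · simp only [hEv, if_neg hxJ]
      exact mem_filter.2 ⟨hG1, h1, h2⟩
  have hone : ∀ p ∈ Idx, (Ev p.1 p.2).card * 2 ^ t4 l ≤ 2 * a V.card := by
    rintro ⟨J, x⟩ hp
    obtain ⟨_, hxV⟩ := mem_product.1 hp
    simp only [hEv]
    split_ifs with h
    · simp
    · exact bfour_fixed l m V J x hxV h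
  have hIc : Idx.card * 2 ≤ 2 ^ ((q l + 1) * l) := by
    have h1 : V.card + 1 ≤ 2 ^ l := by omega
    have h2 : V.card * 2 ≤ 2 ^ l := by omega
    calc Idx.card * 2 = (V.powerset.filter (fun J => J.card ≤ q l)).card * (V.card * 2) := by
          rw [hIdx, card_product]; ring
      _ ≤ (V.card + 1) ^ q l * 2 ^ l := Nat.mul_le_mul (bfour_card_small V (q l)) h2
      _ ≤ (2 ^ l) ^ q l * 2 ^ l := Nat.mul_le_mul_right _ (Nat.pow_le_pow_left h1 _)
      _ = 2 ^ ((q l + 1) * l) := by rw [← pow_mul, ← pow_add]; congr 1; ring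
  have hmain : ((cls V).filter (Bad4 l m V)).card * 2 ^ t4 l ≤
      2 ^ ((q l + 1) * l) * a V.card := by
    calc ((cls V).filter (Bad4 l m V)).card * 2 ^ t4 l
        ≤ (∑ p ∈ Idx, (Ev p.1 p.2).card) * 2 ^ t4 l :=
          Nat.mul_le_mul_right _ ((card_le_card hsub).trans card_biUnion_le)
      _ = ∑ p ∈ Idx, (Ev p.1 p.2).card * 2 ^ t4 l := by rw [sum_mul]
      _ ≤ ∑ _p ∈ Idx, 2 * a V.card := sum_le_sum hone
      _ = (Idx.card * 2) * a V.card := by rw [sum_const, smul_eq_mul]; ring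
      _ ≤ 2 ^ ((q l + 1) * l) * a V.card := Nat.mul_le_mul_right _ hIc
  have ht : 2 ^ t4 l = 2 ^ ((q l + 1) * l) * 32 := by
    unfold t4
    rw [pow_add]; norm_num
  rw [ht] at hmain
  have hpos : 0 < 2 ^ ((q l + 1) * l) := by positivity
  have : ((cls V).filter (Bad4 l m V)).card * 32 ≤ a V.card := by
    refine Nat.le_of_mul_le_mul_left ?_ hpos
    calc 2 ^ ((q l + 1) * l) * (((cls V).filter (Bad4 l m V)).card * 32)
        = ((cls V).filter (Bad4 l m V)).card * (2 ^ ((q l + 1) * l) * 32) := by ring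
      _ ≤ _ := hmain
  omega

end Pool.H47.D
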