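import Pool.Agent.H47.C3.Defs

set_option autoImplicit false

/-! Count of the event `Bad1`. -/

namespace Pool.H47.D

open Finset

lemma bone_small {α : Type*} [DecidableEq α] (V : Finset α) (w : ℕ) :
    (V.powerset.filter (fun E => E.card ≤ w)).card ≤ (V.card + 1) ^ w := by
  induction w with
  | zero =>
    rw [pow_zero, card_le_one]
    intro A hA B hB
    have h1 := (mem_filter.1 hA).2
    have h2 := (mem_filter.1 hB).2
    rw [Nat.le_zero, card_eq_zero] at h1 h2
    rw [h1, h2]
  | succ w ih =>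
    have hsub : V.powerset.filter (fun E => E.card ≤ w + 1) ⊆
        (insertNone V ×ˢ V.powerset.filter (fun E => E.card ≤ w)).image
          (fun p => match p.1 with
            | none => p.2
            | some x => insert x p.2) := by
      intro E hE
      obtain ⟨h1, h2⟩ := mem_filter.1 hE
      rw [mem_powerset] at h1
      rcases E.eq_empty_or_nonempty with rfl | ⟨x, hx⟩
      · refine mem_image.2 ⟨(none, ∅), ?_, rfl⟩
        exact mem_product.2 ⟨by simp, mem_filter.2 ⟨by simp, by simp⟩⟩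
      · refine mem_image.2 ⟨(some x, E.erase x), ?_, insert_erase hx⟩
        refine mem_product.2 ⟨by simpa using h1 hx, mem_filter.2 ⟨?_, ?_⟩⟩
        · exact mem_powerset.2 ((erase_subset _ _).trans h1)
        · change (E.erase x).card ≤ w
          rw [card_erase_of_mem hx]; omega
    refine (card_le_card hsub).trans (card_image_le.trans ?_)
    rw [card_product, card_insertNone, pow_succ, mul_comm]
    exact Nat.mul_le_mul_right _ ih

/-- pairs of subsets meeting `(P, Q)` in few elements -/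
lemma bone_pairs (S P Q : Finset ℕ) (hP : P ⊆ S) (hQ : Q ⊆ S) (w : ℕ)
    (X : Finset (Finset ℕ × Finset ℕ))
    (hX : ∀ p ∈ X, p.1 ⊆ S ∧ p.2 ⊆ S ∧ (p.1 ∩ P).card + (p.2 ∩ Q).card ≤ w) :
    X.card ≤ (P.card + Q.card + 1) ^ w * 2 ^ ((S.card - P.card) + (S.card - Q.card)) := by
  classical
  have h1 : X.card ≤ (((P.disjSum Q).powerset.filter (fun E => E.card ≤ w)) ×ˢ
      ((S \ P).powerset ×ˢ (S \ Q).powerset)).card := by
    refine card_le_card_of_injOn (fun p => ((p.1 ∩ P).disjSum (p.2 ∩ Q), (p.1 \ P, p.2 \ Q))) ?_ ?_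
    · intro p hp
      obtain ⟨h1, h2, h3⟩ := hX p hp
      refine mem_product.2 ⟨mem_filter.2 ⟨mem_powerset.2 ?_, ?_⟩, mem_product.2 ⟨?_, ?_⟩⟩
      · exact disjSum_mono inter_subset_right inter_subset_right
      · change ((p.1 ∩ P).disjSum (p.2 ∩ Q)).card ≤ w
        rw [card_disjSum]; exact h3
      · exact mem_powerset.2 (sdiff_subset_sdiff h1 (Subset.refl _))
      · exact mem_powerset.2 (sdiff_subset_sdiff h2 (Subset.refl _))
    · rintro ⟨A, B⟩ _ ⟨A', B'⟩ _ h
      simp only [Prod.mk.injEq] at h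
      obtain ⟨e1, e2, e3⟩ := h
      have f1 : A ∩ P = A' ∩ P := by
        ext y
        have := Finset.ext_iff.1 e1 (Sum.inl y)
        simpa using this
      have f2 : B ∩ Q = B' ∩ Q := by
        ext y
        have := Finset.ext_iff.1 e1 (Sum.inr y)
        simpa using this
      rw [← sdiff_union_inter A P, ← sdiff_union_inter B Q, f1, f2, e2, e3,
        sdiff_union_inter, sdiff_union_inter]
  refine h1.trans ?_
  rw [card_product, card_product, card_powerset, card_powerset, card_sdiff_of_subset hP,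
    card_sdiff_of_subset hQ, ← pow_add]
  refine Nat.mul_le_mul_right _ ?_
  have := bone_small (P.disjSum Q) w
  rwa [card_disjSum] at this

lemma bone_lp {V : Finset ℕ} {H : DG} {A B J : Finset ℕ} {x : ℕ} (hx : x ∉ J)
    {y : ℕ} (hy : y ∈ V.erase x) :
    y ∈ Lp (Pool.H47.D.ext H x A B) V J ↔ y ∈ Lp H (V.erase x) J := by
  unfold Lp
  rw [mem_filter, mem_filter]
  have hy' := mem_erase.1 hy
  constructor
  · rintro ⟨_, h⟩
    exact ⟨hy, fun z hz hzy => h z hz (mem_ext.2 (Or.inl hzy))⟩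
  · rintro ⟨_, h⟩
    refine ⟨hy'.2, fun z hz hzy => ?_⟩
    rw [mem_ext] at hzy
    rcases hzy with hzy | ⟨rfl, _⟩ | ⟨rfl, _⟩
    · exact h z hz hzy
    · exact hx hz
    · exact hy'.1 rfl

lemma bone_rp {V : Finset ℕ} {H : DG} {A B J : Finset ℕ} {x : ℕ} (hx : x ∉ J)
    {y : ℕ} (hy : y ∈ V.erase x) :
    y ∈ Rp (Pool.H47.D.ext H x A B) V J ↔ y ∈ Rp H (V.erase x) J := by
  unfold Rp
  rw [mem_filter, mem_filter]
  have hy' := mem_erase.1 hy
  constructor
  · rintro ⟨_, h⟩
    exact ⟨hy, fun z hz hzy => h z hz (mem_ext.2 (Or.inl hzy))⟩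
  · rintro ⟨_, h⟩
    refine ⟨hy'.2, fun z hz hzy => ?_⟩
    rw [mem_ext] at hzy
    rcases hzy with hzy | ⟨rfl, _⟩ | ⟨rfl, _⟩
    · exact h z hz hzy
    · exact hy'.1 rfl
    · exact hx hz

open Classical in
lemma bone_one (l : ℕ) (V : Finset ℕ) (hl : 2 * V.card + 1 ≤ 2 ^ l) (hl1 : 1 ≤ l)
    (J : Finset ℕ) (hJ : J ⊆ V) (x : ℕ) (hxV : x ∈ V) (hxJ : x ∉ J) :
    ((cls V).filter (fun G => V.card + sg l ≤ (Lp G V J).card + (Rp G V J).card ∧
      8 * l * ((out G x ∩ Lp G V J).card + (inn G x ∩ Rp G V J).card) + V.card ≤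
      (Lp G V J).card + (Rp G V J).card)).card * 2 ^ ((q l + 1) * l + 7) ≤ a V.card := by
  set E := (cls V).filter (fun G => V.card + sg l ≤ (Lp G V J).card + (Rp G V J).card ∧
      8 * l * ((out G x ∩ Lp G V J).card + (inn G x ∩ Rp G V J).card) + V.card ≤
      (Lp G V J).card + (Rp G V J).card) with hE
  have hVc : (V.erase x).card + 1 = V.card := card_erase_add_one hxV
  set n' := (V.erase x).card with hn'
  have hkey : ∀ H ∈ cls (V.erase x), ((ip H (V.erase x) (V.erase x)).filter
      (fun p => Pool.H47.D.ext H x p.1 p.2 ∈ E)).card * 2 ^ ((q l + 1) * l + 7) ≤ 2 ^ n' := by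
    intro H hH
    set P := Lp H (V.erase x) J
    set Q := Rp H (V.erase x) J
    have hPS : P ⊆ V.erase x := filter_subset _ _
    have hQS : Q ⊆ V.erase x := filter_subset _ _
    have hPc := card_le_card hPS
    have hQc := card_le_card hQS
    have hmem : ∀ p ∈ (ip H (V.erase x) (V.erase x)).filter
        (fun p => Pool.H47.D.ext H x p.1 p.2 ∈ E), p.1 ⊆ V.erase x ∧ p.2 ⊆ V.erase x ∧
        V.card + sg l ≤ P.card + Q.card + 2 ∧
        8 * l * ((p.1 ∩ P).card + (p.2 ∩ Q).card) + V.card ≤ P.card + Q.card + 2 := by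
      rintro ⟨A, B⟩ hp
      obtain ⟨hp1, hp2⟩ := mem_filter.1 hp
      obtain ⟨hA, hB, hI⟩ := mem_ip.1 hp1
      obtain ⟨_, h1, h2⟩ := mem_filter.1 hp2
      change V.card + sg l ≤ (Lp (Pool.H47.D.ext H x A B) V J).card +
        (Rp (Pool.H47.D.ext H x A B) V J).card at h1
      change 8 * l * ((out (Pool.H47.D.ext H x A B) x ∩ Lp (Pool.H47.D.ext H x A B) V J).card +
        (inn (Pool.H47.D.ext H x A B) x ∩ Rp (Pool.H47.D.ext H x A B) V J).card) + V.card ≤
        (Lp (Pool.H47.D.ext H x A B) V J).card + (Rp (Pool.H47.D.ext H x A B) V J).card at h2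
      rw [out_ext hH hB, inn_ext hH hA] at h2
      have e1 : (Lp (Pool.H47.D.ext H x A B) V J).card ≤ P.card + 1 := by
        have : Lp (Pool.H47.D.ext H x A B) V J ⊆ insert x P := by
          intro y hy
          by_cases hyx : y = x
          · rw [hyx]; exact mem_insert_self _ _
          · refine mem_insert_of_mem ((bone_lp hxJ ?_).1 hy)
            exact mem_erase.2 ⟨hyx, (mem_filter.1 hy).1⟩
        exact (card_le_card this).trans (card_insert_le _ _)
      have e2 : (Rp (Pool.H47.D.ext H x A B) V J).card ≤ Q.card + 1 := by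
        have : Rp (Pool.H47.D.ext H x A B) V J ⊆ insert x Q := by
          intro y hy
          by_cases hyx : y = x
          · rw [hyx]; exact mem_insert_self _ _
          · refine mem_insert_of_mem ((bone_rp hxJ ?_).1 hy)
            exact mem_erase.2 ⟨hyx, (mem_filter.1 hy).1⟩
        exact (card_le_card this).trans (card_insert_le _ _)
      have e3 : A ∩ P ⊆ A ∩ Lp (Pool.H47.D.ext H x A B) V J := by
        intro y hy
        obtain ⟨hy1, hy2⟩ := mem_inter.1 hy
        exact mem_inter.2 ⟨hy1, (bone_lp hxJ (hA hy1)).2 hy2⟩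
      have e4 : B ∩ Q ⊆ B ∩ Rp (Pool.H47.D.ext H x A B) V J := by
        intro y hy
        obtain ⟨hy1, hy2⟩ := mem_inter.1 hy
        exact mem_inter.2 ⟨hy1, (bone_rp hxJ (hB hy1)).2 hy2⟩
      have e5 := card_le_card e3
      have e6 := card_le_card e4
      refine ⟨hA, hB, by omega, ?_⟩
      have e7 : 8 * l * ((A ∩ P).card + (B ∩ Q).card) ≤
          8 * l * ((A ∩ Lp (Pool.H47.D.ext H x A B) V J).card +
            (B ∩ Rp (Pool.H47.D.ext H x A B) V J).card) := Nat.mul_le_mul_left _ (by omega)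
      change 8 * l * ((A ∩ P).card + (B ∩ Q).card) + V.card ≤ P.card + Q.card + 2
      omega
    rcases Finset.eq_empty_or_nonempty ((ip H (V.erase x) (V.erase x)).filter
        (fun p => Pool.H47.D.ext H x p.1 p.2 ∈ E)) with h0 | ⟨p0, hp0⟩
    · rw [h0, card_empty, zero_mul]; exact Nat.zero_le _
    · obtain ⟨_, _, hs, _⟩ := hmem p0 hp0
      obtain ⟨s, hs'⟩ : ∃ s, s + V.card = P.card + Q.card + 2 := ⟨P.card + Q.card + 2 - V.card,
        by omega⟩
      have hb := bone_pairs (V.erase x) P Q hPS hQS (s / (8 * l)) _ (fun p hp => by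
        obtain ⟨k1, k2, _, k4⟩ := hmem p hp
        refine ⟨k1, k2, ?_⟩
        rw [Nat.le_div_iff_mul_le (by positivity), mul_comm]
        omega)
      have hb2 : (P.card + Q.card + 1) ^ (s / (8 * l)) ≤ 2 ^ (l * (s / (8 * l))) := by
        rw [pow_mul]
        exact Nat.pow_le_pow_left (by omega) _
      calc _ ≤ ((P.card + Q.card + 1) ^ (s / (8 * l)) *
            2 ^ (((V.erase x).card - P.card) + ((V.erase x).card - Q.card))) *
            2 ^ ((q l + 1) * l + 7) := Nat.mul_le_mul_right _ hb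
        _ ≤ (2 ^ (l * (s / (8 * l))) *
            2 ^ (((V.erase x).card - P.card) + ((V.erase x).card - Q.card))) *
            2 ^ ((q l + 1) * l + 7) := Nat.mul_le_mul_right _ (Nat.mul_le_mul_right _ hb2)
        _ = 2 ^ (l * (s / (8 * l)) + (((V.erase x).card - P.card) + ((V.erase x).card - Q.card)) +
            ((q l + 1) * l + 7)) := by rw [← pow_add, ← pow_add]
        _ ≤ 2 ^ n' := by
            refine Nat.pow_le_pow_right two_pos ?_
            have h8 : 8 * l * (s / (8 * l)) ≤ s := Nat.mul_div_le _ _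
            have h9 : 8 * (l * (s / (8 * l))) ≤ s := by
              rw [← mul_assoc]; exact h8
            have h10 : sg l = 2 * ((q l + 1) * l) + 10 := by unfold sg; ring
            set X := (q l + 1) * l
            set Y := l * (s / (8 * l))
            omega
  have h1 := card_le_sum V x E (filter_subset _ _) _ (fun H _ => le_rfl)
  calc E.card * 2 ^ ((q l + 1) * l + 7) ≤ (∑ H ∈ cls (V.erase x),
        ((ip H (V.erase x) (V.erase x)).filter
        (fun p => Pool.H47.D.ext H x p.1 p.2 ∈ E)).card) * 2 ^ ((q l + 1) * l + 7) :=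
        Nat.mul_le_mul_right _ h1
    _ = ∑ H ∈ cls (V.erase x), ((ip H (V.erase x) (V.erase x)).filter
        (fun p => Pool.H47.D.ext H x p.1 p.2 ∈ E)).card * 2 ^ ((q l + 1) * l + 7) := by
        rw [sum_mul]
    _ ≤ ∑ H ∈ cls (V.erase x), 2 ^ n' := sum_le_sum hkey
    _ = 2 ^ n' * a n' := by rw [sum_const, smul_eq_mul, card_cls, mul_comm]
    _ ≤ a (n' + 1) := a_succ_ge n'
    _ = a V.card := by rw [hVc]

open Classical in
theorem bad1_count (l : ℕ) (V : Finset ℕ) (hl : 2 * V.card + 1 ≤ 2 ^ l) :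
    16 * ((cls V).filter (Bad1 l V)).card ≤ a V.card := by
  rcases V.eq_empty_or_nonempty with rfl | hVne
  · have : (cls ∅).filter (Bad1 l ∅) = ∅ := by
      rw [filter_eq_empty_iff]
      rintro G _ ⟨J, _, _, x, hx, _⟩
      simp at hx
    rw [this, card_empty, mul_zero]; exact Nat.zero_le _
  have hV1 := hVne.card_pos
  have hl1 : 1 ≤ l := by
    by_contra h
    have : l = 0 := by omega
    rw [this] at hl
    omega
  set I := ((V.powerset.filter (fun J => J.card ≤ q l)) ×ˢ V).filter (fun p => p.2 ∉ p.1) with hI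
  have hsub : (cls V).filter (Bad1 l V) ⊆ I.biUnion (fun p => (cls V).filter (fun G =>
      V.card + sg l ≤ (Lp G V p.1).card + (Rp G V p.1).card ∧
      8 * l * ((out G p.2 ∩ Lp G V p.1).card + (inn G p.2 ∩ Rp G V p.1).card) + V.card ≤
      (Lp G V p.1).card + (Rp G V p.1).card)) := by
    intro G hG
    obtain ⟨h1, J, hJ, hJc, x, hx, hxJ, h2, h3⟩ := mem_filter.1 hG
    refine mem_biUnion.2 ⟨(J, x), ?_, mem_filter.2 ⟨h1, h2, h3⟩⟩
    exact mem_filter.2 ⟨mem_product.2 ⟨mem_filter.2 ⟨mem_powerset.2 hJ, hJc⟩, hx⟩, hxJ⟩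
  have hIc : I.card ≤ 2 ^ ((q l + 1) * l) := by
    refine (card_filter_le _ _).trans ?_
    rw [card_product]
    calc _ ≤ (V.card + 1) ^ q l * V.card := Nat.mul_le_mul_right _ (bone_small V (q l))
      _ ≤ (2 ^ l) ^ q l * 2 ^ l := Nat.mul_le_mul (Nat.pow_le_pow_left (by omega) _) (by omega)
      _ = 2 ^ ((q l + 1) * l) := by rw [← pow_mul, ← pow_add]; congr 1; ring
  have h1 : ((cls V).filter (Bad1 l V)).card * 2 ^ ((q l + 1) * l + 7) ≤
      2 ^ ((q l + 1) * l) * a V.card := by
    calc _ ≤ (∑ p ∈ I, ((cls V).filter (fun G =>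
          V.card + sg l ≤ (Lp G V p.1).card + (Rp G V p.1).card ∧
          8 * l * ((out G p.2 ∩ Lp G V p.1).card + (inn G p.2 ∩ Rp G V p.1).card) + V.card ≤
          (Lp G V p.1).card + (Rp G V p.1).card)).card) * 2 ^ ((q l + 1) * l + 7) :=
          Nat.mul_le_mul_right _ ((card_le_card hsub).trans card_biUnion_le)
      _ = ∑ p ∈ I, ((cls V).filter (fun G =>
          V.card + sg l ≤ (Lp G V p.1).card + (Rp G V p.1).card ∧
          8 * l * ((out G p.2 ∩ Lp G V p.1).card + (inn G p.2 ∩ Rp G V p.1).card) + V.card ≤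
          (Lp G V p.1).card + (Rp G V p.1).card)).card * 2 ^ ((q l + 1) * l + 7) := by
          rw [sum_mul]
      _ ≤ ∑ p ∈ I, a V.card := by
          refine sum_le_sum fun p hp => ?_
          obtain ⟨hp1, hp2⟩ := mem_filter.1 hp
          obtain ⟨hp3, hp4⟩ := mem_product.1 hp1
          exact bone_one l V hl hl1 p.1 (mem_powerset.1 (mem_filter.1 hp3).1) p.2 hp4 hp2
      _ = I.card * a V.card := by rw [sum_const, smul_eq_mul]
      _ ≤ _ := Nat.mul_le_mul_right _ hIc
  rw [pow_add, ← mul_assoc, mul_comm _ (2 ^ ((q l + 1) * l)), mul_assoc] at h1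
  have h2 := Nat.le_of_mul_le_mul_left h1 (by positivity)
  norm_num at h2
  omega

end Pool.H47.D
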