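import Pool.Agent.H47.C3.Defs

set_option autoImplicit false

/-! Module CONT: containers for independent pairs (Kleitman-Winston). -/

namespace Pool.H47.D

open Finset

lemma cont_pow (N : ℕ) (hN : 2 ≤ N) : 2 * (N - 1) ^ N ≤ N ^ N := by
  obtain ⟨M, rfl⟩ : ∃ M, N = M + 1 := ⟨N - 1, by omega⟩
  have hM : 1 ≤ M := by omega
  simp only [Nat.add_sub_cancel]
  have h : ((M : ℝ) + 1) ^ (M + 1) ≥ 2 * (M : ℝ) ^ (M + 1) := by
    have hM' : (0 : ℝ) < M := by exact_mod_cast hM
    have h1 := one_add_mul_le_pow (a := (1 : ℝ) / M) (by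
      have : (0 : ℝ) ≤ 1 / M := by positivity
      linarith) (M + 1)
    have h2 : (2 : ℝ) ≤ (1 + 1 / M) ^ (M + 1) := by
      refine le_trans ?_ h1
      push_cast
      have : ((M : ℝ) + 1) * (1 / M) = 1 + 1 / M := by field_simp
      rw [this]
      have : (0 : ℝ) ≤ 1 / M := by positivity
      linarith
    have h3 : ((M : ℝ) + 1) ^ (M + 1) = (1 + 1 / M) ^ (M + 1) * (M : ℝ) ^ (M + 1) := by
      rw [← mul_pow]
      congr 1
      field_simp
    rw [h3]
    have : (0 : ℝ) ≤ (M : ℝ) ^ (M + 1) := by positivity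
    nlinarith
  have h' : ((2 * M ^ (M + 1) : ℕ) : ℝ) ≤ (((M + 1) ^ (M + 1) : ℕ) : ℝ) := by
    push_cast
    exact h
  exact_mod_cast h'

lemma cont_start (N l n s : ℕ) (hN : 2 ≤ N) (hs : 1 ≤ s) (hl : 2 * n + 1 ≤ 2 ^ l) :
    n * (N - 1) ^ (N * l) < s * N ^ (N * l) := by
  have h1 : 2 ^ l * (N - 1) ^ (N * l) ≤ N ^ (N * l) := by
    rw [pow_mul, pow_mul, ← mul_pow]
    exact Nat.pow_le_pow_left (cont_pow N hN) l
  have h2 : 0 < (N - 1) ^ (N * l) := Nat.pow_pos (by omega)
  have h3 : n < 2 ^ l := by omega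
  calc n * (N - 1) ^ (N * l) < 2 ^ l * (N - 1) ^ (N * l) := Nat.mul_lt_mul_of_pos_right h3 h2
    _ ≤ 1 * N ^ (N * l) := by simpa using h1
    _ ≤ s * N ^ (N * l) := Nat.mul_le_mul_right _ hs

lemma cont_step (q n s k m o : ℕ) (hq : 1 ≤ q) (ho : m < n + 4 * q * o) (hom : o ≤ m)
    (h : (m - n) * (4 * q - 1) ^ (k + 1) < s * (4 * q) ^ (k + 1)) (hs : n + s ≤ m)
    (hs1 : 1 ≤ s) :
    (m - o - n) * (4 * q - 1) ^ k < s * (4 * q) ^ k := by
  obtain ⟨N, hN⟩ : ∃ N, 4 * q = N + 1 := ⟨4 * q - 1, by omega⟩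
  obtain ⟨e, rfl⟩ : ∃ e, m = n + e := ⟨m - n, by omega⟩
  rw [hN] at h ho ⊢
  simp only [Nat.add_sub_cancel, Nat.add_sub_cancel_left] at h ho ⊢
  have he : e < (N + 1) * o := by omega
  rcases Nat.lt_or_ge e o with hlt | hge
  · have h0 : n + e - o - n = 0 := by omega
    rw [h0]
    simp only [zero_mul]
    positivity
  · obtain ⟨e', rfl⟩ : ∃ e', e = o + e' := ⟨e - o, by omega⟩
    have h0 : n + (o + e') - o - n = e' := by omega
    rw [h0]
    have h1 : (N + 1) * e' ≤ N * (o + e') := by nlinarith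
    have h2 : (N + 1) * (e' * N ^ k) < (N + 1) * (s * (N + 1) ^ k) := by
      calc (N + 1) * (e' * N ^ k) = ((N + 1) * e') * N ^ k := by ring
        _ ≤ (N * (o + e')) * N ^ k := Nat.mul_le_mul_right _ h1
        _ = (o + e') * N ^ (k + 1) := by ring
        _ < s * (N + 1) ^ (k + 1) := h
        _ = (N + 1) * (s * (N + 1) ^ k) := by ring
    exact Nat.lt_of_mul_lt_mul_left h2

open Classical in
lemma cont_ind (q s : ℕ) (V : Finset ℕ) (G : DG) (hq : 1 ≤ q) (hs : 1 ≤ s)
    (hG : Good q s V G) (k : ℕ) : ∀ (m : ℕ) (R L : Finset ℕ), R ⊆ V → L ⊆ V →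
      R.card + L.card = m → (m - V.card) * (4 * q - 1) ^ k < s * (4 * q) ^ k →
      ∃ D : Finset (Finset ℕ × Finset ℕ), D.card ≤ (2 * V.card + 1) ^ k ∧
        D.card * (2 * V.card + 1) ≤ (m + 1) * (2 * V.card + 1) ^ k + 
          (if k = 0 then 2 * V.card + 1 else 0) ∧
      (∀ p ∈ D, p.1 ⊆ V ∧ p.2 ⊆ V ∧ p.1.card + p.2.card ≤ V.card + s) ∧
      ∀ A B, A ⊆ R → B ⊆ L → Ind G A B → ∃ p ∈ D, A ⊆ p.1 ∧ B ⊆ p.2 := by
  induction k with
  | zero =>
    intro m R L hR hL hm he
    simp only [pow_zero, mul_one] at he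
    refine ⟨{(R, L)}, by simp, by simp, ?_, ?_⟩
    · intro p hp
      rw [mem_singleton] at hp
      subst hp
      refine ⟨hR, hL, ?_⟩
      simp only
      omega
    · intro A B hA hB _
      exact ⟨(R, L), by simp, hA, hB⟩
  | succ k ihk =>
    intro m
    induction m with
    | zero =>
      intro R L hR hL hm he
      refine ⟨{(R, L)}, ?_, ?_, ?_, ?_⟩
      · rw [card_singleton]; exact Nat.one_le_pow _ _ (by omega)
      · rw [card_singleton, if_neg (by omega)]
        have : 1 ≤ (2 * V.card + 1) ^ k := Nat.one_le_pow _ _ (by omega)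
        calc 1 * (2 * V.card + 1) ≤ (2 * V.card + 1) ^ k * (2 * V.card + 1) :=
              Nat.mul_le_mul_right _ this
          _ = (0 + 1) * (2 * V.card + 1) ^ (k + 1) + 0 := by ring
      · intro p hp
        rw [mem_singleton] at hp
        subst hp
        refine ⟨hR, hL, ?_⟩
        simp only
        omega
      · intro A B hA hB _
        exact ⟨(R, L), by simp, hA, hB⟩
    | succ m ihm =>
      intro R L hR hL hm he
      have hRL : R.card + L.card ≤ 2 * V.card := by
        have := card_le_card hR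
        have := card_le_card hL
        omega
      rcases Nat.lt_or_ge (R.card + L.card) (V.card + s) with hlt | hge
      · refine ⟨{(R, L)}, ?_, ?_, ?_, ?_⟩
        · rw [card_singleton]; exact Nat.one_le_pow _ _ (by omega)
        · rw [card_singleton, if_neg (by omega)]
          have : 1 ≤ (2 * V.card + 1) ^ k := Nat.one_le_pow _ _ (by omega)
          calc 1 * (2 * V.card + 1) ≤ (2 * V.card + 1) ^ k * (2 * V.card + 1) :=
                Nat.mul_le_mul_right _ this
            _ = 1 * (2 * V.card + 1) ^ (k + 1) := by ring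
            _ ≤ (m + 1 + 1) * (2 * V.card + 1) ^ (k + 1) := Nat.mul_le_mul_right _ (by omega)
        · intro p hp
          rw [mem_singleton] at hp
          subst hp
          refine ⟨hR, hL, ?_⟩
          simp only
          omega
        · intro A B hA hB _
          exact ⟨(R, L), by simp, hA, hB⟩
      · -- combination
        have comb : ∀ D₁ D₂ : Finset (Finset ℕ × Finset ℕ),
            D₁.card * (2 * V.card + 1) ≤ (m + 1) * (2 * V.card + 1) ^ (k + 1) +
              (if k + 1 = 0 then 2 * V.card + 1 else 0) →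
            D₂.card ≤ (2 * V.card + 1) ^ k →
            (D₁ ∪ D₂).card ≤ (2 * V.card + 1) ^ (k + 1) ∧
            (D₁ ∪ D₂).card * (2 * V.card + 1) ≤ (m + 1 + 1) * (2 * V.card + 1) ^ (k + 1) +
              (if k + 1 = 0 then 2 * V.card + 1 else 0) := by
          intro D₁ D₂ h1 h2
          rw [if_neg (by omega)] at h1 ⊢
          have h3 := card_union_le D₁ D₂
          have h4 : (D₁ ∪ D₂).card * (2 * V.card + 1) ≤
              (m + 1 + 1) * (2 * V.card + 1) ^ (k + 1) := by
            calc (D₁ ∪ D₂).card * (2 * V.card + 1) ≤ (D₁.card + D₂.card) * (2 * V.card + 1) :=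
                  Nat.mul_le_mul_right _ h3
              _ = D₁.card * (2 * V.card + 1) + D₂.card * (2 * V.card + 1) := by ring
              _ ≤ (m + 1) * (2 * V.card + 1) ^ (k + 1) +
                  (2 * V.card + 1) ^ k * (2 * V.card + 1) :=
                  Nat.add_le_add (by simpa using h1) (Nat.mul_le_mul_right _ h2)
              _ = (m + 1 + 1) * (2 * V.card + 1) ^ (k + 1) := by ring
          refine ⟨?_, by simpa using h4⟩
          have h5 : (D₁ ∪ D₂).card * (2 * V.card + 1) ≤
              (2 * V.card + 1) ^ (k + 1) * (2 * V.card + 1) := by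
            refine h4.trans ?_
            rw [mul_comm]
            exact Nat.mul_le_mul_left _ (by omega)
          exact Nat.le_of_mul_le_mul_right h5 (by omega)
        rcases hG R hR L hL hge with ⟨x, hx, hxo⟩ | ⟨y, hy, hyo⟩
        · -- vertex in `R`
          have hRc : (R.erase x).card + 1 = R.card := card_erase_add_one hx
          have he' : (m - V.card) * (4 * q - 1) ^ (k + 1) < s * (4 * q) ^ (k + 1) :=
            lt_of_le_of_lt (Nat.mul_le_mul_right _ (by omega)) he
          obtain ⟨D₁, _, hD1, hD1s, hD1c⟩ := ihm (R.erase x) L ((erase_subset _ _).trans hR) hL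
            (by omega) he'
          have hoc : (out G x ∩ L).card ≤ L.card := card_le_card inter_subset_right
          have hsd : (L \ out G x).card + (out G x ∩ L).card = L.card := by
            rw [inter_comm]; exact card_sdiff_add_card_inter _ _
          have hstep := cont_step q V.card s k (m + 1) (out G x ∩ L).card hq (by omega)
            (by omega) he (by omega) hs
          obtain ⟨D₂, hD2, _, hD2s, hD2c⟩ := ihk (m + 1 - (out G x ∩ L).card) R (L \ out G x)
            hR (sdiff_subset.trans hL) (by omega) hstep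
          obtain ⟨c1, c2⟩ := comb D₁ D₂ hD1 hD2
          refine ⟨D₁ ∪ D₂, c1, c2, ?_, ?_⟩
          · intro p hp
            rcases mem_union.1 hp with hp | hp
            · exact hD1s p hp
            · exact hD2s p hp
          · intro A B hA hB hI
            by_cases hxA : x ∈ A
            · obtain ⟨p, hp, h1, h2⟩ := hD2c A B hA (by
                intro z hz
                refine mem_sdiff.2 ⟨hB hz, ?_⟩
                rw [mem_out]
                exact hI x hxA z hz) hI
              exact ⟨p, mem_union_right _ hp, h1, h2⟩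
            · obtain ⟨p, hp, h1, h2⟩ := hD1c A B (by
                intro z hz
                refine mem_erase.2 ⟨?_, hA hz⟩
                rintro rfl
                exact hxA hz) hB hI
              exact ⟨p, mem_union_left _ hp, h1, h2⟩
        · -- vertex in `L`
          have hLc : (L.erase y).card + 1 = L.card := card_erase_add_one hy
          have he' : (m - V.card) * (4 * q - 1) ^ (k + 1) < s * (4 * q) ^ (k + 1) :=
            lt_of_le_of_lt (Nat.mul_le_mul_right _ (by omega)) he
          obtain ⟨D₁, _, hD1, hD1s, hD1c⟩ := ihm R (L.erase y) hR ((erase_subset _ _).trans hL)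
            (by omega) he'
          have hoc : (inn G y ∩ R).card ≤ R.card := card_le_card inter_subset_right
          have hsd : (R \ inn G y).card + (inn G y ∩ R).card = R.card := by
            rw [inter_comm]; exact card_sdiff_add_card_inter _ _
          have hstep := cont_step q V.card s k (m + 1) (inn G y ∩ R).card hq (by omega)
            (by omega) he (by omega) hs
          obtain ⟨D₂, hD2, _, hD2s, hD2c⟩ := ihk (m + 1 - (inn G y ∩ R).card) (R \ inn G y) L
            (sdiff_subset.trans hR) hL (by omega) hstep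
          obtain ⟨c1, c2⟩ := comb D₁ D₂ hD1 hD2
          refine ⟨D₁ ∪ D₂, c1, c2, ?_, ?_⟩
          · intro p hp
            rcases mem_union.1 hp with hp | hp
            · exact hD1s p hp
            · exact hD2s p hp
          · intro A B hA hB hI
            by_cases hyB : y ∈ B
            · obtain ⟨p, hp, h1, h2⟩ := hD2c A B (by
                intro z hz
                refine mem_sdiff.2 ⟨hA hz, ?_⟩
                rw [mem_inn]
                exact hI z hz y hyB) hB hI
              exact ⟨p, mem_union_right _ hp, h1, h2⟩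
            · obtain ⟨p, hp, h1, h2⟩ := hD1c A B hA (by
                intro z hz
                refine mem_erase.2 ⟨?_, hB hz⟩
                rintro rfl
                exact hyB hz) hI
              exact ⟨p, mem_union_left _ hp, h1, h2⟩

theorem cont (q s l : ℕ) (V : Finset ℕ) (G : DG) (hq : 1 ≤ q) (hs : 1 ≤ s)
    (hl : 2 * V.card + 1 ≤ 2 ^ l) (hG : Good q s V G) :
    ∃ D : Finset (Finset ℕ × Finset ℕ), D.card ≤ 2 ^ (4 * q * l * l) ∧
      (∀ p ∈ D, p.1 ⊆ V ∧ p.2 ⊆ V ∧ p.1.card + p.2.card ≤ V.card + s + 4 * q * l) ∧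
      ∀ A B, A ⊆ V → B ⊆ V → Ind G A B → ∃ p ∈ D, A ⊆ p.1 ∧ B ⊆ p.2 := by
  have h0 := cont_start (4 * q) l V.card s (by omega) hs hl
  have h1 : V.card + V.card - V.card = V.card := by omega
  obtain ⟨D, hD, _, hDs, hDc⟩ := cont_ind q s V G hq hs hG (4 * q * l) (V.card + V.card) V V
    (Subset.refl _) (Subset.refl _) rfl (by rw [h1]; exact h0)
  refine ⟨D, ?_, ?_, hDc⟩
  · calc D.card ≤ (2 * V.card + 1) ^ (4 * q * l) := hD
      _ ≤ (2 ^ l) ^ (4 * q * l) := Nat.pow_le_pow_left hl _
      _ = 2 ^ (4 * q * l * l) := by rw [← pow_mul]; congr 1; ring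
  · intro p hp
    obtain ⟨a1, a2, a3⟩ := hDs p hp
    exact ⟨a1, a2, by omega⟩

theorem card_ip_good (q s l : ℕ) (V : Finset ℕ) (G : DG) (hq : 1 ≤ q) (hs : 1 ≤ s)
    (hl : 2 * V.card + 1 ≤ 2 ^ l) (hG : Good q s V G) :
    (ip G V V).card ≤ 2 ^ (4 * q * l * l + (V.card + s + 4 * q * l)) := by
  classical
  obtain ⟨D, hD, hDs, hDc⟩ := cont q s l V G hq hs hl hG
  have hsub : ip G V V ⊆ D.biUnion (fun p => ip G p.1 p.2) := by
    rintro ⟨A, B⟩ hp
    obtain ⟨hA, hB, hI⟩ := mem_ip.1 hp
    obtain ⟨p, hpD, h1, h2⟩ := hDc A B hA hB hI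
    exact mem_biUnion.2 ⟨p, hpD, mem_ip.2 ⟨h1, h2, hI⟩⟩
  calc (ip G V V).card ≤ (D.biUnion (fun p => ip G p.1 p.2)).card := card_le_card hsub
    _ ≤ ∑ p ∈ D, (ip G p.1 p.2).card := card_biUnion_le
    _ ≤ ∑ p ∈ D, 2 ^ (V.card + s + 4 * q * l) := by
        refine sum_le_sum fun p hp => (card_ip_le G p.1 p.2).trans ?_
        exact Nat.pow_le_pow_right two_pos (hDs p hp).2.2
    _ = D.card * 2 ^ (V.card + s + 4 * q * l) := by rw [sum_const, smul_eq_mul]
    _ ≤ 2 ^ (4 * q * l * l) * 2 ^ (V.card + s + 4 * q * l) := Nat.mul_le_mul_right _ hD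
    _ = 2 ^ (4 * q * l * l + (V.card + s + 4 * q * l)) := by rw [← pow_add]

end Pool.H47.D
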