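import Pool.Agent.H47.C3.Greedy

set_option autoImplicit false

/-! Module GOODL: a digraph without a bad pair `(J, x)` is good outside any small set. -/

namespace Pool.H47.D

open Finset

lemma goodl_sdiff_Lp (G : DG) (V J L : Finset ℕ) (hL : L ⊆ V) (b t : ℕ)
    (h : ∀ x ∈ J, b * (out G x ∩ L).card ≤ t) : b * (L \ Lp G V J).card ≤ J.card * t := by
  have h1 : L \ Lp G V J ⊆ J.biUnion (fun x => out G x ∩ L) := by
    intro y hy
    rw [mem_sdiff] at hy
    have h2 : ¬ ∀ x ∈ J, (x, y) ∉ G := fun h3 => hy.2 (mem_filter.2 ⟨hL hy.1, h3⟩)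
    push Not at h2
    obtain ⟨x, hx, hxy⟩ := h2
    exact mem_biUnion.2 ⟨x, hx, mem_inter.2 ⟨mem_out.2 hxy, hy.1⟩⟩
  calc b * (L \ Lp G V J).card ≤ b * ∑ x ∈ J, (out G x ∩ L).card :=
        Nat.mul_le_mul_left _ ((card_le_card h1).trans card_biUnion_le)
    _ = ∑ x ∈ J, b * (out G x ∩ L).card := by rw [mul_sum]
    _ ≤ ∑ x ∈ J, t := sum_le_sum h
    _ = J.card * t := by rw [sum_const, smul_eq_mul]

lemma goodl_sdiff_Rp (G : DG) (V J R : Finset ℕ) (hR : R ⊆ V) (b t : ℕ)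
    (h : ∀ x ∈ J, b * (inn G x ∩ R).card ≤ t) : b * (R \ Rp G V J).card ≤ J.card * t := by
  have h1 : R \ Rp G V J ⊆ J.biUnion (fun x => inn G x ∩ R) := by
    intro y hy
    rw [mem_sdiff] at hy
    have h2 : ¬ ∀ x ∈ J, (y, x) ∉ G := fun h3 => hy.2 (mem_filter.2 ⟨hR hy.1, h3⟩)
    push Not at h2
    obtain ⟨x, hx, hxy⟩ := h2
    exact mem_biUnion.2 ⟨x, hx, mem_inter.2 ⟨mem_inn.2 hxy, hy.1⟩⟩
  calc b * (R \ Rp G V J).card ≤ b * ∑ x ∈ J, (inn G x ∩ R).card :=
        Nat.mul_le_mul_left _ ((card_le_card h1).trans card_biUnion_le)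
    _ = ∑ x ∈ J, b * (inn G x ∩ R).card := by rw [mul_sum]
    _ ≤ ∑ x ∈ J, t := sum_le_sum h
    _ = J.card * t := by rw [sum_const, smul_eq_mul]

lemma goodl_inter_le (O P L : Finset ℕ) :
    (O ∩ P).card ≤ (O ∩ L).card + (O ∩ (P \ L)).card := by
  refine le_trans (card_le_card ?_) (card_union_le _ _)
  intro y hy
  rw [mem_inter] at hy
  by_cases h : y ∈ L
  · exact mem_union_left _ (mem_inter.2 ⟨hy.1, h⟩)
  · exact mem_union_right _ (mem_inter.2 ⟨hy.1, mem_sdiff.2 ⟨hy.2, h⟩⟩)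

lemma goodl_card (P L : Finset ℕ) : P.card + (L \ P).card = L.card + (P \ L).card := by
  have h1 := card_sdiff_add_card_inter L P
  have h2 := card_sdiff_add_card_inter P L
  rw [inter_comm] at h2
  omega

theorem good_of_not_bad (l : ℕ) (V : Finset ℕ) (G : DG) (hl : 2 * V.card + 1 ≤ 2 ^ l)
    (hl1 : 1 ≤ l) (hB : ¬ Bad1 l V G) (Z : Finset ℕ) (hZ : Z ⊆ V) :
    Good (q l) (4 * (sg l + Z.card + q l)) (V \ Z) G := by
  intro R hR L hL hRL
  by_contra hcon
  push Not at hcon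
  obtain ⟨hc1, hc2⟩ := hcon
  apply hB
  have hRV : R ⊆ V := hR.trans sdiff_subset
  have hLV : L ⊆ V := hL.trans sdiff_subset
  have hVZ : (V \ Z).card + Z.card = V.card := by
    rw [card_sdiff_of_subset hZ]
    have := card_le_card hZ
    omega
  obtain ⟨t, ht⟩ : ∃ t, R.card + L.card = (V \ Z).card + t :=
    ⟨R.card + L.card - (V \ Z).card, by omega⟩
  have ht4 : 4 * (sg l + Z.card + q l) ≤ t := by omega
  have hsg : 10 ≤ sg l := by unfold sg; omega
  have hq1 : 1 ≤ q l := by unfold q; nlinarith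
  have hI : t ≤ (R ∩ L).card := by
    have h1 := card_union_add_card_inter R L
    have h2 : (R ∪ L).card ≤ (V \ Z).card := card_le_card (union_subset hR hL)
    omega
  obtain ⟨J, hJ, hJq, hJg⟩ := greedy l V G hl R L hRV hLV
  have hJR : J ⊆ R := hJ.trans inter_subset_left
  have hJL : J ⊆ L := hJ.trans inter_subset_right
  have hd1 : 4 * q l * (L \ Lp G V J).card ≤ J.card * t := by
    refine goodl_sdiff_Lp G V J L hLV _ _ fun x hx => ?_
    have := hc1 x (hJR hx)
    omega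
  have hd2 : 4 * q l * (R \ Rp G V J).card ≤ J.card * t := by
    refine goodl_sdiff_Rp G V J R hRV _ _ fun x hx => ?_
    have := hc2 x (hJL hx)
    omega
  have hJt : J.card * t ≤ q l * t := Nat.mul_le_mul_right _ hJq
  have hd1' : 4 * (L \ Lp G V J).card ≤ t := by
    have : q l * (4 * (L \ Lp G V J).card) ≤ q l * t := by
      calc q l * (4 * (L \ Lp G V J).card) = 4 * q l * (L \ Lp G V J).card := by ring
        _ ≤ _ := hd1.trans hJt
    exact Nat.le_of_mul_le_mul_left this hq1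
  have hd2' : 4 * (R \ Rp G V J).card ≤ t := by
    have : q l * (4 * (R \ Rp G V J).card) ≤ q l * t := by
      calc q l * (4 * (R \ Rp G V J).card) = 4 * q l * (R \ Rp G V J).card := by ring
        _ ≤ _ := hd2.trans hJt
    exact Nat.le_of_mul_le_mul_left this hq1
  have hP1 := goodl_card (Lp G V J) L
  have hP2 := goodl_card (Rp G V J) R
  obtain ⟨x, hx, hxJ⟩ : ∃ x ∈ R ∩ L, x ∉ J := by
    by_contra hno
    push Not at hno
    have : (R ∩ L).card ≤ J.card := card_le_card hno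
    omega
  have hx1 := hc1 x (mem_inter.1 hx).1
  have hx2 := hc2 x (mem_inter.1 hx).2
  have hx3 := hJg x hx
  have i1 := goodl_inter_le (out G x) (Lp G V J) L
  have i2 := goodl_inter_le (inn G x) (Rp G V J) R
  set a1 := (out G x ∩ L).card
  set a2 := (inn G x ∩ R).card
  set b1 := (out G x ∩ (Lp G V J \ L)).card
  set b2 := (inn G x ∩ (Rp G V J \ R)).card
  have ha1 : 4 * q l * a1 ≤ t := by omega
  have ha2 : 4 * q l * a2 ≤ t := by omega
  have ha : 4 * (8 * l * (a1 + a2)) ≤ t := by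
    have h1 : (2 * (l * l)) * (4 * (8 * l * (a1 + a2))) = l * (4 * q l * a1 + 4 * q l * a2) := by
      unfold q; ring
    have h2 : l * (4 * q l * a1 + 4 * q l * a2) ≤ l * (2 * t) :=
      Nat.mul_le_mul_left _ (by omega)
    have h3 : l * (2 * t) ≤ (2 * (l * l)) * t := by
      calc l * (2 * t) = 1 * (2 * l * t) := by ring
        _ ≤ l * (2 * l * t) := Nat.mul_le_mul_right _ hl1
        _ = (2 * (l * l)) * t := by ring
    exact Nat.le_of_mul_le_mul_left (h1.le.trans (h2.trans h3)) (by positivity)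
  have hb : 16 * l * (b1 + b2) = 2 * (8 * l * (b1 + b2)) := by ring
  rw [hb] at hx3
  have hsum : 8 * l * ((out G x ∩ Lp G V J).card + (inn G x ∩ Rp G V J).card) ≤
      8 * l * (a1 + a2) + 8 * l * (b1 + b2) := by
    rw [← mul_add]
    exact Nat.mul_le_mul_left _ (by omega)
  refine ⟨J, hJR.trans hRV, hJq, x, hRV (mem_inter.1 hx).1, hxJ, ?_, ?_⟩
  · omega
  · omega

end Pool.H47.D
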