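import Pool.Agent.H47.C3.Defs
import Pool.Agent.H47.C3.Cont
import Pool.Agent.H47.C3.Goodl
import Pool.Agent.H47.C3.Bfour

set_option autoImplicit false

/-! Module BTWO: the number of digraphs with a vertex all of whose containers are small. -/

namespace Pool.H47.D

open Finset

lemma btwo_ip_ext {H : DG} {V : Finset ℕ} {x : ℕ} {A B R L : Finset ℕ} (hR : R ⊆ V.erase x)
    (hL : L ⊆ V.erase x) : ip (Pool.H47.D.ext H x A B) R L = ip H R L := by
  ext ⟨C, D⟩
  rw [mem_ip, mem_ip]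
  refine and_congr_right fun hC => and_congr_right fun hD => ?_
  constructor
  · intro h u hu v hv huv
    exact h u hu v hv ((bfour_mem_ext (mem_erase.1 (hR (hC hu))).1
      (mem_erase.1 (hL (hD hv))).1).2 huv)
  · intro h u hu v hv huv
    exact h u hu v hv ((bfour_mem_ext (mem_erase.1 (hR (hC hu))).1
      (mem_erase.1 (hL (hD hv))).1).1 huv)

lemma btwo_good {H : DG} {V : Finset ℕ} {x q s : ℕ} {A B : Finset ℕ}
    (h : Good q s (V.erase x) (Pool.H47.D.ext H x A B)) : Good q s (V.erase x) H := by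
  intro R hR L hL hRL
  rcases h R hR L hL hRL with ⟨y, hy, h1⟩ | ⟨y, hy, h1⟩
  · left
    refine ⟨y, hy, ?_⟩
    have : out (Pool.H47.D.ext H x A B) y ∩ L = out H y ∩ L := by
      ext z
      rw [mem_inter, mem_inter, mem_out, mem_out]
      refine and_congr_left fun hz => ?_
      exact bfour_mem_ext (mem_erase.1 (hR hy)).1 (mem_erase.1 (hL hz)).1
    rwa [this] at h1
  · right
    refine ⟨y, hy, ?_⟩
    have : inn (Pool.H47.D.ext H x A B) y ∩ R = inn H y ∩ R := by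
      ext z
      rw [mem_inter, mem_inter, mem_inn, mem_inn]
      refine and_congr_left fun hz => ?_
      exact bfour_mem_ext (mem_erase.1 (hR hz)).1 (mem_erase.1 (hL hy)).1
    rwa [this] at h1

open Classical in
lemma btwo_fixed (l : ℕ) (V : Finset ℕ) (hl : 2 * V.card + 1 ≤ 2 ^ l) (hl1 : 1 ≤ l) (v : ℕ)
    (hv : v ∈ V) :
    ((cls V).filter (fun G => ¬ Bad1 l V G ∧ ∀ R ⊆ V.erase v, ∀ L ⊆ V.erase v,
      R.card + L.card ≤ V.card + s1 l → out G v ⊆ R → inn G v ⊆ L →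
      (ip G R L).card * 2 ^ tt l < 2 ^ V.card)).card * 2 ^ (l + 6) ≤ 2 * a V.card := by
  set E := (cls V).filter (fun G => ¬ Bad1 l V G ∧ ∀ R ⊆ V.erase v, ∀ L ⊆ V.erase v,
      R.card + L.card ≤ V.card + s1 l → out G v ⊆ R → inn G v ⊆ L →
      (ip G R L).card * 2 ^ tt l < 2 ^ V.card) with hE
  have hcard : (V.erase v).card ≤ V.card := card_le_card (erase_subset _ _)
  have hq1 : 1 ≤ q l := by unfold q; nlinarith
  have key : E.card ≤ ∑ H ∈ cls (V.erase v), 2 ^ V.card / 2 ^ (l + 6) := by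
    refine card_le_sum V v E (filter_subset _ _) (fun _ => 2 ^ V.card / 2 ^ (l + 6)) ?_
    intro H hH
    set F := (ip H (V.erase v) (V.erase v)).filter
      (fun p => Pool.H47.D.ext H v p.1 p.2 ∈ E) with hF
    rcases F.eq_empty_or_nonempty with h0 | ⟨⟨A, B⟩, hAB⟩
    · rw [h0]; simp
    · have h1 := (mem_filter.1 (mem_filter.1 hAB).2).2.1
      have h2 := good_of_not_bad l V _ hl hl1 h1 {v} (singleton_subset_iff.2 hv)
      rw [card_singleton, sdiff_singleton_eq_erase] at h2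
      have h3 := btwo_good h2
      obtain ⟨D, hD, hDs, hDc⟩ := cont (q l) (4 * (sg l + 1 + q l)) l (V.erase v) H hq1
        (by omega) (by omega) h3
      rw [Nat.le_div_iff_mul_le (by positivity)]
      set D' := D.filter (fun d => (ip H d.1 d.2).card * 2 ^ tt l < 2 ^ V.card) with hD'
      have hsub : F ⊆ D'.biUnion (fun d => ip H d.1 d.2) := by
        rintro ⟨C, K⟩ hCK
        obtain ⟨hCK1, hCK2⟩ := mem_filter.1 hCK
        obtain ⟨hC, hK, hI⟩ := mem_ip.1 hCK1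
        obtain ⟨d, hdD, hd1, hd2⟩ := hDc C K hC hK hI
        have h4 := (mem_filter.1 hCK2).2.2
        obtain ⟨hs1, hs2, hs3⟩ := hDs d hdD
        have h5 := h4 d.1 hs1 d.2 hs2 (by unfold s1; omega)
          (by rw [out_ext hH hK]; exact hd1) (by rw [inn_ext hH hC]; exact hd2)
        rw [btwo_ip_ext hs1 hs2] at h5
        exact mem_biUnion.2 ⟨d, mem_filter.2 ⟨hdD, h5⟩, mem_ip.2 ⟨hd1, hd2, hI⟩⟩
      have h6 : F.card * 2 ^ tt l ≤ 2 ^ (4 * q l * l * l) * 2 ^ V.card := by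
        calc F.card * 2 ^ tt l ≤ (∑ d ∈ D', (ip H d.1 d.2).card) * 2 ^ tt l :=
              Nat.mul_le_mul_right _ ((card_le_card hsub).trans card_biUnion_le)
          _ = ∑ d ∈ D', (ip H d.1 d.2).card * 2 ^ tt l := by rw [sum_mul]
          _ ≤ ∑ _d ∈ D', 2 ^ V.card := sum_le_sum fun d hd => (mem_filter.1 hd).2.le
          _ = D'.card * 2 ^ V.card := by rw [sum_const, smul_eq_mul]
          _ ≤ 2 ^ (4 * q l * l * l) * 2 ^ V.card :=
              Nat.mul_le_mul_right _ ((card_filter_le _ _).trans hD)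
      have h7 : 2 ^ tt l = 2 ^ (4 * q l * l * l) * 2 ^ (l + 6) := by
        unfold tt
        rw [add_assoc, pow_add]
      rw [h7] at h6
      have hpos : 0 < 2 ^ (4 * q l * l * l) := by positivity
      refine Nat.le_of_mul_le_mul_left ?_ hpos
      calc 2 ^ (4 * q l * l * l) * (F.card * 2 ^ (l + 6))
          = F.card * (2 ^ (4 * q l * l * l) * 2 ^ (l + 6)) := by ring
        _ ≤ _ := h6
  obtain ⟨n, hn⟩ : ∃ n, V.card = n + 1 := ⟨V.card - 1, by
    have := card_pos.2 ⟨v, hv⟩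
    omega⟩
  have hc : (cls (V.erase v)).card = a n := by
    rw [card_cls, card_erase_of_mem hv, hn, Nat.add_sub_cancel]
  rw [sum_const, smul_eq_mul, hc] at key
  calc E.card * 2 ^ (l + 6) ≤ (a n * (2 ^ V.card / 2 ^ (l + 6))) * 2 ^ (l + 6) :=
        Nat.mul_le_mul_right _ key
    _ = a n * (2 ^ V.card / 2 ^ (l + 6) * 2 ^ (l + 6)) := by ring
    _ ≤ a n * 2 ^ V.card := Nat.mul_le_mul_left _ (Nat.div_mul_le_self _ _)
    _ = 2 * (2 ^ n * a n) := by rw [hn]; ring
    _ ≤ 2 * a (n + 1) := Nat.mul_le_mul_left _ (a_succ_ge n)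
    _ = 2 * a V.card := by rw [hn]

open Classical in
theorem bad2_count (l : ℕ) (V : Finset ℕ) (hl : 2 * V.card + 1 ≤ 2 ^ l) (hl1 : 1 ≤ l) :
    16 * ((cls V).filter (fun G => ¬ Bad1 l V G ∧ Bad2 l V G)).card ≤ a V.card := by
  set Ev : ℕ → Finset DG := fun v =>
    (cls V).filter (fun G => ¬ Bad1 l V G ∧ ∀ R ⊆ V.erase v, ∀ L ⊆ V.erase v,
      R.card + L.card ≤ V.card + s1 l → out G v ⊆ R → inn G v ⊆ L →
      (ip G R L).card * 2 ^ tt l < 2 ^ V.card) with hEv
  have hsub : (cls V).filter (fun G => ¬ Bad1 l V G ∧ Bad2 l V G) ⊆ V.biUnion Ev := by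
    intro G hG
    obtain ⟨hG1, hG2, v, hv, h⟩ := mem_filter.1 hG
    exact mem_biUnion.2 ⟨v, hv, mem_filter.2 ⟨hG1, hG2, h⟩⟩
  have hmain : ((cls V).filter (fun G => ¬ Bad1 l V G ∧ Bad2 l V G)).card * 2 ^ (l + 6) ≤
      2 ^ l * a V.card := by
    calc ((cls V).filter (fun G => ¬ Bad1 l V G ∧ Bad2 l V G)).card * 2 ^ (l + 6)
        ≤ (∑ v ∈ V, (Ev v).card) * 2 ^ (l + 6) :=
          Nat.mul_le_mul_right _ ((card_le_card hsub).trans card_biUnion_le)
      _ = ∑ v ∈ V, (Ev v).card * 2 ^ (l + 6) := by rw [sum_mul]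
      _ ≤ ∑ _v ∈ V, 2 * a V.card := sum_le_sum fun v hv => btwo_fixed l V hl hl1 v hv
      _ = (V.card * 2) * a V.card := by rw [sum_const, smul_eq_mul]; ring
      _ ≤ 2 ^ l * a V.card := Nat.mul_le_mul_right _ (by omega)
  have ht : 2 ^ (l + 6) = 2 ^ l * 64 := by rw [pow_add]; norm_num
  rw [ht] at hmain
  have hpos : 0 < 2 ^ l := by positivity
  have : ((cls V).filter (fun G => ¬ Bad1 l V G ∧ Bad2 l V G)).card * 64 ≤ a V.card := by
    refine Nat.le_of_mul_le_mul_left ?_ hpos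
    calc 2 ^ l * (((cls V).filter (fun G => ¬ Bad1 l V G ∧ Bad2 l V G)).card * 64)
        = ((cls V).filter (fun G => ¬ Bad1 l V G ∧ Bad2 l V G)).card * (2 ^ l * 64) := by ring
      _ ≤ _ := hmain
  omega

end Pool.H47.D
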