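import Pool.Agent.H47.C3.Defs

set_option autoImplicit false

/-! Modules MATCH and PAIR: maximal matchings and the pair of a vertex. -/

namespace Pool.H47.D

open Finset

open Classical in
theorem match_step (H : DG) (P Q : Finset ℕ) (x y : ℕ) (hxy : (x, y) ∈ H) :
    (ip H P Q).card ≤ 3 * (ip H (P.erase x) (Q.erase y)).card := by
  set T : Finset (Bool × Bool) := {(false, false), (false, true), (true, false)} with hT
  have hT3 : T.card = 3 := by decide
  have h1 : (ip H P Q).card ≤ (ip H (P.erase x) (Q.erase y) ×ˢ T).card := by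
    refine card_le_card_of_injOn
      (fun p => ((p.1.erase x, p.2.erase y), (decide (x ∈ p.1), decide (y ∈ p.2)))) ?_ ?_
    · rintro ⟨A, B⟩ hAB
      obtain ⟨hA, hB, hI⟩ := mem_ip.1 hAB
      rw [mem_coe, mem_product]
      constructor
      · exact mem_ip.2 ⟨erase_subset_erase x hA, erase_subset_erase y hB,
          hI.mono (erase_subset _ _) (erase_subset _ _)⟩
      · by_cases hx : x ∈ A
        · have hy : y ∉ B := fun hy => hI x hx y hy hxy
          simp [hT, hx, hy]
        · by_cases hy : y ∈ B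
          · simp [hT, hx, hy]
          · simp [hT, hx, hy]
    · rintro ⟨A, B⟩ _ ⟨A', B'⟩ _ h
      simp only [Prod.mk.injEq] at h
      obtain ⟨⟨h1, h2⟩, h3, h4⟩ := h
      have h3' : x ∈ A ↔ x ∈ A' := by simpa using h3
      have h4' : y ∈ B ↔ y ∈ B' := by simpa using h4
      have e1 : A = A' := by
        ext z
        by_cases hz : z = x
        · rw [hz]; exact h3'
        · have := Finset.ext_iff.1 h1 z
          simpa [hz] using this
      have e2 : B = B' := by
        ext z
        by_cases hz : z = y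
        · rw [hz]; exact h4'
        · have := Finset.ext_iff.1 h2 z
          simpa [hz] using this
      rw [e1, e2]
  rw [card_product, hT3] at h1
  omega

theorem matching (H : DG) (P Q : Finset ℕ) : ∃ (μ : ℕ) (R L : Finset ℕ), R ⊆ P ∧ L ⊆ Q ∧
    Ind H R L ∧ (P \ R).card = μ ∧ (Q \ L).card = μ ∧
    4 ^ μ * (ip H P Q).card ≤ 3 ^ μ * 2 ^ (P.card + Q.card) := by
  induction hn : P.card generalizing P Q with
  | zero =>
    have hP : P = ∅ := card_eq_zero.1 hn
    refine ⟨0, P, Q, Subset.refl _, Subset.refl _, ?_, by simp, by simp, ?_⟩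
    · rw [hP]
      intro x hx
      simp at hx
    · rw [pow_zero, pow_zero, one_mul, one_mul, ← hn]
      exact card_ip_le H P Q
  | succ n ih =>
    by_cases hI : Ind H P Q
    · refine ⟨0, P, Q, Subset.refl _, Subset.refl _, hI, by simp, by simp, ?_⟩
      rw [pow_zero, pow_zero, one_mul, one_mul, ← hn]
      exact card_ip_le H P Q
    · unfold Ind at hI
      push Not at hI
      obtain ⟨x, hx, y, hy, hxy⟩ := hI
      have hcP : (P.erase x).card = n := by rw [card_erase_of_mem hx, hn]; rfl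
      have hcQ : (Q.erase y).card + 1 = Q.card := card_erase_add_one hy
      obtain ⟨μ, R, L, hR, hL, hRL, hRc, hLc, hle⟩ := ih (P.erase x) (Q.erase y) hcP
      refine ⟨μ + 1, R, L, hR.trans (erase_subset _ _), hL.trans (erase_subset _ _), hRL, ?_, ?_, ?_⟩
      · have h1 : P \ R = insert x (P.erase x \ R) := by
          ext z
          simp only [mem_sdiff, mem_insert, mem_erase]
          constructor
          · rintro ⟨h1, h2⟩
            by_cases hz : z = x
            · exact Or.inl hz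
            · exact Or.inr ⟨⟨hz, h1⟩, h2⟩
          · rintro (rfl | ⟨⟨_, h1⟩, h2⟩)
            · exact ⟨hx, fun h => (mem_erase.1 (hR h)).1 rfl⟩
            · exact ⟨h1, h2⟩
        rw [h1, card_insert_of_notMem (by simp), hRc]
      · have h1 : Q \ L = insert y (Q.erase y \ L) := by
          ext z
          simp only [mem_sdiff, mem_insert, mem_erase]
          constructor
          · rintro ⟨h1, h2⟩
            by_cases hz : z = y
            · exact Or.inl hz
            · exact Or.inr ⟨⟨hz, h1⟩, h2⟩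
          · rintro (rfl | ⟨⟨_, h1⟩, h2⟩)
            · exact ⟨hy, fun h => (mem_erase.1 (hL h)).1 rfl⟩
            · exact ⟨h1, h2⟩
        rw [h1, card_insert_of_notMem (by simp), hLc]
      · have h2 := match_step H P Q x y hxy
        calc 4 ^ (μ + 1) * (ip H P Q).card
            ≤ 4 ^ (μ + 1) * (3 * (ip H (P.erase x) (Q.erase y)).card) :=
              Nat.mul_le_mul_left _ h2
          _ = 12 * (4 ^ μ * (ip H (P.erase x) (Q.erase y)).card) := by ring
          _ ≤ 12 * (3 ^ μ * 2 ^ (n + (Q.erase y).card)) := Nat.mul_le_mul_left _ hle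
          _ = 3 ^ (μ + 1) * 2 ^ (n + 1 + Q.card) := by rw [← hcQ]; ring

theorem pair_bound {μ k : ℕ} (h : 4 ^ μ ≤ 3 ^ μ * 2 ^ k) : μ ≤ 3 * k := by
  by_contra hcon
  push Not at hcon
  obtain ⟨j, rfl⟩ : ∃ j, μ = 3 * k + 1 + j := ⟨μ - (3 * k + 1), by omega⟩
  have h1 : (3 : ℕ) ^ (3 * k) * 2 ^ k ≤ 4 ^ (3 * k) := by
    rw [pow_mul, pow_mul, ← mul_pow]
    exact Nat.pow_le_pow_left (by norm_num) k
  have h2 : (3 : ℕ) ^ (1 + j) < 4 ^ (1 + j) := Nat.pow_lt_pow_left (by norm_num) (by omega)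
  have h3 : (3 : ℕ) ^ (3 * k + 1 + j) * 2 ^ k < 4 ^ (3 * k + 1 + j) := by
    calc (3 : ℕ) ^ (3 * k + 1 + j) * 2 ^ k = (3 ^ (3 * k) * 2 ^ k) * 3 ^ (1 + j) := by ring
      _ ≤ 4 ^ (3 * k) * 3 ^ (1 + j) := Nat.mul_le_mul_right _ h1
      _ < 4 ^ (3 * k) * 4 ^ (1 + j) := Nat.mul_lt_mul_of_pos_left h2 (by positivity)
      _ = 4 ^ (3 * k + 1 + j) := by ring
  omega

theorem pair (l : ℕ) (V : Finset ℕ) (G : DG) (hB : ¬ Bad2 l V G) (v : ℕ) (hv : v ∈ V) :
    ∃ R ⊆ V.erase v, ∃ L ⊆ V.erase v, Ind G R L ∧ V.card ≤ R.card + L.card + La l ∧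
      R.card + L.card ≤ V.card + La l ∧ (out G v \ R).card ≤ La l ∧ (inn G v \ L).card ≤ La l := by
  unfold Bad2 at hB
  push Not at hB
  obtain ⟨R, hR, L, hL, hRL, hout, hinn, hip⟩ := hB v hv
  obtain ⟨μ, R₀, L₀, hR₀, hL₀, hI, hRc, hLc, hle⟩ := matching G R L
  have hk : μ ≤ 3 * (s1 l + tt l) := by
    apply pair_bound
    have h1 : 4 ^ μ * 2 ^ V.card ≤ (3 ^ μ * 2 ^ (s1 l + tt l)) * 2 ^ V.card := by
      calc 4 ^ μ * 2 ^ V.card ≤ 4 ^ μ * ((ip G R L).card * 2 ^ tt l) :=
            Nat.mul_le_mul_left _ hip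
        _ = (4 ^ μ * (ip G R L).card) * 2 ^ tt l := by ring
        _ ≤ (3 ^ μ * 2 ^ (R.card + L.card)) * 2 ^ tt l := Nat.mul_le_mul_right _ hle
        _ ≤ (3 ^ μ * 2 ^ (V.card + s1 l)) * 2 ^ tt l :=
            Nat.mul_le_mul_right _ (Nat.mul_le_mul_left _ (Nat.pow_le_pow_right two_pos hRL))
        _ = (3 ^ μ * 2 ^ (s1 l + tt l)) * 2 ^ V.card := by ring
    exact Nat.le_of_mul_le_mul_right h1 (by positivity)
  have hV : V.card ≤ R.card + L.card + tt l := by
    have h1 : 2 ^ V.card ≤ 2 ^ (R.card + L.card + tt l) := by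
      rw [pow_add]
      exact hip.trans (Nat.mul_le_mul_right _ (card_ip_le G R L))
    exact (Nat.pow_le_pow_iff_right (by norm_num)).1 h1
  have e1 : R₀.card + μ = R.card := by
    rw [← hRc, card_sdiff_of_subset hR₀]
    have := card_le_card hR₀
    omega
  have e2 : L₀.card + μ = L.card := by
    rw [← hLc, card_sdiff_of_subset hL₀]
    have := card_le_card hL₀
    omega
  refine ⟨R₀, hR₀.trans hR, L₀, hL₀.trans hL, hI, ?_, ?_, ?_, ?_⟩
  · unfold La; omega
  · unfold La; omega
  · have h1 : (out G v \ R₀).card ≤ (R \ R₀).card :=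
      card_le_card (sdiff_subset_sdiff hout (Subset.refl _))
    rw [hRc] at h1
    unfold La; omega
  · have h1 : (inn G v \ L₀).card ≤ (L \ L₀).card :=
      card_le_card (sdiff_subset_sdiff hinn (Subset.refl _))
    rw [hLc] at h1
    unfold La; omega

end Pool.H47.D
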