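import Pool.Agent.H47.C3.Greedy
import Pool.Agent.H47.C3.Match

set_option autoImplicit false

/-! Module CASES: a fat independent pair gives, up to few vertices, a cut or a giant bipartite
cluster. -/

namespace Pool.H47.D

open Finset

/-- number of small subsets of a set -/
lemma cases_small (S : Finset ℕ) (m : ℕ) :
    (S.powerset.filter (fun T => T.card ≤ m)).card ≤ (S.card + 1) ^ m := by
  classical
  induction m with
  | zero =>
    have : S.powerset.filter (fun T => T.card ≤ 0) ⊆ {∅} := by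
      intro T hT
      rw [mem_filter] at hT
      rw [mem_singleton]
      exact card_eq_zero.1 (Nat.le_zero.1 hT.2)
    simpa using card_le_card this
  | succ m ih =>
    -- the map (T, none) to T, (T, some x) to insert x T is onto
    have h : S.powerset.filter (fun T => T.card ≤ m + 1) ⊆
        ((S.powerset.filter (fun T => T.card ≤ m)) ×ˢ (insertNone S)).image
          (fun p => p.2.elim p.1 (fun x => insert x p.1)) := by
      intro T hT
      rw [mem_filter, mem_powerset] at hT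
      obtain ⟨hTS, hTc⟩ := hT
      rw [mem_image]
      by_cases h0 : T.card ≤ m
      · refine ⟨(T, none), ?_, rfl⟩
        rw [mem_product, mem_filter, mem_powerset]
        exact ⟨⟨hTS, h0⟩, by simp⟩
      · have hne : T.Nonempty := by
          rw [← card_pos]; omega
        obtain ⟨x, hx⟩ := hne
        refine ⟨(T.erase x, some x), ?_, ?_⟩
        · rw [mem_product, mem_filter, mem_powerset]
          refine ⟨⟨(erase_subset _ _).trans hTS, ?_⟩, ?_⟩
          · rw [card_erase_of_mem hx]; omega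
          · simpa using hTS hx
        · simpa using insert_erase hx
    calc _ ≤ _ := card_le_card h
      _ ≤ _ := card_image_le
      _ = (S.powerset.filter (fun T => T.card ≤ m)).card * (S.card + 1) := by
          rw [card_product, card_insertNone]
      _ ≤ (S.card + 1) ^ m * (S.card + 1) := Nat.mul_le_mul_right _ ih
      _ = _ := by rw [pow_succ]

/-- number of pairs of subsets of total size at most `m` -/
lemma cases_small_pairs (S T : Finset ℕ) (m : ℕ) :
    ((S.powerset ×ˢ T.powerset).filter (fun p => p.1.card + p.2.card ≤ m)).card ≤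
      (S.card + T.card + 1) ^ m := by
  classical
  let W : Finset ℕ := S.image (fun i => 2 * i) ∪ T.image (fun i => 2 * i + 1)
  have hW : W.card ≤ S.card + T.card :=
    (card_union_le _ _).trans (Nat.add_le_add card_image_le card_image_le)
  have h1 : ((S.powerset ×ˢ T.powerset).filter (fun p => p.1.card + p.2.card ≤ m)).card ≤
      (W.powerset.filter (fun U => U.card ≤ m)).card := by
    refine card_le_card_of_injOn
      (fun p => p.1.image (fun i => 2 * i) ∪ p.2.image (fun i => 2 * i + 1)) ?_ ?_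
    · intro p hp
      obtain ⟨hp1, hp2⟩ := mem_filter.1 hp
      obtain ⟨ha, hb⟩ := mem_product.1 hp1
      rw [mem_powerset] at ha hb
      refine mem_filter.2 ⟨mem_powerset.2 ?_, ?_⟩
      · exact union_subset_union (image_subset_image ha) (image_subset_image hb)
      · exact (card_union_le _ _).trans
          ((Nat.add_le_add card_image_le card_image_le).trans hp2)
    · intro p hp p' hp' h
      simp only at h
      have e1 : ∀ i, i ∈ p.1 ↔ i ∈ p'.1 := by
        intro i
        have := congrArg (fun X => 2 * i ∈ X) h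
        simp only [mem_union, mem_image, eq_iff_iff] at this
        constructor
        · intro hi
          rcases this.1 (Or.inl ⟨i, hi, rfl⟩) with ⟨j, hj, e⟩ | ⟨j, hj, e⟩
          · have : j = i := by omega
            rwa [← this]
          · omega
        · intro hi
          rcases this.2 (Or.inl ⟨i, hi, rfl⟩) with ⟨j, hj, e⟩ | ⟨j, hj, e⟩
          · have : j = i := by omega
            rwa [← this]
          · omega
      have e2 : ∀ i, i ∈ p.2 ↔ i ∈ p'.2 := by
        intro i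
        have := congrArg (fun X => 2 * i + 1 ∈ X) h
        simp only [mem_union, mem_image, eq_iff_iff] at this
        constructor
        · intro hi
          rcases this.1 (Or.inr ⟨i, hi, rfl⟩) with ⟨j, hj, e⟩ | ⟨j, hj, e⟩
          · omega
          · have : j = i := by omega
            rwa [← this]
        · intro hi
          rcases this.2 (Or.inr ⟨i, hi, rfl⟩) with ⟨j, hj, e⟩ | ⟨j, hj, e⟩
          · omega
          · have : j = i := by omega
            rwa [← this]
      exact Prod.ext (Finset.ext e1) (Finset.ext e2)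
  exact (h1.trans (cases_small W m)).trans (Nat.pow_le_pow_left (by omega) m)

lemma cases_ipa_le (G : DG) (S P Q : Finset ℕ) (m : ℕ) :
    (ipa G S P Q m).card ≤ (2 * S.card + 1) ^ m * (ip G (S \ P) (S \ Q)).card := by
  classical
  have h : (ipa G S P Q m).card ≤
      (((S.powerset ×ˢ S.powerset).filter (fun p => p.1.card + p.2.card ≤ m)) ×ˢ
        (ip G (S \ P) (S \ Q))).card := by
    refine card_le_card_of_injOn
      (fun p => ((p.1 ∩ P, p.2 ∩ Q), (p.1 \ P, p.2 \ Q))) ?_ ?_
    · rintro ⟨A, B⟩ hp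
      unfold ipa at hp
      obtain ⟨hp1, hp2⟩ := mem_filter.1 hp
      obtain ⟨hA, hB, hI⟩ := mem_ip.1 hp1
      refine mem_product.2 ⟨mem_filter.2 ⟨mem_product.2 ⟨mem_powerset.2 ?_,
        mem_powerset.2 ?_⟩, hp2⟩, mem_ip.2 ⟨?_, ?_, ?_⟩⟩
      · exact inter_subset_left.trans hA
      · exact inter_subset_left.trans hB
      · exact sdiff_subset_sdiff hA (Subset.refl _)
      · exact sdiff_subset_sdiff hB (Subset.refl _)
      · exact hI.mono sdiff_subset sdiff_subset
    · rintro ⟨A, B⟩ _ ⟨A', B'⟩ _ h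
      simp only [Prod.mk.injEq] at h
      obtain ⟨⟨h1, h2⟩, h3, h4⟩ := h
      have hA : A = A' := by
        rw [← sdiff_union_inter A P, ← sdiff_union_inter A' P, h1, h3]
      have hB : B = B' := by
        rw [← sdiff_union_inter B Q, ← sdiff_union_inter B' Q, h2, h4]
      rw [hA, hB]
  refine h.trans ?_
  rw [card_product]
  refine Nat.mul_le_mul_right _ ?_
  have := cases_small_pairs S S m
  rwa [← two_mul] at this

/-- from the entropy inequality to a bound for the matching -/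
lemma cases_mu (μ K n X : ℕ) (hX : 2 ^ n ≤ X * 2 ^ K) (h : 4 ^ μ * X ≤ 3 ^ μ * 2 ^ n) :
    μ ≤ 3 * K := by
  by_contra hlt
  have h1 : 4 ^ μ * 2 ^ n ≤ 3 ^ μ * 2 ^ n * 2 ^ K := by
    calc 4 ^ μ * 2 ^ n ≤ 4 ^ μ * (X * 2 ^ K) := Nat.mul_le_mul_left _ hX
      _ = (4 ^ μ * X) * 2 ^ K := by ring
      _ ≤ _ := Nat.mul_le_mul_right _ h
  have h2 : 4 ^ μ ≤ 3 ^ μ * 2 ^ K := by
    have hp : 0 < 2 ^ n := by positivity
    refine Nat.le_of_mul_le_mul_right ?_ hp
    calc 4 ^ μ * 2 ^ n ≤ 3 ^ μ * 2 ^ n * 2 ^ K := h1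
      _ = 3 ^ μ * 2 ^ K * 2 ^ n := by ring
  obtain ⟨c, rfl⟩ : ∃ c, μ = 3 * K + 1 + c := ⟨μ - (3 * K + 1), by omega⟩
  have h3 : 3 ^ (3 * K) * 2 ^ K ≤ 4 ^ (3 * K) := by
    rw [pow_mul, pow_mul, ← mul_pow]
    exact Nat.pow_le_pow_left (by norm_num) K
  have h4 : 3 ^ c ≤ 4 ^ c := Nat.pow_le_pow_left (by norm_num) c
  have h5 : 3 ^ (3 * K + 1 + c) * 2 ^ K < 4 ^ (3 * K + 1 + c) := by
    calc 3 ^ (3 * K + 1 + c) * 2 ^ K = 3 * ((3 ^ (3 * K) * 2 ^ K) * 3 ^ c) := by ring
      _ ≤ 3 * (4 ^ (3 * K) * 4 ^ c) := by gcongr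
      _ < 4 * (4 ^ (3 * K) * 4 ^ c) := by
          refine Nat.mul_lt_mul_of_pos_right (by norm_num) (by positivity)
      _ = _ := by ring
  omega

lemma cases_logic (v r e s t : Prop) (h1 : r → v) (h2 : e → v) :
    (v ∧ ¬ (((v ∧ ¬ e) ∧ ¬ s) ∨ ((v ∧ ¬ r) ∧ ¬ t))) ↔
      (((((e ∧ ¬ r) ∧ t) ∨ (r ∧ e)) ∨ (((v ∧ ¬ (r ∨ e)) ∧ s) ∧ t)) ∨ ((r ∧ ¬ e) ∧ s)) := by
  by_cases hv : v <;> by_cases hr : r <;> by_cases he : e <;> by_cases hs : s <;>
    by_cases ht : t <;> simp_all

lemma cases_logic2 (v r e s t : Prop) (h1 : r → v) (hr : r) :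
    ((r ∧ e) ∨ ((r ∧ ¬ e) ∧ s)) ∨ (((v ∧ ¬ e) ∧ ¬ s) ∨ ((v ∧ ¬ r) ∧ ¬ t)) := by
  by_cases hv : v <;> by_cases he : e <;> by_cases hs : s <;> simp_all

lemma cases_logic3 (v r e s t : Prop) (h1 : e → v) (hr : e) :
    (((e ∧ ¬ r) ∧ t) ∨ (r ∧ e)) ∨ (((v ∧ ¬ e) ∧ ¬ s) ∨ ((v ∧ ¬ r) ∧ ¬ t)) := by
  by_cases hv : v <;> by_cases he : r <;> by_cases hs : t <;> simp_all

/-- the combinatorial end of the argument: two independent pairs give the structure -/
lemma cases_end (V : Finset ℕ) (G : DG) (R L R2 L2 : Finset ℕ) (hR : R ⊆ V) (hL : L ⊆ V)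
    (hI : Ind G R L) (hI2 : Ind G R2 L2) (w d la : ℕ)
    (hE : (((V \ L) \ R2) ∪ ((V \ R) \ L2)).card ≤ w)
    (hRd : d ≤ R.card + la) (hLd : d ≤ L.card + la) (hd : 8 * (la + w) ≤ d)
    (hd2 : 4 * d ≤ V.card) :
    ∃ E ⊆ V, E.card ≤ w ∧ (Cut (d / 8) (V \ E) G ∨ Giant (V \ E) G) := by
  classical
  obtain ⟨E, hEdef⟩ : ∃ E, E = ((V \ L) \ R2) ∪ ((V \ R) \ L2) := ⟨_, rfl⟩
  obtain ⟨Rs, hRs⟩ : ∃ Rs, Rs = (R \ L) ∩ R2 := ⟨_, rfl⟩
  obtain ⟨Ls, hLs⟩ : ∃ Ls, Ls = (L \ R) ∩ L2 := ⟨_, rfl⟩
  obtain ⟨I, hIdef⟩ : ∃ I, I = R ∩ L := ⟨_, rfl⟩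
  obtain ⟨O, hO⟩ : ∃ O, O = (V \ (R ∪ L)) ∩ R2 ∩ L2 := ⟨_, rfl⟩
  have mE : ∀ v, v ∈ E ↔ (((v ∈ V ∧ v ∉ L) ∧ v ∉ R2) ∨ ((v ∈ V ∧ v ∉ R) ∧ v ∉ L2)) := by
    intro v; rw [hEdef]; simp only [mem_sdiff, mem_union]
  have mRs : ∀ v, v ∈ Rs ↔ ((v ∈ R ∧ v ∉ L) ∧ v ∈ R2) := by
    intro v; rw [hRs]; simp only [mem_sdiff, mem_inter]
  have mLs : ∀ v, v ∈ Ls ↔ ((v ∈ L ∧ v ∉ R) ∧ v ∈ L2) := by
    intro v; rw [hLs]; simp only [mem_sdiff, mem_inter]
  have mI : ∀ v, v ∈ I ↔ (v ∈ R ∧ v ∈ L) := by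
    intro v; rw [hIdef]; simp only [mem_inter]
  have mO : ∀ v, v ∈ O ↔ (((v ∈ V ∧ ¬ (v ∈ R ∨ v ∈ L)) ∧ v ∈ R2) ∧ v ∈ L2) := by
    intro v; rw [hO]; simp only [mem_sdiff, mem_inter, mem_union]
  rw [← hEdef] at hE
  clear hEdef hRs hLs hIdef hO
  have hEV : E ⊆ V := by
    intro v hv
    rcases (mE v).1 hv with h | h
    · exact h.1.1
    · exact h.1.1
  have hS : V \ E = Ls ∪ I ∪ O ∪ Rs := by
    ext v
    rw [mem_sdiff, mem_union, mem_union, mem_union, mE, mLs, mI, mO, mRs]
    exact cases_logic _ _ _ _ _ (fun h => hR h) (fun h => hL h)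
  have hEc : (V \ E).card + E.card = V.card := card_sdiff_add_card_eq_card hEV
  -- sizes of the sides
  have hRc : R.card ≤ (I ∪ Rs).card + w := by
    have hsub : R ⊆ (I ∪ Rs) ∪ E := by
      intro v hv
      rw [mem_union, mem_union, mE, mI, mRs]
      exact cases_logic2 _ _ _ _ _ (fun h => hR h) hv
    calc R.card ≤ ((I ∪ Rs) ∪ E).card := card_le_card hsub
      _ ≤ (I ∪ Rs).card + E.card := card_union_le _ _
      _ ≤ _ := by omega
  have hLc : L.card ≤ (Ls ∪ I).card + w := by
    have hsub : L ⊆ (Ls ∪ I) ∪ E := by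
      intro v hv
      rw [mem_union, mem_union, mE, mI, mLs]
      exact cases_logic3 _ _ _ _ _ (fun h => hL h) hv
    calc L.card ≤ ((Ls ∪ I) ∪ E).card := card_le_card hsub
      _ ≤ (Ls ∪ I).card + E.card := card_union_le _ _
      _ ≤ _ := by omega
  -- edges
  have hA1 : Rs ∪ I ⊆ R := by
    intro v hv
    rcases mem_union.1 hv with h | h
    · exact ((mRs v).1 h).1.1
    · exact ((mI v).1 h).1
  have hA2 : Ls ∪ I ⊆ L := by
    intro v hv
    rcases mem_union.1 hv with h | h
    · exact ((mLs v).1 h).1.1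
    · exact ((mI v).1 h).2
  have hA3 : Rs ∪ O ⊆ R2 := by
    intro v hv
    rcases mem_union.1 hv with h | h
    · exact ((mRs v).1 h).2
    · exact ((mO v).1 h).1.2
  have hA4 : Ls ∪ O ⊆ L2 := by
    intro v hv
    rcases mem_union.1 hv with h | h
    · exact ((mLs v).1 h).2
    · exact ((mO v).1 h).2
  have hi1 : Ind G (Rs ∪ I) (Ls ∪ I) := hI.mono hA1 hA2
  have hi2 : Ind G (Rs ∪ O) (Ls ∪ O) := hI2.mono hA3 hA4
  -- disjointness
  have hD1 : Disjoint Ls I := by
    rw [disjoint_left]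
    intro v h1 h2
    exact ((mLs v).1 h1).1.2 ((mI v).1 h2).1
  have hD2 : Disjoint (Ls ∪ I) O := by
    rw [disjoint_left]
    intro v h1 h2
    exact ((mO v).1 h2).1.1.2 (Or.inr (hA2 h1))
  have hD3 : Disjoint (Ls ∪ I ∪ O) Rs := by
    rw [disjoint_left]
    intro v h1 h2
    have h2' := (mRs v).1 h2
    rcases mem_union.1 h1 with h | h
    · exact h2'.1.2 (hA2 h)
    · exact ((mO v).1 h).1.1.2 (Or.inl h2'.1.1)
  have hcard : (V \ E).card = Ls.card + I.card + O.card + Rs.card := by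
    rw [hS, card_union_of_disjoint hD3, card_union_of_disjoint hD2, card_union_of_disjoint hD1]
  refine ⟨E, hEV, hE, ?_⟩
  by_cases c1 : d / 8 ≤ Ls.card
  · left
    refine ⟨Ls, ?_, c1, ?_, ?_⟩
    · rw [hS]
      exact (subset_union_left.trans subset_union_left).trans subset_union_left
    · have hsub : I ∪ Rs ⊆ (V \ E) \ Ls := by
        rw [hS]
        intro v hv
        rw [mem_sdiff]
        rcases mem_union.1 hv with h | h
        · exact ⟨mem_union_left _ (mem_union_left _ (mem_union_right _ h)),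
            fun h' => disjoint_left.1 hD1 h' h⟩
        · exact ⟨mem_union_right _ h,
            fun h' => disjoint_left.1 hD3 (mem_union_left _ (mem_union_left _ h')) h⟩
      have := card_le_card hsub
      omega
    · rw [hS]
      intro x hx y hy
      rw [mem_sdiff] at hx
      obtain ⟨hx1, hx2⟩ := hx
      rcases mem_union.1 hx1 with h | h
      · rcases mem_union.1 h with h | h
        · rcases mem_union.1 h with h | h
          · exact absurd h hx2
          · exact hi1 x (mem_union_right _ h) y (mem_union_left _ hy)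
        · exact hi2 x (mem_union_right _ h) y (mem_union_left _ hy)
      · exact hi1 x (mem_union_left _ h) y (mem_union_left _ hy)
  · by_cases c2 : d / 8 ≤ Rs.card
    · left
      have hsd : (V \ E) \ (Ls ∪ I ∪ O) = Rs := by
        rw [hS]
        rw [union_sdiff_cancel_left hD3]
      refine ⟨Ls ∪ I ∪ O, ?_, ?_, ?_, ?_⟩
      · rw [hS]
        exact subset_union_left
      · have hsub : Ls ∪ I ⊆ Ls ∪ I ∪ O := subset_union_left
        have := card_le_card hsub
        omega
      · rw [hsd]; exact c2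
      · rw [hsd]
        intro x hx y hy
        rcases mem_union.1 hy with h | h
        · rcases mem_union.1 h with h | h
          · exact hi1 x (mem_union_left _ hx) y (mem_union_left _ h)
          · exact hi1 x (mem_union_left _ hx) y (mem_union_right _ h)
        · exact hi2 x (mem_union_left _ hx) y (mem_union_right _ h)
    · right
      refine ⟨Ls, I, O, Rs, hS.symm, hcard.symm, hi1, hi2, ?_⟩
      omega

theorem cases_one (l d : ℕ) (V : Finset ℕ) (G : DG) (hGV : G ∈ cls V)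
    (hl : 2 * V.card + 1 ≤ 2 ^ l) (hl1 : 1 ≤ l) (hB1 : ¬ Bad1 l V G) (hB4 : ¬ Bad4 l (L4 l) V G)
    (R L : Finset ℕ) (hR : R ⊆ V) (hL : L ⊆ V) (hI : Ind G R L)
    (h1 : V.card ≤ R.card + L.card + La l) (h2 : R.card + L.card ≤ V.card + La l)
    (hRd : d ≤ R.card + La l) (hLd : d ≤ L.card + La l) (hd : 8 * (La l + ww l + q l) ≤ d)
    (hd2 : 4 * d ≤ V.card) :
    ∃ E ⊆ V, E.card ≤ ww l ∧ (Cut (d / 8) (V \ E) G ∨ Giant (V \ E) G) := by
  classical
  have hww : La l + 2 * q l ≤ ww l := by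
    have e1 : q l ≤ (q l + 1) * l :=
      (Nat.le_succ _).trans (Nat.le_mul_of_pos_right _ hl1)
    unfold ww t4
    have : 0 ≤ l * L4 l := Nat.zero_le _
    have e2 : La l ≤ 6 * (l * L4 l + La l + ((q l + 1) * l + 5)) - 6 * ((q l + 1) * l + 5) := by
      omega
    omega
  have hincl : (R \ L).card + (R ∩ L).card = R.card := card_sdiff_add_card_inter R L
  have hincl2 : (L \ R).card + (R ∩ L).card = L.card := by
    rw [inter_comm]; exact card_sdiff_add_card_inter L R
  by_cases hIq : (R ∩ L).card ≤ q l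
  · -- case A
    set S := (R \ L) ∪ (L \ R) with hS
    have hSV : S ⊆ V := union_subset (sdiff_subset.trans hR) (sdiff_subset.trans hL)
    have hdis : Disjoint (R \ L) (L \ R) := by
      rw [disjoint_left]
      intro v h1 h2
      rw [mem_sdiff] at h1 h2
      exact h1.2 h2.1
    have hSc : S.card = (R \ L).card + (L \ R).card := card_union_of_disjoint hdis
    have hVS : (V \ S).card + S.card = V.card := card_sdiff_add_card_eq_card hSV
    have hVVS : V \ (V \ S) = S := by
      rw [sdiff_sdiff_right_self]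
      exact inf_eq_right.2 hSV
    refine ⟨V \ S, sdiff_subset, ?_, Or.inl ?_⟩
    · omega
    · rw [hVVS]
      refine ⟨L \ R, subset_union_right, ?_, ?_, ?_⟩
      · omega
      · have : S \ (L \ R) = R \ L := by
          rw [hS]
          rw [union_sdiff_cancel_right hdis]
        rw [this]
        omega
      · have : S \ (L \ R) = R \ L := by
          rw [hS]
          rw [union_sdiff_cancel_right hdis]
        rw [this]
        exact hI.mono sdiff_subset sdiff_subset
  · -- case B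
    push Not at hIq
    obtain ⟨J, hJ, hJq, hg⟩ := greedy l V G hl R L hR hL
    have hJV : J ⊆ V := hJ.trans (inter_subset_left.trans hR)
    have hLLp : L ⊆ Lp G V J := by
      intro y hy
      refine mem_filter.2 ⟨hL hy, fun x hx => ?_⟩
      exact hI x (mem_inter.1 (hJ hx)).1 y hy
    have hRRp : R ⊆ Rp G V J := by
      intro y hy
      refine mem_filter.2 ⟨hR hy, fun x hx => ?_⟩
      exact hI y hy x (mem_inter.1 (hJ hx)).2
    have hLpV : Lp G V J ⊆ V := filter_subset _ _
    have hRpV : Rp G V J ⊆ V := filter_subset _ _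
    have cL : (Lp G V J \ L).card + L.card = (Lp G V J).card :=
      card_sdiff_add_card_eq_card hLLp
    have cR : (Rp G V J \ R).card + R.card = (Rp G V J).card :=
      card_sdiff_add_card_eq_card hRRp
    obtain ⟨x, hxI, hxJ⟩ : ∃ x ∈ R ∩ L, x ∉ J := by
      by_contra hcon
      push Not at hcon
      have : (R ∩ L).card ≤ J.card := card_le_card hcon
      omega
    obtain ⟨hxR, hxL⟩ := mem_inter.1 hxI
    have hxV : x ∈ V := hR hxR
    have o1 : out G x ∩ Lp G V J = out G x ∩ (Lp G V J \ L) := by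
      ext y
      simp only [mem_inter, mem_sdiff, mem_out]
      constructor
      · rintro ⟨h1, h2⟩
        exact ⟨h1, h2, fun h3 => hI x hxR y h3 h1⟩
      · rintro ⟨h1, h2, _⟩
        exact ⟨h1, h2⟩
    have o2 : inn G x ∩ Rp G V J = inn G x ∩ (Rp G V J \ R) := by
      ext y
      simp only [mem_inter, mem_sdiff, mem_inn]
      constructor
      · rintro ⟨h1, h2⟩
        exact ⟨h1, h2, fun h3 => hI y h3 x hxL h1⟩
      · rintro ⟨h1, h2, _⟩
        exact ⟨h1, h2⟩
    have hgx := hg x hxI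
    rw [← o1, ← o2] at hgx
    set Y := (Lp G V J \ L).card + (Rp G V J \ R).card with hY
    set D := (out G x ∩ Lp G V J).card + (inn G x ∩ Rp G V J).card with hD
    have hYL : Y < L4 l := by
      by_contra hcon
      push Not at hcon
      unfold L4 at hcon
      refine hB1 ⟨J, hJV, hJq, x, hxV, hxJ, by omega, ?_⟩
      have e : 16 * l * D = 2 * (8 * l * D) := by ring
      rw [← hD]
      omega
    have hDY : D ≤ L4 l := by
      have : D ≤ 16 * l * D := Nat.le_mul_of_pos_left D (by omega)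
      omega
    have hb4 : 2 ^ V.card ≤
        (ipa G (V.erase x) (Lp G V J) (Rp G V J) (L4 l)).card * 2 ^ t4 l := by
      by_contra hcon
      push Not at hcon
      exact hB4 ⟨J, hJV, hJq, x, hxV, hxJ, hDY, hcon⟩
    have hxLp : x ∈ Lp G V J := hLLp hxL
    have hxRp : x ∈ Rp G V J := hRRp hxR
    have eP : (V.erase x) \ Lp G V J = V \ Lp G V J := by
      ext v
      simp only [mem_sdiff, mem_erase]
      constructor
      · rintro ⟨⟨_, h⟩, h'⟩; exact ⟨h, h'⟩
      · rintro ⟨h, h'⟩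
        refine ⟨⟨?_, h⟩, h'⟩
        rintro rfl
        exact h' hxLp
    have eQ : (V.erase x) \ Rp G V J = V \ Rp G V J := by
      ext v
      simp only [mem_sdiff, mem_erase]
      constructor
      · rintro ⟨⟨_, h⟩, h'⟩; exact ⟨h, h'⟩
      · rintro ⟨h, h'⟩
        refine ⟨⟨?_, h⟩, h'⟩
        rintro rfl
        exact h' hxRp
    have hipa := cases_ipa_le G (V.erase x) (Lp G V J) (Rp G V J) (L4 l)
    rw [eP, eQ] at hipa
    obtain ⟨μ, R2, L2, hR2, hL2, hI2, hμ1, hμ2, hμ⟩ :=
      matching G (V \ Lp G V J) (V \ Rp G V J)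
    have cP : (V \ Lp G V J).card + (Lp G V J).card = V.card :=
      card_sdiff_add_card_eq_card hLpV
    have cQ : (V \ Rp G V J).card + (Rp G V J).card = V.card :=
      card_sdiff_add_card_eq_card hRpV
    have hPQ : (V \ Lp G V J).card + (V \ Rp G V J).card ≤ V.card + La l := by omega
    have hx1 : (V.erase x).card ≤ V.card := card_le_card (erase_subset _ _)
    have hipa2 : (ipa G (V.erase x) (Lp G V J) (Rp G V J) (L4 l)).card ≤
        2 ^ (l * L4 l) * (ip G (V \ Lp G V J) (V \ Rp G V J)).card := by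
      refine hipa.trans (Nat.mul_le_mul_right _ ?_)
      rw [pow_mul]
      exact Nat.pow_le_pow_left (by omega) _
    have hmu : μ ≤ 3 * (l * L4 l + La l + t4 l) := by
      refine cases_mu μ _ (V.card + La l) (ip G (V \ Lp G V J) (V \ Rp G V J)).card ?_ ?_
      · calc 2 ^ (V.card + La l) = 2 ^ V.card * 2 ^ La l := pow_add _ _ _
          _ ≤ ((ipa G (V.erase x) (Lp G V J) (Rp G V J) (L4 l)).card * 2 ^ t4 l) * 2 ^ La l :=
              Nat.mul_le_mul_right _ hb4
          _ ≤ ((2 ^ (l * L4 l) * (ip G (V \ Lp G V J) (V \ Rp G V J)).card) * 2 ^ t4 l)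
                * 2 ^ La l := by gcongr
          _ = (ip G (V \ Lp G V J) (V \ Rp G V J)).card *
                2 ^ (l * L4 l + La l + t4 l) := by ring
      · refine hμ.trans (Nat.mul_le_mul_left _ ?_)
        exact Nat.pow_le_pow_right (by norm_num) hPQ
    refine cases_end V G R L R2 L2 hR hL hI hI2 (ww l) d (La l) ?_ hRd hLd (by omega) hd2
    -- size of the exceptional set
    have s0 : ∀ X Y Z W : Finset ℕ, (X \ Y) \ Z ⊆ ((X \ W) \ Z) ∪ (W \ Y) := by
      intro X Y Z W v hv
      rw [mem_sdiff, mem_sdiff] at hv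
      rw [mem_union, mem_sdiff, mem_sdiff, mem_sdiff]
      by_cases h : v ∈ W
      · exact Or.inr ⟨h, hv.1.2⟩
      · exact Or.inl ⟨⟨hv.1.1, h⟩, hv.2⟩
    have s1 : (V \ L) \ R2 ⊆ ((V \ Lp G V J) \ R2) ∪ (Lp G V J \ L) := s0 _ _ _ _
    have s2 : (V \ R) \ L2 ⊆ ((V \ Rp G V J) \ L2) ∪ (Rp G V J \ R) := s0 _ _ _ _
    have c1 := (card_le_card s1).trans (card_union_le _ _)
    have c2 := (card_le_card s2).trans (card_union_le _ _)
    have c3 := card_union_le ((V \ L) \ R2) ((V \ R) \ L2)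
    have hw : ww l = L4 l + 6 * (l * L4 l + La l + t4 l) := rfl
    omega

end Pool.H47.D
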