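import Pool.Agent.H47.C3.Defs

set_option autoImplicit false

/-! Exact count of the digraphs with a closed set. -/

namespace Pool.H47.D

open Finset

lemma closed_mem_cls {L R : Finset ℕ} (h : Disjoint L R) {G₁ G₂ M : DG} (h1 : G₁ ∈ cls L)
    (h2 : G₂ ∈ cls R) (hM : M ⊆ L ×ˢ R) :
    G₁ ∪ G₂ ∪ M ∈ cls (L ∪ R) ∧ Ind (G₁ ∪ G₂ ∪ M) R L := by
  rw [mem_cls] at h1 h2 ⊢
  obtain ⟨a1, c1⟩ := h1
  obtain ⟨a2, c2⟩ := h2
  have hd : ∀ x, x ∈ L → x ∈ R → False := fun x hx hx' => disjoint_left.1 h hx hx'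
  have hM' : ∀ u v, (u, v) ∈ M → u ∈ L ∧ v ∈ R := fun u v huv => mem_product.1 (hM huv)
  have a1' : ∀ u v, (u, v) ∈ G₁ → u ∈ L ∧ v ∈ L := fun u v huv => a1 _ huv
  have a2' : ∀ u v, (u, v) ∈ G₂ → u ∈ R ∧ v ∈ R := fun u v huv => a2 _ huv
  have hmem : ∀ u v, (u, v) ∈ G₁ ∪ G₂ ∪ M ↔ (u, v) ∈ G₁ ∨ (u, v) ∈ G₂ ∨ (u, v) ∈ M := by
    intro u v
    rw [mem_union, mem_union, or_assoc]
  have hRL : Ind (G₁ ∪ G₂ ∪ M) R L := by
    intro u hu v hv huv
    rcases (hmem u v).1 huv with k | k | k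
    · exact hd u (a1' _ _ k).1 hu
    · exact hd v hv (a2' _ _ k).2
    · exact hd v hv (hM' _ _ k).2
  have hL : ∀ u v, (u, v) ∈ G₁ ∪ G₂ ∪ M → v ∈ L → (u, v) ∈ G₁ := by
    intro u v huv hv
    rcases (hmem u v).1 huv with k | k | k
    · exact k
    · exact (hd v hv (a2' _ _ k).2).elim
    · exact (hd v hv (hM' _ _ k).2).elim
  have hR : ∀ u v, (u, v) ∈ G₁ ∪ G₂ ∪ M → u ∈ R → (u, v) ∈ G₂ := by
    intro u v huv hu
    rcases (hmem u v).1 huv with k | k | k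
    · exact (hd u (a1' _ _ k).1 hu).elim
    · exact k
    · exact (hd u (hM' _ _ k).1 hu).elim
  have hcov : ∀ u v, (u, v) ∈ G₁ ∪ G₂ ∪ M → (u ∈ L ∨ u ∈ R) ∧ (v ∈ L ∨ v ∈ R) := by
    intro u v huv
    rcases (hmem u v).1 huv with k | k | k
    · exact ⟨Or.inl (a1' _ _ k).1, Or.inl (a1' _ _ k).2⟩
    · exact ⟨Or.inr (a2' _ _ k).1, Or.inr (a2' _ _ k).2⟩
    · exact ⟨Or.inl (hM' _ _ k).1, Or.inr (hM' _ _ k).2⟩
  refine ⟨⟨?_, ?_⟩, hRL⟩
  · rintro ⟨u, v⟩ huv
    rw [mem_union, mem_union]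
    exact hcov u v huv
  · intro u v w huv hvw hwu
    rcases (hcov u v huv).1 with hu | hu
    · -- u in L, so w in L, so v in L
      have k3 := hL w u hwu hu
      have k2 := hL v w hvw (a1' _ _ k3).1
      have k1 := hL u v huv (a1' _ _ k2).1
      exact c1 u v w k1 k2 k3
    · have k1 := hR u v huv hu
      have k2 := hR v w hvw (a2' _ _ k1).2
      have k3 := hR w u hwu (a2' _ _ k2).2
      exact c2 u v w k1 k2 k3

open Classical in
theorem card_closed (L R : Finset ℕ) (h : Disjoint L R) :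
    ((cls (L ∪ R)).filter (fun G => Ind G R L)).card =
      a L.card * a R.card * 2 ^ (L.card * R.card) := by
  rw [← card_cls L, ← card_cls R, ← card_product L R, ← card_powerset, ← card_product,
    ← card_product]
  have hd : ∀ x, x ∈ L → x ∈ R → False := fun x hx hx' => disjoint_left.1 h hx hx'
  refine card_bij' (fun G _ => ((res G L, res G R), G ∩ (L ×ˢ R)))
    (fun p _ => p.1.1 ∪ p.1.2 ∪ p.2) ?_ ?_ ?_ ?_
  · intro G hG
    obtain ⟨hG1, hG2⟩ := mem_filter.1 hG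
    exact mem_product.2 ⟨mem_product.2 ⟨res_mem_cls hG1, res_mem_cls hG1⟩,
      mem_powerset.2 inter_subset_right⟩
  · rintro ⟨⟨G₁, G₂⟩, M⟩ hp
    obtain ⟨h12, hM⟩ := mem_product.1 hp
    obtain ⟨h1, h2⟩ := mem_product.1 h12
    exact mem_filter.2 (closed_mem_cls h h1 h2 (mem_powerset.1 hM))
  · intro G hG
    obtain ⟨hG1, hG2⟩ := mem_filter.1 hG
    have hs := (mem_cls.1 hG1).1
    ext ⟨u, v⟩
    simp only [mem_union, mem_res, mem_inter, mem_product]
    constructor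
    · rintro ((k | k) | k)
      · exact k.1
      · exact k.1
      · exact k.1
    · intro huv
      have := hs _ huv
      simp only [mem_union] at this
      rcases this with ⟨hu | hu, hv | hv⟩
      · exact Or.inl (Or.inl ⟨huv, hu, hv⟩)
      · exact Or.inr ⟨huv, hu, hv⟩
      · exact (hG2 u hu v hv huv).elim
      · exact Or.inl (Or.inr ⟨huv, hu, hv⟩)
  · rintro ⟨⟨G₁, G₂⟩, M⟩ hp
    obtain ⟨h12, hM⟩ := mem_product.1 hp
    obtain ⟨h1, h2⟩ := mem_product.1 h12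
    have a1 : ∀ u v, (u, v) ∈ G₁ → u ∈ L ∧ v ∈ L := fun u v huv => (mem_cls.1 h1).1 _ huv
    have a2 : ∀ u v, (u, v) ∈ G₂ → u ∈ R ∧ v ∈ R := fun u v huv => (mem_cls.1 h2).1 _ huv
    have hM' : ∀ u v, (u, v) ∈ M → u ∈ L ∧ v ∈ R :=
      fun u v huv => mem_product.1 (mem_powerset.1 hM huv)
    refine Prod.ext (Prod.ext ?_ ?_) ?_
    · ext ⟨u, v⟩
      simp only [mem_union, mem_res]
      constructor
      · rintro ⟨(k | k) | k, hu, hv⟩
        · exact k
        · exact (hd u hu (a2 _ _ k).1).elim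
        · exact (hd v hv (hM' _ _ k).2).elim
      · intro k
        exact ⟨Or.inl (Or.inl k), a1 _ _ k⟩
    · ext ⟨u, v⟩
      simp only [mem_union, mem_res]
      constructor
      · rintro ⟨(k | k) | k, hu, hv⟩
        · exact (hd u (a1 _ _ k).1 hu).elim
        · exact k
        · exact (hd u (hM' _ _ k).1 hu).elim
      · intro k
        exact ⟨Or.inl (Or.inr k), a2 _ _ k⟩
    · ext ⟨u, v⟩
      simp only [mem_union, mem_inter, mem_product]
      constructor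
      · rintro ⟨(k | k) | k, hu, hv⟩
        · exact (hd v (a1 _ _ k).2 hv).elim
        · exact (hd u hu (a2 _ _ k).1).elim
        · exact k
      · intro k
        exact ⟨Or.inr k, hM' _ _ k⟩

end Pool.H47.D
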