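import Pool.Agent.H47.C3.Defs

set_option autoImplicit false

/-! Module EXV: a vertex with large in- and out-degree. -/

namespace Pool.H47.D

open Finset

lemma exv_count (G : DG) (V L : Finset ℕ) :
    ∑ x ∈ V, (out G x ∩ L).card = ∑ y ∈ L, (inn G y ∩ V).card := by
  have h := Finset.sum_card_bipartiteAbove_eq_sum_card_bipartiteBelow
    (s := V) (t := L) (fun x y => (x, y) ∈ G)
  have e1 : ∀ x ∈ V, (out G x ∩ L).card =
      (Finset.bipartiteAbove (fun x y => (x, y) ∈ G) L x).card := by
    intro x _
    congr 1
    ext y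
    simp [Finset.bipartiteAbove, and_comm]
  have e2 : ∀ y ∈ L, (inn G y ∩ V).card =
      (Finset.bipartiteBelow (fun x y => (x, y) ∈ G) V y).card := by
    intro y _
    congr 1
    ext x
    simp [Finset.bipartiteBelow, and_comm]
  rw [sum_congr rfl e1, sum_congr rfl e2, h]

/-- arithmetic core -/
lemma exv_few (n K : ℕ) (hn : 0 < n) (W L : Finset ℕ) (f : ℕ → ℕ)
    (hW : ∀ x ∈ W, n ≤ K * f x) (d : ℕ) (hL : L.card ≤ n)
    (hs : ∑ x ∈ W, f x ≤ L.card * d) : W.card ≤ K * d := by
  have h1 : W.card * n ≤ K * (L.card * d) := by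
    calc W.card * n = ∑ x ∈ W, n := by rw [sum_const, smul_eq_mul]
      _ ≤ ∑ x ∈ W, K * f x := sum_le_sum hW
      _ = K * ∑ x ∈ W, f x := by rw [mul_sum]
      _ ≤ K * (L.card * d) := Nat.mul_le_mul_left _ hs
  have h2 : K * (L.card * d) ≤ K * d * n := by
    calc K * (L.card * d) ≤ K * (n * d) := Nat.mul_le_mul_left _ (Nat.mul_le_mul_right _ hL)
      _ = K * d * n := by ring
  exact Nat.le_of_mul_le_mul_right (h1.trans h2) hn

theorem exists_macro (q s d : ℕ) (V : Finset ℕ) (G : DG) (hGV : G ∈ cls V) (hV : V.Nonempty)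
    (hG : Good q s V G) (hs : 4 * s ≤ V.card) (hd : 64 * q * d ≤ V.card) (hq : 1 ≤ q) :
    ∃ v ∈ V, d ≤ (out G v).card ∧ d ≤ (inn G v).card := by
  by_contra hcon
  push Not at hcon
  have hn : 0 < V.card := hV.card_pos
  set A := V.filter (fun v => (inn G v).card < d) with hA
  set B := V.filter (fun v => (out G v).card < d) with hB
  have hAV : A ⊆ V := filter_subset _ _
  have hBV : B ⊆ V := filter_subset _ _
  have hcov : V ⊆ A ∪ B := by
    intro v hv
    rw [mem_union, hA, hB, mem_filter, mem_filter]
    by_cases h : d ≤ (out G v).card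
    · exact Or.inl ⟨hv, hcon v hv h⟩
    · exact Or.inr ⟨hv, not_le.1 h⟩
  have hcard : V.card ≤ A.card + B.card := (card_le_card hcov).trans (card_union_le _ _)
  rcases (by omega : V.card ≤ 2 * A.card ∨ V.card ≤ 2 * B.card) with h | h
  · -- L = A
    set R := V.filter (fun x => 16 * q * (out G x ∩ A).card ≤ V.card) with hR
    have hRV : R ⊆ V := filter_subset _ _
    have hfew : (V \ R).card ≤ 16 * q * d := by
      refine exv_few V.card (16 * q) hn (V \ R) A (fun x => (out G x ∩ A).card) ?_ d
        (card_le_card hAV) ?_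
      · intro x hx
        rw [mem_sdiff, hR, mem_filter, not_and, not_le] at hx
        exact (hx.2 hx.1).le
      · calc ∑ x ∈ V \ R, (out G x ∩ A).card ≤ ∑ x ∈ V, (out G x ∩ A).card :=
              sum_le_sum_of_subset sdiff_subset
          _ = ∑ y ∈ A, (inn G y ∩ V).card := exv_count G V A
          _ ≤ ∑ y ∈ A, d := by
              refine sum_le_sum fun y hy => ?_
              have := (mem_filter.1 hy).2
              exact (card_le_card inter_subset_left).trans this.le
          _ = A.card * d := by rw [sum_const, smul_eq_mul]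
    have hsd : (V \ R).card = V.card - R.card := card_sdiff_of_subset hRV
    have hRle : R.card ≤ V.card := card_le_card hRV
    have hqd : 4 * (16 * q * d) ≤ V.card := by
      calc 4 * (16 * q * d) = 64 * q * d := by ring
        _ ≤ V.card := hd
    rcases hG R hRV A hAV (by omega) with ⟨x, hx, h1⟩ | ⟨y, hy, h1⟩
    · have h2 := (mem_filter.1 hx).2
      have h3 : 4 * (4 * q * (out G x ∩ A).card) = 16 * q * (out G x ∩ A).card := by ring
      omega
    · have h2 := (mem_filter.1 hy).2
      have h3 : (inn G y ∩ R).card ≤ d := (card_le_card inter_subset_left).trans h2.le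
      have h4 : 4 * q * (inn G y ∩ R).card ≤ 4 * q * d := Nat.mul_le_mul_left _ h3
      have h5 : 16 * (4 * q * d) = 64 * q * d := by ring
      omega
  · -- R = B
    set L := V.filter (fun y => 16 * q * (inn G y ∩ B).card ≤ V.card) with hL
    have hLV : L ⊆ V := filter_subset _ _
    have hfew : (V \ L).card ≤ 16 * q * d := by
      refine exv_few V.card (16 * q) hn (V \ L) B (fun x => (inn G x ∩ B).card) ?_ d
        (card_le_card hBV) ?_
      · intro x hx
        rw [mem_sdiff, hL, mem_filter, not_and, not_le] at hx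
        exact (hx.2 hx.1).le
      · calc ∑ x ∈ V \ L, (inn G x ∩ B).card ≤ ∑ x ∈ V, (inn G x ∩ B).card :=
              sum_le_sum_of_subset sdiff_subset
          _ = ∑ y ∈ B, (out G y ∩ V).card := (exv_count G B V).symm
          _ ≤ ∑ y ∈ B, d := by
              refine sum_le_sum fun y hy => ?_
              have := (mem_filter.1 hy).2
              exact (card_le_card inter_subset_left).trans this.le
          _ = B.card * d := by rw [sum_const, smul_eq_mul]
    have hsd : (V \ L).card = V.card - L.card := card_sdiff_of_subset hLV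
    have hLle : L.card ≤ V.card := card_le_card hLV
    have hqd : 4 * (16 * q * d) ≤ V.card := by
      calc 4 * (16 * q * d) = 64 * q * d := by ring
        _ ≤ V.card := hd
    rcases hG B hBV L hLV (by omega) with ⟨x, hx, h1⟩ | ⟨y, hy, h1⟩
    · have h2 := (mem_filter.1 hx).2
      have h3 : (out G x ∩ L).card ≤ d := (card_le_card inter_subset_left).trans h2.le
      have h4 : 4 * q * (out G x ∩ L).card ≤ 4 * q * d := Nat.mul_le_mul_left _ h3
      have h5 : 16 * (4 * q * d) = 64 * q * d := by ring
      omega
    · have h2 := (mem_filter.1 hy).2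
      have h3 : 4 * (4 * q * (inn G y ∩ B).card) = 16 * q * (inn G y ∩ B).card := by ring
      omega

end Pool.H47.D
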