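import Pool.Agent.H47.C3.Defs

set_option autoImplicit false

/-! Module GIANT: few digraphs have a giant bipartite cluster. -/

namespace Pool.H47.D

open Finset

/-- iterating the one-step bound -/
lemma giant_low (h2 : ∀ n : ℕ, (n + 1) * 2 ^ n * a n ≤ 2 * a (n + 1)) (m x : ℕ) :
    a m * x.factorial * 2 ^ (m * x + x.choose 2) ≤ 2 ^ x * a (m + x) := by
  induction x with
  | zero => simp
  | succ x ih =>
    have e1 : m * (x + 1) + (x + 1).choose 2 = (m * x + x.choose 2) + (m + x) := by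
      have : (x + 1).choose 2 = x + x.choose 2 := by
        rw [Nat.choose_succ_succ' x 1, Nat.choose_one_right]
      rw [this]; ring
    calc a m * (x + 1).factorial * 2 ^ (m * (x + 1) + (x + 1).choose 2)
        = (x + 1) * 2 ^ (m + x) * (a m * x.factorial * 2 ^ (m * x + x.choose 2)) := by
          rw [e1, Nat.factorial_succ, pow_add]; ring
      _ ≤ (x + 1) * 2 ^ (m + x) * (2 ^ x * a (m + x)) := Nat.mul_le_mul_left _ ih
      _ ≤ (m + x + 1) * 2 ^ (m + x) * (2 ^ x * a (m + x)) := by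
          refine Nat.mul_le_mul_right _ (Nat.mul_le_mul_right _ ?_)
          omega
      _ = 2 ^ x * ((m + x + 1) * 2 ^ (m + x) * a (m + x)) := by ring
      _ ≤ 2 ^ x * (2 * a (m + x + 1)) := Nat.mul_le_mul_left _ (h2 (m + x))
      _ = 2 ^ (x + 1) * a (m + (x + 1)) := by rw [pow_succ, add_assoc]; ring

/-- the pairs that may be edges and are not inside `L ∪ R` -/
def giantW (L I O R : Finset ℕ) : Finset (ℕ × ℕ) :=
  (L ×ˢ (I ∪ O)) ∪ ((I ∪ O) ×ˢ R) ∪ (I ×ˢ O) ∪ (O ×ˢ I)

lemma giantW_card (L I O R : Finset ℕ) : (giantW L I O R).card ≤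
    (L.card + R.card) * (I.card + O.card) + 2 * (I.card * O.card) := by
  unfold giantW
  have h0 : (I ∪ O).card ≤ I.card + O.card := card_union_le _ _
  calc _ ≤ ((L ×ˢ (I ∪ O)) ∪ ((I ∪ O) ×ˢ R) ∪ (I ×ˢ O)).card + (O ×ˢ I).card :=
        card_union_le _ _
    _ ≤ ((L ×ˢ (I ∪ O)) ∪ ((I ∪ O) ×ˢ R)).card + (I ×ˢ O).card + (O ×ˢ I).card :=
        Nat.add_le_add_right (card_union_le _ _) _
    _ ≤ (L ×ˢ (I ∪ O)).card + ((I ∪ O) ×ˢ R).card + (I ×ˢ O).card + (O ×ˢ I).card :=
        Nat.add_le_add_right (Nat.add_le_add_right (card_union_le _ _) _) _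
    _ = L.card * (I ∪ O).card + (I ∪ O).card * R.card + I.card * O.card + O.card * I.card := by
        simp only [card_product]
    _ ≤ L.card * (I.card + O.card) + (I.card + O.card) * R.card + I.card * O.card +
        O.card * I.card := by gcongr
    _ = _ := by ring

/-- every edge of a digraph with this cluster is in `giantW` or inside `L ∪ R` -/
lemma giant_mem {S L I O R : Finset ℕ} {G : DG} (hG : G ∈ cls S)
    (hU : L ∪ I ∪ O ∪ R = S) (h1 : Ind G (R ∪ I) (L ∪ I)) (h2 : Ind G (R ∪ O) (L ∪ O))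
    (e : ℕ × ℕ) (he : e ∈ G) : (e.1 ∈ L ∪ R ∧ e.2 ∈ L ∪ R) ∨ e ∈ giantW L I O R := by
  obtain ⟨u, v⟩ := e
  have hS := (mem_cls.1 hG).1 _ he
  rw [← hU] at hS
  simp only [mem_union] at hS
  have k1 := h1 u
  have k2 := h2 u
  simp only [mem_union, giantW, mem_product] at k1 k2 ⊢
  have k1' : (u ∈ R ∨ u ∈ I) → (v ∈ L ∨ v ∈ I) → False := fun a b => k1 a v b he
  have k2' : (u ∈ R ∨ u ∈ O) → (v ∈ L ∨ v ∈ O) → False := fun a b => k2 a v b he
  clear k1 k2
  obtain ⟨((hu | hu) | hu) | hu, ((hv | hv) | hv) | hv⟩ := hS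
  all_goals first
    | exact (k1' (Or.inl hu) (Or.inl hv)).elim
    | exact (k1' (Or.inl hu) (Or.inr hv)).elim
    | exact (k1' (Or.inr hu) (Or.inl hv)).elim
    | exact (k1' (Or.inr hu) (Or.inr hv)).elim
    | exact (k2' (Or.inl hu) (Or.inl hv)).elim
    | exact (k2' (Or.inl hu) (Or.inr hv)).elim
    | exact (k2' (Or.inr hu) (Or.inl hv)).elim
    | exact (k2' (Or.inr hu) (Or.inr hv)).elim
    | exact Or.inl ⟨Or.inl hu, Or.inl hv⟩
    | exact Or.inl ⟨Or.inl hu, Or.inr hv⟩
    | exact Or.inl ⟨Or.inr hu, Or.inl hv⟩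
    | exact Or.inl ⟨Or.inr hu, Or.inr hv⟩
    | simp [hu, hv]

open Classical in
/-- number of digraphs for a given cluster -/
lemma giant_one (S L I O R : Finset ℕ) (hU : L ∪ I ∪ O ∪ R = S)
    (hc : L.card + I.card + O.card + R.card = S.card) :
    ((cls S).filter (fun G => Ind G (R ∪ I) (L ∪ I) ∧ Ind G (R ∪ O) (L ∪ O))).card ≤
      a (L.card + R.card) *
        2 ^ ((L.card + R.card) * (I.card + O.card) + 2 * (I.card * O.card)) := by
  have hdis : (L ∪ R).card = L.card + R.card := by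
    refine le_antisymm (card_union_le _ _) ?_
    have h1 : S.card ≤ (L ∪ R).card + I.card + O.card := by
      have : S = (L ∪ R) ∪ I ∪ O := by
        rw [← hU]; ext x; simp only [mem_union]; tauto
      rw [this]
      exact (card_union_le _ _).trans (Nat.add_le_add_right (card_union_le _ _) _)
    omega
  calc _ ≤ ((cls (L ∪ R)) ×ˢ (giantW L I O R).powerset).card := by
        refine card_le_card_of_injOn
          (fun G => (res G (L ∪ R), G.filter (fun e => e ∈ giantW L I O R))) ?_ ?_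
        · intro G hG
          obtain ⟨hG1, hG2⟩ := mem_filter.1 hG
          refine mem_product.2 ⟨res_mem_cls hG1, mem_powerset.2 ?_⟩
          intro e he
          exact (mem_filter.1 he).2
        · intro G hG G' hG' h
          simp only [Prod.mk.injEq] at h
          obtain ⟨hG1, hG2⟩ := mem_filter.1 hG
          obtain ⟨hG1', hG2'⟩ := mem_filter.1 hG'
          ext e
          constructor
          · intro he
            rcases giant_mem hG1 hU hG2.1 hG2.2 e he with h3 | h3
            · have : e ∈ res G (L ∪ R) := mem_res.2 ⟨he, h3⟩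
              rw [h.1] at this
              exact (mem_res.1 this).1
            · have : e ∈ G.filter (fun e => e ∈ giantW L I O R) := mem_filter.2 ⟨he, h3⟩
              rw [h.2] at this
              exact (mem_filter.1 this).1
          · intro he
            rcases giant_mem hG1' hU hG2'.1 hG2'.2 e he with h3 | h3
            · have : e ∈ res G' (L ∪ R) := mem_res.2 ⟨he, h3⟩
              rw [← h.1] at this
              exact (mem_res.1 this).1
            · have : e ∈ G'.filter (fun e => e ∈ giantW L I O R) := mem_filter.2 ⟨he, h3⟩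
              rw [← h.2] at this
              exact (mem_filter.1 this).1
    _ = a (L.card + R.card) * 2 ^ (giantW L I O R).card := by
        rw [card_product, card_powerset, card_cls, hdis]
    _ ≤ _ := Nat.mul_le_mul_left _ (Nat.pow_le_pow_right two_pos (giantW_card L I O R))

lemma giant_amgm (x y : ℕ) : 2 * (x * y) ≤ (x + y).choose 2 + (x + y) := by
  have h : (x + y).choose 2 * 2 + (x + y) = (x + y) * (x + y) := by
    rw [Nat.choose_two_right]
    have : 2 ∣ (x + y) * (x + y - 1) := by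
      rcases Nat.even_mul_pred_self (x + y) with ⟨k, hk⟩
      exact ⟨k, by rw [hk]; ring⟩
    rw [Nat.div_mul_cancel this]
    rcases Nat.eq_zero_or_pos (x + y) with h0 | h0
    · simp [h0]
    · obtain ⟨k, hk⟩ := Nat.exists_eq_succ_of_ne_zero h0.ne'
      rw [hk]; simp only [Nat.succ_eq_add_one, Nat.add_sub_cancel]; ring
  have h1 : 4 * (x * y) ≤ (x + y) * (x + y) := by
    have : (x + y) * (x + y) = x * x + y * y + 2 * (x * y) := by ring
    have h2 : 2 * (x * y) ≤ x * x + y * y := by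
      have := two_mul_le_add_sq x y
      nlinarith
    omega
  omega

open Classical in
lemma giant_two (h2 : ∀ n : ℕ, (n + 1) * 2 ^ n * a n ≤ 2 * a (n + 1))
    (S L I O R : Finset ℕ) (hU : L ∪ I ∪ O ∪ R = S)
    (hc : L.card + I.card + O.card + R.card = S.card) (hx : S.card ≤ 2 * (I.card + O.card)) :
    ((cls S).filter (fun G => Ind G (R ∪ I) (L ∪ I) ∧ Ind G (R ∪ O) (L ∪ O))).card *
      (S.card / 2).factorial ≤ 4 ^ S.card * a S.card := by
  set m := L.card + R.card with hm
  set x := I.card + O.card with hxx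
  set c := ((cls S).filter (fun G => Ind G (R ∪ I) (L ∪ I) ∧ Ind G (R ∪ O) (L ∪ O))).card
  have e : S.card = m + x := by omega
  have h1 : c ≤ a m * 2 ^ (m * x + 2 * (I.card * O.card)) := giant_one S L I O R hU hc
  have h3 : a m * x.factorial * 2 ^ (m * x + x.choose 2) ≤ 2 ^ x * a (m + x) :=
    giant_low h2 m x
  have h4 : 2 * (I.card * O.card) ≤ x.choose 2 + x := giant_amgm _ _
  have h5 : (S.card / 2).factorial ≤ x.factorial := Nat.factorial_le (by omega)
  calc c * (S.card / 2).factorial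
      ≤ (a m * 2 ^ (m * x + 2 * (I.card * O.card))) * x.factorial := Nat.mul_le_mul h1 h5
    _ ≤ (a m * 2 ^ ((m * x + x.choose 2) + x)) * x.factorial := by
        refine Nat.mul_le_mul_right _ (Nat.mul_le_mul_left _ ?_)
        exact Nat.pow_le_pow_right two_pos (by omega)
    _ = 2 ^ x * (a m * x.factorial * 2 ^ (m * x + x.choose 2)) := by rw [pow_add]; ring
    _ ≤ 2 ^ x * (2 ^ x * a (m + x)) := Nat.mul_le_mul_left _ h3
    _ = 4 ^ x * a S.card := by
        rw [e, ← mul_assoc, ← mul_pow]; norm_num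
    _ ≤ 4 ^ S.card * a S.card :=
        Nat.mul_le_mul_right _ (Nat.pow_le_pow_right (by norm_num) (by omega))

open Classical in
lemma giant_total (h2 : ∀ n : ℕ, (n + 1) * 2 ^ n * a n ≤ 2 * a (n + 1)) (S : Finset ℕ) :
    ((cls S).filter (Giant S)).card * (S.card / 2).factorial ≤ 64 ^ S.card * a S.card := by
  set P := S.powerset with hP
  set T := ((P ×ˢ P) ×ˢ (P ×ˢ P)).filter (fun t => t.1.1 ∪ t.1.2 ∪ t.2.1 ∪ t.2.2 = S ∧
    t.1.1.card + t.1.2.card + t.2.1.card + t.2.2.card = S.card ∧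
    S.card ≤ 2 * (t.1.2.card + t.2.1.card)) with hT
  have hTc : T.card ≤ 16 ^ S.card := by
    refine (card_filter_le _ _).trans ?_
    rw [card_product, card_product, hP, card_powerset, ← pow_add, ← pow_add]
    have : (16 : ℕ) = 2 ^ 4 := by norm_num
    rw [this, ← pow_mul]
    exact Nat.pow_le_pow_right two_pos (by omega)
  have hsub : (cls S).filter (Giant S) ⊆ T.biUnion (fun t => (cls S).filter (fun G =>
      Ind G (t.2.2 ∪ t.1.2) (t.1.1 ∪ t.1.2) ∧ Ind G (t.2.2 ∪ t.2.1) (t.1.1 ∪ t.2.1))) := by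
    intro G hG
    obtain ⟨hG1, L, I, O, R, hU, hc, k1, k2, k3⟩ := mem_filter.1 hG
    refine mem_biUnion.2 ⟨((L, I), (O, R)), ?_, mem_filter.2 ⟨hG1, k1, k2⟩⟩
    have hsubs : L ⊆ S ∧ I ⊆ S ∧ O ⊆ S ∧ R ⊆ S := by
      rw [← hU]
      refine ⟨?_, ?_, ?_, ?_⟩ <;> intro y hy <;> simp only [mem_union] <;> tauto
    rw [hT, mem_filter]
    refine ⟨?_, hU, hc, k3⟩
    simp only [hP, mem_product, mem_powerset]
    exact ⟨⟨hsubs.1, hsubs.2.1⟩, hsubs.2.2.1, hsubs.2.2.2⟩
  calc ((cls S).filter (Giant S)).card * (S.card / 2).factorial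
      ≤ (∑ t ∈ T, ((cls S).filter (fun G => Ind G (t.2.2 ∪ t.1.2) (t.1.1 ∪ t.1.2) ∧
          Ind G (t.2.2 ∪ t.2.1) (t.1.1 ∪ t.2.1))).card) * (S.card / 2).factorial :=
        Nat.mul_le_mul_right _ ((card_le_card hsub).trans card_biUnion_le)
    _ = ∑ t ∈ T, ((cls S).filter (fun G => Ind G (t.2.2 ∪ t.1.2) (t.1.1 ∪ t.1.2) ∧
          Ind G (t.2.2 ∪ t.2.1) (t.1.1 ∪ t.2.1))).card * (S.card / 2).factorial := by
        rw [sum_mul]
    _ ≤ ∑ t ∈ T, 4 ^ S.card * a S.card := by
        refine sum_le_sum fun t ht => ?_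
        obtain ⟨_, hU, hc, hx⟩ := mem_filter.1 ht
        exact giant_two h2 S _ _ _ _ hU hc hx
    _ = T.card * (4 ^ S.card * a S.card) := by rw [sum_const, smul_eq_mul]
    _ ≤ 16 ^ S.card * (4 ^ S.card * a S.card) := Nat.mul_le_mul_right _ hTc
    _ = 64 ^ S.card * a S.card := by
        rw [← mul_assoc, ← mul_pow]; norm_num

lemma giant_fact : ∃ N₀ : ℕ, ∀ n ≥ N₀, 128 ^ n ≤ (n / 2).factorial := by
  have h := FloorSemiring.tendsto_pow_div_factorial_atTop (16384 : ℝ)
  have h1 : ∀ᶠ k : ℕ in Filter.atTop, (16384 : ℝ) ^ k / k.factorial < 1 / 128 :=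
    h.eventually (gt_mem_nhds (by norm_num))
  obtain ⟨K, hK⟩ := Filter.eventually_atTop.1 h1
  refine ⟨2 * K, fun n hn => ?_⟩
  have h3 := hK (n / 2) (by omega)
  have hpos : (0 : ℝ) < (n / 2).factorial := by exact_mod_cast Nat.factorial_pos _
  rw [div_lt_div_iff₀ hpos (by norm_num)] at h3
  have h4 : (16384 ^ (n / 2) * 128 : ℕ) < 1 * (n / 2).factorial := by exact_mod_cast h3
  calc 128 ^ n ≤ 128 ^ (2 * (n / 2) + 1) := Nat.pow_le_pow_right (by norm_num) (by omega)
    _ = 16384 ^ (n / 2) * 128 := by rw [pow_succ, pow_mul]; norm_num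
    _ ≤ (n / 2).factorial := by omega

open Classical in
/-- `giant_count` from the one-step bound -/
theorem giant_count_of (h2 : ∀ n : ℕ, (n + 1) * 2 ^ n * a n ≤ 2 * a (n + 1)) :
    ∃ N₀ : ℕ, ∀ S : Finset ℕ, N₀ ≤ S.card →
    ((cls S).filter (Giant S)).card * 2 ^ S.card ≤ a S.card := by
  obtain ⟨N₀, hN⟩ := giant_fact
  refine ⟨N₀, fun S hS => ?_⟩
  have h1 := giant_total h2 S
  have h3 := hN S.card hS
  have hpos : 0 < (S.card / 2).factorial := Nat.factorial_pos _
  refine Nat.le_of_mul_le_mul_right ?_ hpos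
  calc ((cls S).filter (Giant S)).card * 2 ^ S.card * (S.card / 2).factorial
      = 2 ^ S.card * (((cls S).filter (Giant S)).card * (S.card / 2).factorial) := by ring
    _ ≤ 2 ^ S.card * (64 ^ S.card * a S.card) := Nat.mul_le_mul_left _ h1
    _ = 128 ^ S.card * a S.card := by rw [← mul_assoc, ← mul_pow]; norm_num
    _ ≤ (S.card / 2).factorial * a S.card := Nat.mul_le_mul_right _ h3
    _ = a S.card * (S.card / 2).factorial := mul_comm _ _

end Pool.H47.D
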