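import Pool.Agent.H47.C3.Defs

set_option autoImplicit false

/-! Module SRC: sources of `C3`-digraphs. -/

namespace Pool.H47.D

open Finset

lemma src_mem {V : Finset ℕ} {G : DG} {x : ℕ} : x ∈ src V G ↔ x ∈ V ∧ inn G x = ∅ := by
  unfold src
  rw [mem_filter]

lemma src_sub (V : Finset ℕ) (G : DG) : src V G ⊆ V := filter_subset _ _

lemma src_inn_ext_iff {x : ℕ} {H : DG} {A : Finset ℕ} {y : ℕ} (hy : y ≠ x) :
    inn (Pool.H47.D.ext H x A ∅) y = ∅ ↔ inn H y = ∅ ∧ y ∉ A := by
  constructor
  · intro h
    rw [eq_empty_iff_forall_notMem] at h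
    constructor
    · rw [eq_empty_iff_forall_notMem]
      intro z hz
      exact h z (mem_inn.2 (mem_ext.2 (Or.inl (mem_inn.1 hz))))
    · intro hA
      exact h x (mem_inn.2 (mem_ext.2 (Or.inr (Or.inl ⟨rfl, hA⟩))))
  · rintro ⟨h1, h2⟩
    rw [eq_empty_iff_forall_notMem] at h1 ⊢
    intro z hz
    rw [mem_inn, mem_ext] at hz
    rcases hz with h | ⟨_, h⟩ | ⟨h, _⟩
    · exact h1 z (mem_inn.2 h)
    · exact h2 h
    · exact hy h

lemma src_ext {V : Finset ℕ} {x : ℕ} {H : DG} {A : Finset ℕ} (hx : x ∈ V)
    (hH : H ∈ cls (V.erase x)) (hA : A ⊆ V.erase x) :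
    src V (Pool.H47.D.ext H x A ∅) = insert x (src (V.erase x) H \ A) := by
  ext y
  rw [src_mem, mem_insert, mem_sdiff, src_mem]
  by_cases hy : y = x
  · subst hy
    constructor
    · intro _; exact Or.inl rfl
    · intro _
      exact ⟨hx, inn_ext hH hA⟩
  · rw [src_inn_ext_iff hy, mem_erase]
    constructor
    · rintro ⟨h1, h2, h3⟩
      exact Or.inr ⟨⟨⟨hy, h1⟩, h2⟩, h3⟩
    · rintro (h | ⟨⟨⟨_, h1⟩, h2⟩, h3⟩)
      · exact absurd h hy
      · exact ⟨h1, h2, h3⟩

open Classical in
/-- summing a function of the set of sources over the digraphs in which `x` is a source -/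
lemma src_sum (V : Finset ℕ) (x : ℕ) (hx : x ∈ V) (f : Finset ℕ → ℕ) :
    ∑ G ∈ (cls V).filter (fun G => x ∈ src V G), f (src V G) =
      ∑ H ∈ cls (V.erase x), ∑ A ∈ (V.erase x).powerset,
        f (insert x (src (V.erase x) H \ A)) := by
  rw [← sum_product (s := cls (V.erase x)) (t := (V.erase x).powerset)
    (f := fun p => f (insert x (src (V.erase x) p.1 \ p.2)))]
  refine sum_bij' (fun G _ => (res G (V.erase x), out G x))
    (fun p _ => Pool.H47.D.ext p.1 x p.2 ∅) ?_ ?_ ?_ ?_ ?_
  · intro G hG
    obtain ⟨h1, h2⟩ := mem_filter.1 hG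
    exact mem_product.2 ⟨res_mem_cls h1, mem_powerset.2 (out_subset h1 x)⟩
  · rintro ⟨H, A⟩ hp
    obtain ⟨h1, h2⟩ := mem_product.1 hp
    have h2 := mem_powerset.1 h2
    refine mem_filter.2 ⟨ext_mem_cls hx h1 h2 (by simp) ?_, ?_⟩
    · intro u _ v hv
      simp at hv
    · change x ∈ src V (Pool.H47.D.ext H x A ∅)
      rw [src_ext hx h1 h2]
      exact mem_insert_self _ _
  · intro G hG
    obtain ⟨h1, h2⟩ := mem_filter.1 hG
    have h3 := (src_mem.1 h2).2
    have h4 := ext_decomp h1 x
    rw [h3] at h4
    exact h4
  · rintro ⟨H, A⟩ hp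
    obtain ⟨h1, h2⟩ := mem_product.1 hp
    have h2 := mem_powerset.1 h2
    change (res (Pool.H47.D.ext H x A ∅) (V.erase x), out (Pool.H47.D.ext H x A ∅) x) = (H, A)
    rw [res_ext h1, out_ext h1 (by simp)]
  · intro G hG
    obtain ⟨h1, h2⟩ := mem_filter.1 hG
    have h3 := (src_mem.1 h2).2
    have h4 := ext_decomp h1 x
    rw [h3] at h4
    change f (src V G) = f (insert x (src (V.erase x) (res G (V.erase x)) \ out G x))
    rw [← src_ext hx (res_mem_cls h1) (out_subset h1 x), h4]

lemma src_card_erase {V : Finset ℕ} {x n : ℕ} (hx : x ∈ V) (hV : V.card = n + 1) :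
    (V.erase x).card = n := by
  rw [card_erase_of_mem hx, hV]; rfl

open Classical in
lemma src_count_one (V : Finset ℕ) (n x : ℕ) (hx : x ∈ V) (hV : V.card = n + 1) :
    ((cls V).filter (fun G => x ∈ src V G)).card = 2 ^ n * a n := by
  have h := src_sum V x hx (fun _ => 1)
  have e := src_card_erase hx hV
  simp only [sum_const, smul_eq_mul, mul_one, card_powerset] at h
  rw [h, card_cls, e, mul_comm]

/-- `∑ |src G|` -/
lemma src_sum_card (V : Finset ℕ) (n : ℕ) (hV : V.card = n + 1) :
    ∑ G ∈ cls V, (src V G).card = (n + 1) * 2 ^ n * a n := by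
  classical
  have h1 : ∀ G : DG, (src V G).card = ∑ x ∈ V, if x ∈ src V G then 1 else 0 := by
    intro G
    rw [← card_filter]
    congr 1
    ext y
    rw [mem_filter]
    exact ⟨fun h => ⟨src_sub V G h, h⟩, fun h => h.2⟩
  rw [sum_congr rfl (fun G _ => h1 G), sum_comm]
  rw [sum_congr rfl (g := fun _ => 2 ^ n * a n)]
  · rw [sum_const, hV, smul_eq_mul, mul_assoc]
  · intro x hx
    rw [← card_filter, src_count_one V n x hx hV]

open Classical in
/-- summing over the digraphs in which `x` and `y` are sources -/
lemma src_sum_two (V : Finset ℕ) (x y : ℕ) (hx : x ∈ V) (hy : y ∈ V.erase x)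
    (f : Finset ℕ → ℕ) :
    ∑ G ∈ (cls V).filter (fun G => x ∈ src V G ∧ y ∈ src V G), f (src V G) =
      ∑ K ∈ cls ((V.erase x).erase y), ∑ B ∈ ((V.erase x).erase y).powerset,
        ∑ A ∈ ((V.erase x).erase y).powerset,
        f (insert x (insert y (src ((V.erase x).erase y) K \ B) \ A)) := by
  have hyx : y ≠ x := (mem_erase.1 hy).1
  calc ∑ G ∈ (cls V).filter (fun G => x ∈ src V G ∧ y ∈ src V G), f (src V G)
      = ∑ G ∈ (cls V).filter (fun G => x ∈ src V G),
          (if y ∈ src V G then f (src V G) else 0) := by
        rw [← sum_filter, filter_filter]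
    _ = ∑ H ∈ cls (V.erase x), ∑ A ∈ (V.erase x).powerset,
          (if y ∈ insert x (src (V.erase x) H \ A) then f (insert x (src (V.erase x) H \ A))
            else 0) := src_sum V x hx (fun S => if y ∈ S then f S else 0)
    _ = ∑ H ∈ cls (V.erase x), (if y ∈ src (V.erase x) H then
          ∑ A ∈ ((V.erase x).erase y).powerset, f (insert x (src (V.erase x) H \ A)) else 0) := by
        refine sum_congr rfl fun H _ => ?_
        by_cases h : y ∈ src (V.erase x) H
        · rw [if_pos h, ← sum_filter]
          refine sum_congr ?_ fun _ _ => rfl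
          ext A
          rw [mem_filter, mem_powerset, mem_powerset, mem_insert, mem_sdiff]
          constructor
          · rintro ⟨h1, h2 | h2⟩
            · exact absurd h2 hyx
            · intro z hz
              refine mem_erase.2 ⟨?_, h1 hz⟩
              rintro rfl
              exact h2.2 hz
          · intro h1
            refine ⟨h1.trans (erase_subset _ _), Or.inr ⟨h, fun h2 => ?_⟩⟩
            exact (mem_erase.1 (h1 h2)).1 rfl
        · rw [if_neg h]
          refine sum_eq_zero fun A _ => ?_
          rw [if_neg]
          rw [mem_insert, mem_sdiff]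
          rintro (h1 | h1)
          · exact hyx h1
          · exact h h1.1
    _ = ∑ H ∈ (cls (V.erase x)).filter (fun H => y ∈ src (V.erase x) H),
          ∑ A ∈ ((V.erase x).erase y).powerset, f (insert x (src (V.erase x) H \ A)) := by
        rw [sum_filter]
    _ = _ := src_sum (V.erase x) y hy
        (fun S => ∑ A ∈ ((V.erase x).erase y).powerset, f (insert x (S \ A)))

open Classical in
lemma src_count_two (V : Finset ℕ) (n x y : ℕ) (hx : x ∈ V) (hy : y ∈ V.erase x)
    (hV : V.card = n + 2) :
    ((cls V).filter (fun G => x ∈ src V G ∧ y ∈ src V G)).card = 4 ^ n * a n := by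
  have h := src_sum_two V x y hx hy (fun _ => 1)
  have e1 : (V.erase x).card = n + 1 := src_card_erase hx hV
  have e := src_card_erase hy e1
  simp only [sum_const, smul_eq_mul, mul_one, card_powerset] at h
  rw [h, card_cls, e]
  have : (4 : ℕ) ^ n = 2 ^ n * 2 ^ n := by
    rw [← mul_pow]; norm_num
  rw [this]; ring

/-- `∑ |src G| (|src G| - 1)` -/
lemma src_sum_pairs (V : Finset ℕ) (n : ℕ) (hV : V.card = n + 2) :
    ∑ G ∈ cls V, (src V G).card * ((src V G).card - 1) = (n + 2) * (n + 1) * 4 ^ n * a n := by
  classical
  have h1 : ∀ G : DG, (src V G).card * ((src V G).card - 1) =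
      ∑ x ∈ V, ∑ y ∈ V.erase x, if (x ∈ src V G ∧ y ∈ src V G) then 1 else 0 := by
    intro G
    have e1 : ∀ x ∈ V, (∑ y ∈ V.erase x, if (x ∈ src V G ∧ y ∈ src V G) then 1 else 0) =
        if x ∈ src V G then ((src V G).card - 1) else 0 := by
      intro x hx
      by_cases h : x ∈ src V G
      · rw [if_pos h, ← card_filter, ← card_erase_of_mem h]
        congr 1
        ext y
        rw [mem_filter, mem_erase, mem_erase]
        constructor
        · rintro ⟨⟨h1, h2⟩, h3, h4⟩; exact ⟨h1, h4⟩
        · rintro ⟨h1, h2⟩; exact ⟨⟨h1, src_sub V G h2⟩, h, h2⟩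
      · rw [if_neg h]
        refine sum_eq_zero fun y _ => ?_
        rw [if_neg]
        rintro ⟨h1, _⟩; exact h h1
    rw [sum_congr rfl e1, ← sum_filter, sum_const, smul_eq_mul]
    congr 1
    congr 1
    ext y
    rw [mem_filter]
    exact ⟨fun h => ⟨src_sub V G h, h⟩, fun h => h.2⟩
  rw [sum_congr rfl (fun G _ => h1 G), sum_comm]
  have h2 : ∀ x ∈ V, (∑ G ∈ cls V, ∑ y ∈ V.erase x,
      if (x ∈ src V G ∧ y ∈ src V G) then 1 else 0) = (n + 1) * (4 ^ n * a n) := by
    intro x hx
    rw [sum_comm]
    rw [sum_congr rfl (g := fun _ => 4 ^ n * a n)]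
    · rw [sum_const, smul_eq_mul, src_card_erase hx hV]
    · intro y hy
      rw [← card_filter, src_count_two V n x y hx hy hV]
  rw [sum_congr rfl h2, sum_const, smul_eq_mul, hV]
  ring

theorem a_succ_ge_two (n : ℕ) : (n + 1) * 2 ^ n * a n ≤ 2 * a (n + 1) := by
  induction n with
  | zero =>
    have h := a_pos 1
    rw [a_zero]
    simp only [zero_add, pow_zero, mul_one]
    omega
  | succ n ih =>
    have hV : (range (n + 2)).card = n + 2 := card_range _
    have h1 := src_sum_card (range (n + 2)) (n + 1) hV
    have h2 := src_sum_pairs (range (n + 2)) n hV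
    have h3 : ∑ G ∈ cls (range (n + 2)), 2 * (src (range (n + 2)) G).card ≤
        ∑ G ∈ cls (range (n + 2)), (2 + (src (range (n + 2)) G).card *
          ((src (range (n + 2)) G).card - 1)) := by
      refine sum_le_sum fun G _ => ?_
      generalize (src (range (n + 2)) G).card = k
      rcases k with _ | _ | _ | k
      · simp
      · simp
      · simp
      · simp only [Nat.add_sub_cancel]
        nlinarith
    rw [← mul_sum, h1, sum_add_distrib, h2, sum_const, smul_eq_mul] at h3
    change 2 * ((n + 1 + 1) * 2 ^ (n + 1) * a (n + 1)) ≤ a (n + 2) * 2 + _ at h3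
    have h4 : (n + 2) * (n + 1) * 4 ^ n * a n ≤ (n + 2) * 2 ^ n * (2 * a (n + 1)) := by
      have e : (4 : ℕ) ^ n = 2 ^ n * 2 ^ n := by rw [← mul_pow]; norm_num
      calc (n + 2) * (n + 1) * 4 ^ n * a n = (n + 2) * 2 ^ n * ((n + 1) * 2 ^ n * a n) := by
            rw [e]; ring
        _ ≤ _ := Nat.mul_le_mul_left _ ih
    have e2 : (2 : ℕ) ^ (n + 1) = 2 * 2 ^ n := by ring
    rw [e2] at h3 ⊢
    generalize 2 ^ n * a (n + 1) = X at *
    nlinarith [h3, h4]

open Classical in
theorem src_one_or_more (n : ℕ) :
    ((cls (range (n + 1))).filter (fun G => src (range (n + 1)) G ≠ ∅)).card ≤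
      (n + 1) * 2 ^ n * a n := by
  rw [← src_sum_card (range (n + 1)) n (card_range _), card_filter]
  refine sum_le_sum fun G _ => ?_
  by_cases h : src (range (n + 1)) G = ∅
  · simp [h]
  · rw [if_pos h]
    exact card_pos.2 (nonempty_iff_ne_empty.2 h)

open Classical in
/-- at least half of the digraphs have at most three sources -/
lemma src_few (V : Finset ℕ) (n : ℕ) (hV : V.card = n) :
    a n ≤ 2 * ((cls V).filter (fun G => (src V G).card ≤ 3)).card := by
  rcases n with _ | n
  · have h : (cls V).filter (fun G => (src V G).card ≤ 3) = cls V := by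
      rw [filter_eq_self]
      intro G _
      have h1 := card_le_card (src_sub V G)
      omega
    rw [h, card_cls, hV]
    omega
  · have h1 := src_sum_card V n hV
    have h2 := a_succ_ge_two n
    have h3 : ∑ G ∈ cls V, 4 * (if ¬ (src V G).card ≤ 3 then 1 else 0) ≤
        ∑ G ∈ cls V, (src V G).card := by
      refine sum_le_sum fun G _ => ?_
      split_ifs with h
      · omega
      · omega
    rw [← mul_sum, ← card_filter, h1] at h3
    have h4 := card_filter_add_card_filter_not (s := cls V) (fun G => (src V G).card ≤ 3)
    rw [card_cls, hV] at h4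
    omega

open Classical in
theorem src_one (n : ℕ) : (n + 1) * 2 ^ n * a n ≤
    16 * ((cls (range (n + 1))).filter (fun G => (src (range (n + 1)) G).card = 1)).card := by
  set V := range (n + 1) with hVdef
  have hV : V.card = n + 1 := card_range _
  have h1 : ∀ x ∈ V, 2 ^ n * a n ≤
      16 * ((cls V).filter (fun G => src V G = {x})).card := by
    intro x hx
    have e := src_card_erase hx hV
    have h2 := src_sum V x hx (fun S => if S = {x} then 1 else 0)
    have h3 : ∑ G ∈ (cls V).filter (fun G => x ∈ src V G), (if src V G = {x} then 1 else 0) =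
        ((cls V).filter (fun G => src V G = {x})).card := by
      rw [← card_filter, filter_filter]
      congr 1
      ext G
      rw [mem_filter, mem_filter]
      refine and_congr_right fun _ => ⟨fun h => h.2, fun h => ⟨?_, h⟩⟩
      rw [h]; exact mem_singleton_self x
    rw [← h3, h2]
    have h4 : ∀ H ∈ (cls (V.erase x)).filter (fun H => (src (V.erase x) H).card ≤ 3),
        2 ^ n ≤ 8 * ∑ A ∈ (V.erase x).powerset,
          (if insert x (src (V.erase x) H \ A) = {x} then 1 else 0) := by
      intro H hH
      have hH3 := (mem_filter.1 hH).2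
      have h5 : 2 ^ (n - (src (V.erase x) H).card) ≤ ∑ A ∈ (V.erase x).powerset,
          (if insert x (src (V.erase x) H \ A) = {x} then 1 else 0) := by
        rw [← card_filter, ← e, ← card_Icc_finset (src_sub (V.erase x) H)]
        refine card_le_card ?_
        intro A hA
        rw [mem_Icc] at hA
        rw [mem_filter, mem_powerset]
        refine ⟨hA.2, ?_⟩
        rw [sdiff_eq_empty_iff_subset.2 hA.1]
        simp
      have h6 : 2 ^ n ≤ 8 * 2 ^ (n - (src (V.erase x) H).card) := by
        have : (8 : ℕ) = 2 ^ 3 := by norm_num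
        rw [this, ← pow_add]
        exact Nat.pow_le_pow_right two_pos (by omega)
      exact h6.trans (Nat.mul_le_mul_left 8 h5)
    have h5 := src_few (V.erase x) n e
    calc 2 ^ n * a n ≤ 2 ^ n * (2 * ((cls (V.erase x)).filter
            (fun G => (src (V.erase x) G).card ≤ 3)).card) := Nat.mul_le_mul_left _ h5
      _ = 2 * ∑ H ∈ (cls (V.erase x)).filter (fun H => (src (V.erase x) H).card ≤ 3), 2 ^ n := by
          rw [sum_const, smul_eq_mul]; ring
      _ ≤ 2 * ∑ H ∈ (cls (V.erase x)).filter (fun H => (src (V.erase x) H).card ≤ 3),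
            8 * ∑ A ∈ (V.erase x).powerset,
              (if insert x (src (V.erase x) H \ A) = {x} then 1 else 0) :=
          Nat.mul_le_mul_left _ (sum_le_sum h4)
      _ = 16 * ∑ H ∈ (cls (V.erase x)).filter (fun H => (src (V.erase x) H).card ≤ 3),
            ∑ A ∈ (V.erase x).powerset,
              (if insert x (src (V.erase x) H \ A) = {x} then 1 else 0) := by
          rw [← mul_sum]; ring
      _ ≤ _ := by
          refine Nat.mul_le_mul_left _ ?_
          exact sum_le_sum_of_subset (filter_subset _ _)
  calc (n + 1) * 2 ^ n * a n = ∑ x ∈ V, 2 ^ n * a n := by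
        rw [sum_const, hV, smul_eq_mul, mul_assoc]
    _ ≤ ∑ x ∈ V, 16 * ((cls V).filter (fun G => src V G = {x})).card := sum_le_sum h1
    _ = 16 * ∑ x ∈ V, ((cls V).filter (fun G => src V G = {x})).card := by rw [mul_sum]
    _ ≤ _ := by
        refine Nat.mul_le_mul_left _ ?_
        rw [card_filter]
        simp only [card_filter]
        rw [sum_comm]
        refine sum_le_sum fun G _ => ?_
        by_cases h : (src V G).card = 1
        · rw [if_pos h]
          obtain ⟨z, hz⟩ := card_eq_one.1 h
          rw [hz, ← card_filter]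
          refine le_trans (card_le_card (t := {z}) ?_) (by simp)
          intro x hx
          have := (mem_filter.1 hx).2
          rw [mem_singleton]
          exact (singleton_injective this).symm
        · rw [if_neg h]
          refine le_of_eq (sum_eq_zero fun x _ => ?_)
          rw [if_neg]
          intro h2
          rw [h2] at h
          exact h (card_singleton x)

open Classical in
/-- pairs of subsets of `W` whose union contains `S` -/
lemma src_cover (W : Finset ℕ) (S : Finset ℕ) (hS : S ⊆ W) :
    3 ^ S.card * 4 ^ W.card ≤ 4 ^ S.card *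
      ((W.powerset ×ˢ W.powerset).filter (fun p => S ⊆ p.2 ∪ p.1)).card := by
  induction S using Finset.induction_on with
  | empty =>
    simp only [card_empty, pow_zero, one_mul, empty_subset, filter_true, card_product,
      card_powerset]
    rw [← mul_pow]
    norm_num
  | insert v S hv ih =>
    have ih := ih ((subset_insert v S).trans hS)
    have hvW : v ∈ W := hS (mem_insert_self v S)
    rw [card_insert_of_notMem hv, pow_succ, pow_succ]
    set F := (W.powerset ×ˢ W.powerset).filter (fun p => S ⊆ p.2 ∪ p.1) with hF
    set F' := (W.powerset ×ˢ W.powerset).filter (fun p => insert v S ⊆ p.2 ∪ p.1) with hF'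
    have h1 : 3 * F.card ≤ 4 * F'.card := by
      have hsub : F' ⊆ F := by
        intro p hp
        obtain ⟨h1, h2⟩ := mem_filter.1 hp
        exact mem_filter.2 ⟨h1, (subset_insert v S).trans h2⟩
      have h2 : (F \ F').card + F'.card = F.card := card_sdiff_add_card_eq_card hsub
      have h3 : 3 * (F \ F').card ≤ F'.card := by
        have e : 3 * (F \ F').card = ((range 3) ×ˢ (F \ F')).card := by
          rw [card_product, card_range]
        rw [e]
        refine card_le_card_of_injOn (fun p => (if p.1 = 1 then p.2.1 else insert v p.2.1,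
          if p.1 = 0 then p.2.2 else insert v p.2.2)) ?_ ?_
        · rintro ⟨i, A, B⟩ hp
          obtain ⟨hi, hp⟩ := mem_product.1 hp
          obtain ⟨hp1, hp2⟩ := mem_sdiff.1 hp
          obtain ⟨hp3, hp4⟩ := mem_filter.1 hp1
          obtain ⟨hA, hB⟩ := mem_product.1 hp3
          simp only [mem_powerset] at hA hB
          simp only at hp4
          refine mem_filter.2 ⟨mem_product.2 ⟨?_, ?_⟩, ?_⟩
          · simp only [mem_powerset]
            split_ifs
            · exact hA
            · exact insert_subset hvW hA
          · simp only [mem_powerset]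
            split_ifs
            · exact hB
            · exact insert_subset hvW hB
          · simp only
            have hS2 : S ⊆ (if i = 0 then B else insert v B) ∪
                (if i = 1 then A else insert v A) := by
              refine hp4.trans (union_subset_union ?_ ?_)
              · split_ifs
                · exact Subset.refl _
                · exact subset_insert _ _
              · split_ifs
                · exact Subset.refl _
                · exact subset_insert _ _
            refine insert_subset ?_ hS2
            rw [mem_union]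
            by_cases h0 : i = 0
            · right
              subst h0
              simp
            · left
              rw [if_neg h0]
              exact mem_insert_self _ _
        · rintro ⟨i, A, B⟩ hp ⟨i', A', B'⟩ hp' h
          have hmain : ∀ i A B, (i, A, B) ∈ ((range 3) ×ˢ (F \ F') : Finset _) →
              i < 3 ∧ v ∉ A ∧ v ∉ B := by
            intro i A B hp
            obtain ⟨hi, hp⟩ := mem_product.1 hp
            obtain ⟨hp1, hp2⟩ := mem_sdiff.1 hp
            obtain ⟨hp3, hp4⟩ := mem_filter.1 hp1
            refine ⟨mem_range.1 hi, ?_, ?_⟩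
            · intro hvA
              exact hp2 (mem_filter.2 ⟨hp3, insert_subset (mem_union_right _ hvA) hp4⟩)
            · intro hvB
              exact hp2 (mem_filter.2 ⟨hp3, insert_subset (mem_union_left _ hvB) hp4⟩)
          obtain ⟨hi, hA, hB⟩ := hmain i A B hp
          obtain ⟨hi', hA', hB'⟩ := hmain i' A' B' hp'
          simp only [Prod.mk.injEq] at h
          obtain ⟨e1, e2⟩ := h
          have m1 : (v ∈ if i = 1 then A else insert v A) ↔ i ≠ 1 := by
            by_cases h : i = 1
            · simp [h, hA]
            · simp [h]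
          have m1' : (v ∈ if i' = 1 then A' else insert v A') ↔ i' ≠ 1 := by
            by_cases h : i' = 1
            · simp [h, hA']
            · simp [h]
          have m2 : (v ∈ if i = 0 then B else insert v B) ↔ i ≠ 0 := by
            by_cases h : i = 0
            · simp [h, hB]
            · simp [h]
          have m2' : (v ∈ if i' = 0 then B' else insert v B') ↔ i' ≠ 0 := by
            by_cases h : i' = 0
            · simp [h, hB']
            · simp [h]
          rw [e1] at m1
          rw [e2] at m2
          have k1 : i ≠ 1 ↔ i' ≠ 1 := m1.symm.trans m1'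
          have k2 : i ≠ 0 ↔ i' ≠ 0 := m2.symm.trans m2'
          have hii : i = i' := by omega
          subst hii
          have hAA : A = A' := by
            have := congrArg (fun T => T.erase v) e1
            by_cases h : i = 1
            · simpa [h] using e1
            · simp only [h, if_false] at this
              rwa [erase_insert hA, erase_insert hA'] at this
          have hBB : B = B' := by
            have := congrArg (fun T => T.erase v) e2
            by_cases h : i = 0
            · simpa [h] using e2
            · simp only [h, if_false] at this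
              rwa [erase_insert hB, erase_insert hB'] at this
          rw [hAA, hBB]
      omega
    calc 3 ^ S.card * 3 * 4 ^ W.card = 3 * (3 ^ S.card * 4 ^ W.card) := by ring
      _ ≤ 3 * (4 ^ S.card * F.card) := Nat.mul_le_mul_left _ ih
      _ = 4 ^ S.card * (3 * F.card) := by ring
      _ ≤ 4 ^ S.card * (4 * F'.card) := Nat.mul_le_mul_left _ h1
      _ = 4 ^ S.card * 4 * F'.card := by ring

open Classical in
theorem src_two (n : ℕ) : (n + 2) * (n + 1) * 4 ^ n * a n ≤
    10 * ((cls (range (n + 2))).filter (fun G => (src (range (n + 2)) G).card = 2)).card := by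
  set V := range (n + 2) with hVdef
  have hV : V.card = n + 2 := card_range _
  have h1 : ∀ x ∈ V, ∀ y ∈ V.erase x, 27 * (4 ^ n * a n) ≤
      128 * ((cls V).filter (fun G => src V G = {x, y})).card := by
    intro x hx y hy
    have hyx : y ≠ x := (mem_erase.1 hy).1
    have e1 : (V.erase x).card = n + 1 := src_card_erase hx hV
    have e := src_card_erase hy e1
    have h2 := src_sum_two V x y hx hy (fun S => if S = {x, y} then 1 else 0)
    have h3 : ∑ G ∈ (cls V).filter (fun G => x ∈ src V G ∧ y ∈ src V G),
        (if src V G = {x, y} then 1 else 0) =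
        ((cls V).filter (fun G => src V G = {x, y})).card := by
      rw [← card_filter, filter_filter]
      congr 1
      ext G
      rw [mem_filter, mem_filter]
      refine and_congr_right fun _ => ⟨fun h => h.2, fun h => ⟨?_, h⟩⟩
      rw [h]; simp
    rw [← h3, h2]
    set W := (V.erase x).erase y with hW
    have hxW : x ∉ W := fun h => by simp [hW] at h
    have hyW : y ∉ W := fun h => by simp [hW] at h
    have h4 : ∀ K ∈ (cls W).filter (fun K => (src W K).card ≤ 3),
        27 * 4 ^ n ≤ 64 * ∑ B ∈ W.powerset, ∑ A ∈ W.powerset,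
          (if insert x (insert y (src W K \ B) \ A) = {x, y} then 1 else 0) := by
      intro K hK
      have hK3 := (mem_filter.1 hK).2
      have h5 := src_cover W (src W K) (src_sub W K)
      have h6 : ((W.powerset ×ˢ W.powerset).filter (fun p => src W K ⊆ p.2 ∪ p.1)).card ≤
          ∑ B ∈ W.powerset, ∑ A ∈ W.powerset,
          (if insert x (insert y (src W K \ B) \ A) = {x, y} then 1 else 0) := by
        rw [← sum_product (s := W.powerset) (t := W.powerset)
          (f := fun p => if insert x (insert y (src W K \ p.1) \ p.2) = {x, y} then 1 else 0),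
          ← card_filter]
        refine card_le_card ?_
        rintro ⟨B, A⟩ hp
        obtain ⟨h7, h8⟩ := mem_filter.1 hp
        refine mem_filter.2 ⟨h7, ?_⟩
        obtain ⟨hB, hA⟩ := mem_product.1 h7
        simp only [mem_powerset] at hB hA
        simp only at h8 ⊢
        ext z
        simp only [mem_insert, mem_sdiff, mem_singleton]
        constructor
        · rintro (h | ⟨h | ⟨h, h'⟩, h''⟩)
          · exact Or.inl h
          · exact Or.inr h
          · rcases mem_union.1 (h8 h) with h9 | h9
            · exact absurd h9 h''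
            · exact absurd h9 h'
        · rintro (h | h)
          · exact Or.inl h
          · right
            subst h
            exact ⟨Or.inl rfl, fun h => hyW (hA h)⟩
      have h7 : 27 * 4 ^ (src W K).card ≤ 64 * 3 ^ (src W K).card := by
        generalize (src W K).card = k at hK3
        interval_cases k <;> norm_num
      rw [e] at h5
      have h8 : 0 < 4 ^ (src W K).card := by positivity
      refine Nat.le_of_mul_le_mul_left ?_ h8
      calc 4 ^ (src W K).card * (27 * 4 ^ n) = (27 * 4 ^ (src W K).card) * 4 ^ n := by ring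
        _ ≤ (64 * 3 ^ (src W K).card) * 4 ^ n := Nat.mul_le_mul_right _ h7
        _ = 64 * (3 ^ (src W K).card * 4 ^ n) := by ring
        _ ≤ 64 * (4 ^ (src W K).card * _) := Nat.mul_le_mul_left _ h5
        _ ≤ 64 * (4 ^ (src W K).card * _) :=
            Nat.mul_le_mul_left _ (Nat.mul_le_mul_left _ h6)
        _ = _ := by ring
    have h5 := src_few W n e
    calc 27 * (4 ^ n * a n) ≤ 27 * (4 ^ n * (2 * ((cls W).filter
            (fun G => (src W G).card ≤ 3)).card)) :=
          Nat.mul_le_mul_left _ (Nat.mul_le_mul_left _ h5)
      _ = 2 * ∑ K ∈ (cls W).filter (fun K => (src W K).card ≤ 3), 27 * 4 ^ n := by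
          rw [sum_const, smul_eq_mul]; ring
      _ ≤ 2 * ∑ K ∈ (cls W).filter (fun K => (src W K).card ≤ 3),
            64 * ∑ B ∈ W.powerset, ∑ A ∈ W.powerset,
              (if insert x (insert y (src W K \ B) \ A) = {x, y} then 1 else 0) :=
          Nat.mul_le_mul_left _ (sum_le_sum h4)
      _ = 128 * ∑ K ∈ (cls W).filter (fun K => (src W K).card ≤ 3),
            ∑ B ∈ W.powerset, ∑ A ∈ W.powerset,
              (if insert x (insert y (src W K \ B) \ A) = {x, y} then 1 else 0) := by
          rw [← mul_sum]; ring
      _ ≤ _ := by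
          refine Nat.mul_le_mul_left _ ?_
          exact sum_le_sum_of_subset (filter_subset _ _)
  have h2 : ∑ x ∈ V, ∑ y ∈ V.erase x, ((cls V).filter (fun G => src V G = {x, y})).card ≤
      2 * ((cls V).filter (fun G => (src V G).card = 2)).card := by
    rw [card_filter, mul_sum]
    simp only [card_filter]
    have e3 : ∀ x ∈ V, ∑ y ∈ V.erase x, ∑ G ∈ cls V, (if src V G = {x, y} then 1 else 0) =
        ∑ G ∈ cls V, ∑ y ∈ V.erase x, (if src V G = {x, y} then 1 else 0) :=
      fun x _ => sum_comm
    rw [sum_congr rfl e3, sum_comm]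
    refine sum_le_sum fun G _ => ?_
    by_cases h : (src V G).card = 2
    · rw [if_pos h]
      calc ∑ x ∈ V, ∑ y ∈ V.erase x, (if src V G = {x, y} then 1 else 0)
          ≤ ∑ x ∈ V, (if x ∈ src V G then 1 else 0) := by
            refine sum_le_sum fun x hx => ?_
            by_cases hxs : x ∈ src V G
            · rw [if_pos hxs, ← card_filter, card_le_one]
              intro y hy z hz
              obtain ⟨hy1, hy2⟩ := mem_filter.1 hy
              obtain ⟨hz1, hz2⟩ := mem_filter.1 hz
              have : y ∈ ({x, z} : Finset ℕ) := by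
                rw [← hz2, hy2]; simp
              rw [mem_insert, mem_singleton] at this
              rcases this with h | h
              · exact absurd h (mem_erase.1 hy1).1
              · exact h
            · rw [if_neg hxs]
              refine le_of_eq (sum_eq_zero fun y _ => ?_)
              rw [if_neg]
              intro h2
              apply hxs
              rw [h2]; simp
        _ = (src V G).card := by
            rw [← card_filter]
            congr 1
            ext y
            rw [mem_filter]
            exact ⟨fun h => h.2, fun h => ⟨src_sub V G h, h⟩⟩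
        _ = 2 * 1 := by rw [h]
    · rw [if_neg h]
      refine le_of_eq (sum_eq_zero fun x _ => sum_eq_zero fun y hy => ?_)
      rw [if_neg]
      intro h2
      apply h
      rw [h2, card_pair (mem_erase.1 hy).1.symm]
  have h3 : (n + 2) * ((n + 1) * (27 * (4 ^ n * a n))) ≤
      128 * ∑ x ∈ V, ∑ y ∈ V.erase x, ((cls V).filter (fun G => src V G = {x, y})).card := by
    calc (n + 2) * ((n + 1) * (27 * (4 ^ n * a n))) =
          ∑ x ∈ V, ∑ y ∈ V.erase x, 27 * (4 ^ n * a n) := by
          rw [sum_congr rfl (g := fun _ => (n + 1) * (27 * (4 ^ n * a n))), sum_const, hV,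
            smul_eq_mul]
          intro x hx
          rw [sum_const, smul_eq_mul, src_card_erase hx hV]
      _ ≤ ∑ x ∈ V, ∑ y ∈ V.erase x,
            128 * ((cls V).filter (fun G => src V G = {x, y})).card :=
          sum_le_sum fun x hx => sum_le_sum fun y hy => h1 x hx y hy
      _ = _ := by
          simp only [mul_sum]
  have h4 : (n + 2) * ((n + 1) * (27 * (4 ^ n * a n))) =
      27 * ((n + 2) * (n + 1) * 4 ^ n * a n) := by ring
  rw [h4] at h3
  omega

end Pool.H47.D
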