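import Pool.Agent.H47.C3.Poly
import Pool.Agent.H47.C3.Bone
import Pool.Agent.H47.C3.Goodl
import Pool.Agent.H47.C3.Cont
import Pool.Agent.H47.C3.Btwo
import Pool.Agent.H47.C3.Bfour
import Pool.Agent.H47.C3.Match
import Pool.Agent.H47.C3.Exv
import Pool.Agent.H47.C3.Cases
import Pool.Agent.H47.C3.Att
import Pool.Agent.H47.C3.Closed
import Pool.Agent.H47.C3.Src
import Pool.Agent.H47.C3.Giant

set_option autoImplicit false

/-! The recursion for the number of `C3`-digraphs. -/

namespace Pool.H47.D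

open Finset Filter

lemma asm_good_mono {q s s' : ℕ} {V : Finset ℕ} {G : DG} (h : Good q s V G) (hs : s ≤ s') :
    Good q s' V G := fun R hR L hL hc => h R hR L hL (by omega)

lemma asm_ind_res {G : DG} {S A B : Finset ℕ} (hA : A ⊆ S) (hB : B ⊆ S) :
    Ind (res G S) A B ↔ Ind G A B := ind_res_iff hA hB

lemma asm_cut_res {m : ℕ} {S : Finset ℕ} {G : DG} (h : Cut m S G) : Cut m S (res G S) := by
  obtain ⟨L, hL, h1, h2, h3⟩ := h
  exact ⟨L, hL, h1, h2, h3.res⟩

lemma asm_giant_res {S : Finset ℕ} {G : DG} (h : Giant S G) : Giant S (res G S) := by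
  obtain ⟨L, I, O, R, h1, h2, h3, h4, h5⟩ := h
  exact ⟨L, I, O, R, h1, h2, h3.res, h4.res, h5⟩

open Classical in
/-- the typical digraphs -/
noncomputable def typ (l : ℕ) (V : Finset ℕ) : Finset DG :=
  (cls V).filter (fun G => ¬ Bad1 l V G ∧ ¬ Bad2 l V G ∧ ¬ Bad4 l (L4 l) V G)

open Classical in
lemma asm_typ (l : ℕ) (V : Finset ℕ) (hl : 2 * V.card + 1 ≤ 2 ^ l) (hl1 : 1 ≤ l) :
    13 * a V.card ≤ 16 * (typ l V).card := by
  have h1 := bad1_count l V hl
  have h2 := bad2_count l V hl hl1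
  have h4 := bad4_count l (L4 l) V hl
  have h : (cls V).card ≤ (typ l V).card + ((cls V).filter (Bad1 l V)).card +
      ((cls V).filter (fun G => ¬ Bad1 l V G ∧ Bad2 l V G)).card +
      ((cls V).filter (Bad4 l (L4 l) V)).card := by
    have hsub : cls V ⊆ ((typ l V ∪ (cls V).filter (Bad1 l V)) ∪
        (cls V).filter (fun G => ¬ Bad1 l V G ∧ Bad2 l V G)) ∪
        (cls V).filter (Bad4 l (L4 l) V) := by
      intro G hG
      simp only [typ, mem_union, mem_filter]
      tauto
    refine (card_le_card hsub).trans ?_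
    refine (card_union_le _ _).trans ?_
    refine Nat.add_le_add_right ?_ _
    refine (card_union_le _ _).trans ?_
    refine Nat.add_le_add_right ?_ _
    exact card_union_le _ _
  rw [card_cls] at h
  omega

/-- structure of typical digraphs -/
lemma asm_struct (l : ℕ) (V : Finset ℕ) (hl : 2 * V.card + 1 ≤ 2 ^ l) (hl1 : 1 ≤ l)
    (hV : V.Nonempty) (d : ℕ) (hd : 64 * q l * d ≤ V.card) (hs : 4 * sw l ≤ V.card)
    (hd8 : 8 * (La l + ww l + q l) ≤ d) (G : DG) (hG : G ∈ typ l V) :
    ∃ E ⊆ V, E.card ≤ ww l ∧ (Cut (d / 8) (V \ E) G ∨ Giant (V \ E) G) := by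
  classical
  obtain ⟨hGV, hB1, hB2, hB4⟩ := mem_filter.1 hG
  have hq : 1 ≤ q l := by unfold q; exact Nat.mul_pos (by norm_num) (by positivity)
  have hgood : Good (q l) (sw l) V G := by
    have := good_of_not_bad l V G hl hl1 hB1 ∅ (empty_subset _)
    rw [sdiff_empty, card_empty] at this
    refine asm_good_mono this ?_
    unfold sw; omega
  obtain ⟨v, hv, h1, h2⟩ := exists_macro (q l) (sw l) d V G hGV hV hgood hs hd hq
  obtain ⟨R, hR, L, hL, hI, h3, h4, h5, h6⟩ := pair l V G hB2 v hv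
  have hR' : d ≤ R.card + La l := by
    have := card_le_card (show out G v ⊆ (out G v \ R) ∪ R from fun x hx => by
      by_cases h : x ∈ R
      · exact mem_union_right _ h
      · exact mem_union_left _ (mem_sdiff.2 ⟨hx, h⟩))
    have h7 := card_union_le (out G v \ R) R
    omega
  have hL' : d ≤ L.card + La l := by
    have := card_le_card (show inn G v ⊆ (inn G v \ L) ∪ L from fun x hx => by
      by_cases h : x ∈ L
      · exact mem_union_right _ h
      · exact mem_union_left _ (mem_sdiff.2 ⟨hx, h⟩))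
    have h7 := card_union_le (inn G v \ L) L
    omega
  refine cases_one l d V G hGV hl hl1 hB1 hB4 R L (hR.trans (erase_subset _ _))
    (hL.trans (erase_subset _ _)) hI h3 h4 hR' hL' hd8 ?_
  calc 4 * d ≤ 64 * q l * d := Nat.mul_le_mul_right _ (by omega)
    _ ≤ V.card := hd

open Classical in
/-- upper bound for the number of typical digraphs -/
lemma asm_upper (l : ℕ) (V : Finset ℕ) (hl : 2 * V.card + 1 ≤ 2 ^ l) (hl1 : 1 ≤ l)
    (hV : V.Nonempty) (d : ℕ) (hd : 64 * q l * d ≤ V.card) (hs : 4 * sw l ≤ V.card)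
    (hd8 : 8 * (La l + ww l + q l) ≤ d) :
    (typ l V).card ≤ ∑ E ∈ V.powerset.filter (fun E => E.card ≤ ww l),
      (((cls (V \ E)).filter (Cut (d / 8) (V \ E))).card +
        ((cls (V \ E)).filter (Giant (V \ E))).card) * (2 ^ (V.card + ge l)) ^ E.card := by
  have hsub : typ l V ⊆ (V.powerset.filter (fun E => E.card ≤ ww l)).biUnion (fun E =>
      (cls V).filter (fun G => res G (V \ E) ∈ ((cls (V \ E)).filter (Cut (d / 8) (V \ E))) ∪
        ((cls (V \ E)).filter (Giant (V \ E))) ∧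
      ∀ Z ⊆ E, Z.Nonempty → (ip G (V \ Z) (V \ Z)).card ≤ 2 ^ (V.card + ge l))) := by
    intro G hG
    obtain ⟨E, hE, hEw, hc⟩ := asm_struct l V hl hl1 hV d hd hs hd8 G hG
    obtain ⟨hGV, hB1, hB2, hB4⟩ := mem_filter.1 hG
    refine mem_biUnion.2 ⟨E, mem_filter.2 ⟨mem_powerset.2 hE, hEw⟩, ?_⟩
    refine mem_filter.2 ⟨hGV, ?_, ?_⟩
    · rw [mem_union, mem_filter, mem_filter]
      rcases hc with hc | hc
      · exact Or.inl ⟨res_mem_cls hGV, asm_cut_res hc⟩
      · exact Or.inr ⟨res_mem_cls hGV, asm_giant_res hc⟩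
    · intro Z hZ _
      have hZV : Z ⊆ V := hZ.trans hE
      have hZw : Z.card ≤ ww l := (card_le_card hZ).trans hEw
      have hg := good_of_not_bad l V G hl hl1 hB1 Z hZV
      have hcard : (V \ Z).card ≤ V.card := card_le_card sdiff_subset
      have hq : 1 ≤ q l := by unfold q; exact Nat.mul_pos (by norm_num) (by positivity)
      have hg' : Good (q l) (sw l) (V \ Z) G := asm_good_mono hg (by unfold sw; omega)
      refine (card_ip_good (q l) (sw l) l (V \ Z) G hq (by unfold sw; omega) (by omega)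
        hg').trans ?_
      refine Nat.pow_le_pow_right two_pos ?_
      unfold ge; omega
  refine (card_le_card hsub).trans (card_biUnion_le.trans ?_)
  refine sum_le_sum fun E hE => ?_
  refine (attach _ V E (mem_powerset.1 (mem_filter.1 hE).1) _).trans ?_
  exact Nat.mul_le_mul_right _ (card_union_le _ _)

/-- number of small subsets -/
lemma asm_small (V : Finset ℕ) (w : ℕ) :
    (V.powerset.filter (fun E => E.card ≤ w)).card ≤ (V.card + 1) ^ w := by
  classical
  induction w with
  | zero =>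
    rw [pow_zero, card_le_one]
    intro A hA B hB
    have h1 := (mem_filter.1 hA).2
    have h2 := (mem_filter.1 hB).2
    rw [Nat.le_zero, card_eq_zero] at h1 h2
    rw [h1, h2]
  | succ w ih =>
    have hsub : V.powerset.filter (fun E => E.card ≤ w + 1) ⊆
        (insertNone V ×ˢ V.powerset.filter (fun E => E.card ≤ w)).image
          (fun p => match p.1 with
            | none => p.2
            | some x => insert x p.2) := by
      intro E hE
      obtain ⟨h1, h2⟩ := mem_filter.1 hE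
      rw [mem_powerset] at h1
      rcases E.eq_empty_or_nonempty with rfl | ⟨x, hx⟩
      · refine mem_image.2 ⟨(none, ∅), ?_, rfl⟩
        exact mem_product.2 ⟨by simp, mem_filter.2 ⟨by simp, by simp⟩⟩
      · refine mem_image.2 ⟨(some x, E.erase x), ?_, insert_erase hx⟩
        refine mem_product.2 ⟨by simpa using h1 hx, mem_filter.2 ⟨?_, ?_⟩⟩
        · exact mem_powerset.2 ((erase_subset _ _).trans h1)
        · change (E.erase x).card ≤ w
          rw [card_erase_of_mem hx]; omega
    refine (card_le_card hsub).trans (card_image_le.trans ?_)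
    rw [card_product, card_insertNone, pow_succ, mul_comm]
    exact Nat.mul_le_mul_right _ ih

open Classical in
/-- digraphs with a balanced closed set -/
lemma asm_cut_count (m : ℕ) (S : Finset ℕ) :
    ((cls S).filter (Cut m S)).card ≤ ∑ L ∈ S.powerset.filter (fun L => m ≤ L.card ∧
      m ≤ (S \ L).card), a L.card * a (S \ L).card * 2 ^ (L.card * (S \ L).card) := by
  have hsub : (cls S).filter (Cut m S) ⊆ (S.powerset.filter (fun L => m ≤ L.card ∧
      m ≤ (S \ L).card)).biUnion (fun L => (cls (L ∪ (S \ L))).filter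
        (fun G => Ind G (S \ L) L)) := by
    intro G hG
    obtain ⟨h1, L, hL, h2, h3, h4⟩ := mem_filter.1 hG
    refine mem_biUnion.2 ⟨L, mem_filter.2 ⟨mem_powerset.2 hL, h2, h3⟩, mem_filter.2 ⟨?_, h4⟩⟩
    rw [union_sdiff_of_subset hL]; exact h1
  refine (card_le_card hsub).trans (card_biUnion_le.trans ?_)
  refine sum_le_sum fun L _ => ?_
  rw [card_closed L (S \ L) disjoint_sdiff]

/-- the contribution of one exceptional set, closed cuts -/
lemma asm_cut_term (w : ℕ) (V E L : Finset ℕ) (hE : E ⊆ V) (hEw : E.card ≤ w)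
    (hL : L ⊆ V \ E) (g : ℕ) :
    a L.card * a ((V \ E) \ L).card * 2 ^ (L.card * ((V \ E) \ L).card) *
      (2 ^ (V.card + g)) ^ E.card ≤
    2 ^ (w ^ 2 + g * w) * (a L.card * a (V.card - L.card) * 2 ^ (L.card * (V.card - L.card))) := by
  have h1 : ((V \ E) \ L).card + L.card + E.card = V.card := by
    rw [card_sdiff_of_subset hL, card_sdiff_of_subset hE]
    have h2 := card_le_card hE
    have h3 := card_le_card hL
    rw [card_sdiff_of_subset hE] at h3
    omega
  set k := L.card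
  set e := E.card
  set r := ((V \ E) \ L).card
  rw [← h1]
  have h2 : r + k + e - k = r + e := by omega
  rw [h2]
  have h3 := a_add_ge r e
  have h4 : (2 ^ (r + k + e + g)) ^ e * 2 ^ (k * r) ≤
      2 ^ (w ^ 2 + g * w) * 2 ^ (k * (r + e)) * 2 ^ (r * e) := by
    rw [← pow_mul, ← pow_add, ← pow_add, ← pow_add]
    refine Nat.pow_le_pow_right two_pos ?_
    have : e * e + g * e ≤ w ^ 2 + g * w := by nlinarith [Nat.mul_le_mul hEw hEw]
    nlinarith
  calc a k * a r * 2 ^ (k * r) * (2 ^ (r + k + e + g)) ^ e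
      = a k * a r * ((2 ^ (r + k + e + g)) ^ e * 2 ^ (k * r)) := by ring
    _ ≤ a k * a r * (2 ^ (w ^ 2 + g * w) * 2 ^ (k * (r + e)) * 2 ^ (r * e)) :=
        Nat.mul_le_mul_left _ h4
    _ = 2 ^ (w ^ 2 + g * w) * (a k * (2 ^ (r * e) * a r) * 2 ^ (k * (r + e))) := by ring
    _ ≤ _ := by gcongr

open Classical in
/-- total contribution of closed cuts -/
lemma asm_cut_total (l m w g : ℕ) (V : Finset ℕ) (hl : 2 * V.card + 1 ≤ 2 ^ l) :
    ∑ E ∈ V.powerset.filter (fun E => E.card ≤ w),
      ((cls (V \ E)).filter (Cut m (V \ E))).card * (2 ^ (V.card + g)) ^ E.card ≤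
    2 ^ (l * w + w ^ 2 + g * w) * ∑ k ∈ (range (V.card + 1)).filter (fun k => m ≤ k ∧
        m ≤ V.card - k), V.card.choose k * (a k * a (V.card - k) * 2 ^ (k * (V.card - k))) := by
  set F : ℕ → ℕ := fun k => if m ≤ k ∧ m ≤ V.card - k then
    a k * a (V.card - k) * 2 ^ (k * (V.card - k)) else 0 with hF
  have h1 : ∀ E ∈ V.powerset.filter (fun E => E.card ≤ w),
      ((cls (V \ E)).filter (Cut m (V \ E))).card * (2 ^ (V.card + g)) ^ E.card ≤
      2 ^ (w ^ 2 + g * w) * ∑ L ∈ V.powerset, F L.card := by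
    intro E hE
    obtain ⟨hE1, hE2⟩ := mem_filter.1 hE
    rw [mem_powerset] at hE1
    calc _ ≤ (∑ L ∈ (V \ E).powerset.filter (fun L => m ≤ L.card ∧
      m ≤ ((V \ E) \ L).card), a L.card * a ((V \ E) \ L).card *
        2 ^ (L.card * ((V \ E) \ L).card)) * (2 ^ (V.card + g)) ^ E.card :=
          Nat.mul_le_mul_right _ (asm_cut_count m (V \ E))
      _ = ∑ L ∈ (V \ E).powerset.filter (fun L => m ≤ L.card ∧
      m ≤ ((V \ E) \ L).card), a L.card * a ((V \ E) \ L).card *
        2 ^ (L.card * ((V \ E) \ L).card) * (2 ^ (V.card + g)) ^ E.card := by rw [sum_mul]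
      _ ≤ ∑ L ∈ (V \ E).powerset.filter (fun L => m ≤ L.card ∧
      m ≤ ((V \ E) \ L).card), 2 ^ (w ^ 2 + g * w) * F L.card := by
          refine sum_le_sum fun L hL => ?_
          obtain ⟨hL1, hL2, hL3⟩ := mem_filter.1 hL
          rw [mem_powerset] at hL1
          have hcard : ((V \ E) \ L).card ≤ V.card - L.card := by
            rw [card_sdiff_of_subset hL1]
            have := card_le_card (sdiff_subset : V \ E ⊆ V)
            omega
          have : F L.card = a L.card * a (V.card - L.card) * 2 ^ (L.card * (V.card - L.card)) := by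
            rw [hF]; exact if_pos ⟨hL2, hL3.trans hcard⟩
          rw [this]
          exact asm_cut_term w V E L hE1 hE2 hL1 g
      _ ≤ ∑ L ∈ V.powerset, 2 ^ (w ^ 2 + g * w) * F L.card := by
          refine sum_le_sum_of_subset ?_
          intro L hL
          exact mem_powerset.2 ((mem_powerset.1 (mem_filter.1 hL).1).trans sdiff_subset)
      _ = _ := by rw [mul_sum]
  refine (sum_le_sum h1).trans ?_
  rw [sum_const, smul_eq_mul, sum_powerset_apply_card]
  have h2 : (V.powerset.filter (fun E => E.card ≤ w)).card ≤ 2 ^ (l * w) := by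
    refine (asm_small V w).trans ?_
    rw [pow_mul]
    exact Nat.pow_le_pow_left (by omega) _
  have h3 : ∑ k ∈ range (V.card + 1), V.card.choose k • F k =
      ∑ k ∈ (range (V.card + 1)).filter (fun k => m ≤ k ∧
        m ≤ V.card - k), V.card.choose k * (a k * a (V.card - k) * 2 ^ (k * (V.card - k))) := by
    rw [sum_filter]
    refine sum_congr rfl fun k _ => ?_
    rw [hF, smul_eq_mul]
    beta_reduce
    split_ifs
    · rfl
    · rw [mul_zero]
  rw [h3]
  refine (Nat.mul_le_mul_right _ h2).trans (le_of_eq ?_)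
  rw [← mul_assoc, ← pow_add, add_assoc]

open Classical in
/-- total contribution of giant clusters -/
lemma asm_giant_total (l w g N₀ : ℕ) (V : Finset ℕ) (hl : 2 * V.card + 1 ≤ 2 ^ l)
    (hg : ∀ S : Finset ℕ, N₀ ≤ S.card → ((cls S).filter (Giant S)).card * 2 ^ S.card ≤ a S.card)
    (hn : N₀ + w ≤ V.card) (hn2 : l * w + g * w + w ^ 2 + w + 4 ≤ V.card) :
    16 * ∑ E ∈ V.powerset.filter (fun E => E.card ≤ w),
      ((cls (V \ E)).filter (Giant (V \ E))).card * (2 ^ (V.card + g)) ^ E.card ≤ a V.card := by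
  have h1 : ∀ E ∈ V.powerset.filter (fun E => E.card ≤ w),
      ((cls (V \ E)).filter (Giant (V \ E))).card * (2 ^ (V.card + g)) ^ E.card * 2 ^ V.card ≤
      2 ^ (g * w + w ^ 2 + w) * a V.card := by
    intro E hE
    obtain ⟨hE1, hE2⟩ := mem_filter.1 hE
    rw [mem_powerset] at hE1
    have hc := card_sdiff_of_subset hE1
    have hle := card_le_card hE1
    have h2 := hg (V \ E) (by omega)
    have h3 := a_add_ge (V \ E).card E.card
    have h4 : (V \ E).card + E.card = V.card := by omega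
    rw [h4] at h3
    set x := ((cls (V \ E)).filter (Giant (V \ E))).card
    set r := (V \ E).card
    set e := E.card
    rw [← h4] at h3 ⊢
    have h5 : (2 ^ (r + e + g)) ^ e * 2 ^ (r + e) ≤ 2 ^ (g * w + w ^ 2 + w) * (2 ^ r * 2 ^ (r * e)) := by
      rw [← pow_mul, ← pow_add, ← pow_add, ← pow_add]
      refine Nat.pow_le_pow_right two_pos ?_
      have : e * e + g * e + e ≤ w ^ 2 + g * w + w := by nlinarith [Nat.mul_le_mul hE2 hE2]
      nlinarith
    calc x * (2 ^ (r + e + g)) ^ e * 2 ^ (r + e)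
        = x * ((2 ^ (r + e + g)) ^ e * 2 ^ (r + e)) := by ring
      _ ≤ x * (2 ^ (g * w + w ^ 2 + w) * (2 ^ r * 2 ^ (r * e))) := Nat.mul_le_mul_left _ h5
      _ = 2 ^ (g * w + w ^ 2 + w) * (2 ^ (r * e) * (x * 2 ^ r)) := by ring
      _ ≤ 2 ^ (g * w + w ^ 2 + w) * (2 ^ (r * e) * a r) := by gcongr
      _ ≤ 2 ^ (g * w + w ^ 2 + w) * a (r + e) := by gcongr
  have h2 : (V.powerset.filter (fun E => E.card ≤ w)).card ≤ 2 ^ (l * w) := by
    refine (asm_small V w).trans ?_
    rw [pow_mul]
    exact Nat.pow_le_pow_left (by omega) _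
  have h3 := sum_le_sum h1
  rw [← sum_mul, sum_const, smul_eq_mul] at h3
  set X := ∑ E ∈ V.powerset.filter (fun E => E.card ≤ w),
      ((cls (V \ E)).filter (Giant (V \ E))).card * (2 ^ (V.card + g)) ^ E.card
  have h4 : X * 2 ^ V.card ≤ 2 ^ (l * w + g * w + w ^ 2 + w) * a V.card := by
    refine h3.trans ((Nat.mul_le_mul_right _ h2).trans (le_of_eq ?_))
    rw [← mul_assoc, ← pow_add]
    congr 2
    ring
  have h5 : 2 ^ (l * w + g * w + w ^ 2 + w) * 16 ≤ 2 ^ V.card := by
    calc 2 ^ (l * w + g * w + w ^ 2 + w) * 16 = 2 ^ (l * w + g * w + w ^ 2 + w + 4) := by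
          rw [pow_add _ _ 4]; norm_num
      _ ≤ _ := Nat.pow_le_pow_right two_pos hn2
  have h6 : 16 * X * 2 ^ (l * w + g * w + w ^ 2 + w) ≤
      a V.card * 2 ^ (l * w + g * w + w ^ 2 + w) := by
    calc 16 * X * 2 ^ (l * w + g * w + w ^ 2 + w) = X * (2 ^ (l * w + g * w + w ^ 2 + w) * 16) := by
          ring
      _ ≤ X * 2 ^ V.card := Nat.mul_le_mul_left _ h5
      _ ≤ _ := by rw [mul_comm (a V.card)]; exact h4
  exact Nat.le_of_mul_le_mul_right h6 (by positivity)

theorem recursion : ∃ N₀ : ℕ, ∀ n ≥ N₀,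
    a n ≤ 2 ^ gg (lam n) *
      ∑ k ∈ (range (n + 1)).filter (fun k => n / (64 * q (lam n)) / 8 ≤ k ∧
        n / (64 * q (lam n)) / 8 ≤ n - k), n.choose k * (a k * a (n - k) * 2 ^ (k * (n - k))) := by
  classical
  obtain ⟨N₀, hN₀⟩ := giant_count_of a_succ_ge_two
  have e1 := pb_lam_le ((PB.const N₀).add pb_ww)
  have e2 := pb_lam_le (((((PB.id.mul pb_ww).add (pb_ge.mul pb_ww)).add (pb_ww.pow 2)).add
    pb_ww).add (PB.const 4))
  have e3 := pb_lam_le ((PB.const 4).mul pb_sw)
  have e4 := pb_lam_le (((PB.const 64).mul pb_q).mul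
    ((PB.const 8).mul ((pb_La.add pb_ww).add pb_q)))
  obtain ⟨N, hN⟩ := eventually_atTop.1 (((e1.and e2).and (e3.and e4)).and (eventually_ge_atTop 1))
  refine ⟨N, fun n hn => ?_⟩
  obtain ⟨⟨⟨h1, h2⟩, h3, h4⟩, h5⟩ := hN n hn
  set l := lam n with hldef
  have hl : 2 * n + 1 ≤ 2 ^ l := le_lam n
  have hl1 : 1 ≤ l := lam_pos h5
  have hq : 1 ≤ q l := by unfold q; exact Nat.mul_pos (by norm_num) (by positivity)
  set d := n / (64 * q l) with hd
  have hVc : (range n).card = n := card_range n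
  have hlV : 2 * (range n).card + 1 ≤ 2 ^ l := by rw [hVc]; exact hl
  have hVne : (range n).Nonempty := by rw [nonempty_range_iff]; omega
  have hd1 : 64 * q l * d ≤ (range n).card := by
    rw [hVc]; exact Nat.mul_div_le n (64 * q l)
  have hd8 : 8 * (La l + ww l + q l) ≤ d := by
    rw [hd, Nat.le_div_iff_mul_le (by positivity), mul_comm]; exact h4
  have hs : 4 * sw l ≤ (range n).card := by rw [hVc]; exact h3
  have k1 := asm_typ l (range n) hlV hl1
  have k2 := asm_upper l (range n) hlV hl1 hVne d hd1 hs hd8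
  have k3 := asm_cut_total l (d / 8) (ww l) (ge l) (range n) hlV
  have k4 := asm_giant_total l (ww l) (ge l) N₀ (range n) hlV hN₀ (by rw [hVc]; exact h1)
    (by rw [hVc]; exact h2)
  simp only [add_mul, sum_add_distrib] at k2
  rw [hVc] at k1 k2 k3 k4
  set S := ∑ k ∈ (range (n + 1)).filter (fun k => d / 8 ≤ k ∧ d / 8 ≤ n - k),
    n.choose k * (a k * a (n - k) * 2 ^ (k * (n - k)))
  have e : 2 ^ gg l = 2 * 2 ^ (l * ww l + ww l ^ 2 + ge l * ww l) := by
    unfold gg; rw [pow_succ, mul_comm]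
  rw [e]
  have k5 : 12 * a n ≤ 16 * (2 ^ (l * ww l + ww l ^ 2 + ge l * ww l) * S) := by
    omega
  nlinarith
end Pool.H47.D
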