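import Mathlib

set_option autoImplicit false

/-! Labelled digraphs without closed directed walks of length three: basic definitions and
counting lemmas.  Digraphs are finite sets of ordered pairs of natural numbers. -/

namespace Pool.H47.D

open Finset

/-- digraphs (edge sets) -/
abbrev DG := Finset (ℕ × ℕ)

/-- no closed directed walk of length three (so no loop and no directed triangle) -/
def C3 (G : DG) : Prop := ∀ u v w, (u, v) ∈ G → (v, w) ∈ G → (w, u) ∉ G

/-- out-neighbours -/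
def out (G : DG) (x : ℕ) : Finset ℕ := (G.filter (fun e => e.1 = x)).image Prod.snd

/-- in-neighbours -/
def inn (G : DG) (x : ℕ) : Finset ℕ := (G.filter (fun e => e.2 = x)).image Prod.fst

/-- induced subgraph -/
def res (G : DG) (S : Finset ℕ) : DG := G.filter (fun e => e.1 ∈ S ∧ e.2 ∈ S)

open Classical in
/-- all `C3`-digraphs on the vertex set `S` -/
noncomputable def cls (S : Finset ℕ) : Finset DG := (S ×ˢ S).powerset.filter C3

/-- number of `C3`-digraphs on `n` labelled vertices -/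
noncomputable def a (n : ℕ) : ℕ := (cls (range n)).card

/-- no edge from `A` to `B` -/
def Ind (G : DG) (A B : Finset ℕ) : Prop := ∀ x ∈ A, ∀ y ∈ B, (x, y) ∉ G

open Classical in
/-- independent pairs of `G` inside `(R, L)` -/
noncomputable def ip (G : DG) (R L : Finset ℕ) : Finset (Finset ℕ × Finset ℕ) :=
  (R.powerset ×ˢ L.powerset).filter (fun p => Ind G p.1 p.2)

/-- adding the vertex `x` with out-neighbours `A` and in-neighbours `B` -/
def ext (H : DG) (x : ℕ) (A B : Finset ℕ) : DG :=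
  H ∪ A.image (fun y => (x, y)) ∪ B.image (fun y => (y, x))

@[simp] lemma mem_out {G : DG} {x y : ℕ} : y ∈ out G x ↔ (x, y) ∈ G := by
  simp [out]

@[simp] lemma mem_inn {G : DG} {x y : ℕ} : y ∈ inn G x ↔ (y, x) ∈ G := by
  simp [inn]

@[simp] lemma mem_res {G : DG} {S : Finset ℕ} {e : ℕ × ℕ} :
    e ∈ res G S ↔ e ∈ G ∧ e.1 ∈ S ∧ e.2 ∈ S := by simp [res]

open Classical in
lemma mem_cls {S : Finset ℕ} {G : DG} : G ∈ cls S ↔ (∀ e ∈ G, e.1 ∈ S ∧ e.2 ∈ S) ∧ C3 G := by
  unfold cls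
  rw [mem_filter, mem_powerset]
  refine and_congr_left fun _ => ?_
  constructor
  · intro h e he
    exact mem_product.1 (h he)
  · intro h e he
    exact mem_product.2 (h e he)

open Classical in
lemma mem_ip {G : DG} {R L A B : Finset ℕ} : (A, B) ∈ ip G R L ↔ A ⊆ R ∧ B ⊆ L ∧ Ind G A B := by
  unfold ip
  rw [mem_filter, mem_product, mem_powerset, mem_powerset]
  exact and_assoc

@[simp] lemma mem_ext {H : DG} {x : ℕ} {A B : Finset ℕ} {u v : ℕ} :
    (u, v) ∈ ext H x A B ↔ (u, v) ∈ H ∨ (u = x ∧ v ∈ A) ∨ (v = x ∧ u ∈ B) := by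
  unfold ext
  simp only [mem_union, mem_image, Prod.mk.injEq]
  constructor
  · rintro ((h | ⟨y, hy, rfl, rfl⟩) | ⟨y, hy, rfl, rfl⟩)
    · exact Or.inl h
    · exact Or.inr (Or.inl ⟨rfl, hy⟩)
    · exact Or.inr (Or.inr ⟨rfl, hy⟩)
  · rintro (h | ⟨rfl, hv⟩ | ⟨rfl, hu⟩)
    · exact Or.inl (Or.inl h)
    · exact Or.inl (Or.inr ⟨v, hv, rfl, rfl⟩)
    · exact Or.inr ⟨u, hu, rfl, rfl⟩

lemma C3.no_loop {G : DG} (h : C3 G) (x : ℕ) : (x, x) ∉ G := fun hx => h x x x hx hx hx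

lemma C3.mono {G H : DG} (h : C3 G) (hH : H ⊆ G) : C3 H :=
  fun u v w h1 h2 h3 => h u v w (hH h1) (hH h2) (hH h3)

lemma res_subset (G : DG) (S : Finset ℕ) : res G S ⊆ G := filter_subset _ _

lemma res_mem_cls {V S : Finset ℕ} {G : DG} (hG : G ∈ cls V) : res G S ∈ cls S := by
  rw [mem_cls] at hG ⊢
  exact ⟨fun e he => (mem_res.1 he).2, hG.2.mono (res_subset _ _)⟩

lemma res_res {G : DG} {S T : Finset ℕ} (h : S ⊆ T) : res (res G T) S = res G S := by
  ext e
  simp only [mem_res]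
  constructor
  · rintro ⟨⟨h1, _⟩, h2⟩; exact ⟨h1, h2⟩
  · rintro ⟨h1, h2, h3⟩; exact ⟨⟨h1, h h2, h h3⟩, h2, h3⟩

lemma res_self {V : Finset ℕ} {G : DG} (hG : G ∈ cls V) : res G V = G := by
  rw [mem_cls] at hG
  ext e
  rw [mem_res]
  exact ⟨fun h => h.1, fun h => ⟨h, hG.1 e h⟩⟩

lemma out_subset {V : Finset ℕ} {G : DG} (hG : G ∈ cls V) (x : ℕ) : out G x ⊆ V.erase x := by
  intro y hy
  rw [mem_out] at hy
  rw [mem_cls] at hG
  refine mem_erase.2 ⟨?_, (hG.1 _ hy).2⟩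
  rintro rfl
  exact hG.2.no_loop _ hy

lemma inn_subset {V : Finset ℕ} {G : DG} (hG : G ∈ cls V) (x : ℕ) : inn G x ⊆ V.erase x := by
  intro y hy
  rw [mem_inn] at hy
  rw [mem_cls] at hG
  refine mem_erase.2 ⟨?_, (hG.1 _ hy).1⟩
  rintro rfl
  exact hG.2.no_loop _ hy

lemma ind_nbhd {V : Finset ℕ} {G : DG} (hG : G ∈ cls V) (x : ℕ) : Ind G (out G x) (inn G x) := by
  rw [mem_cls] at hG
  intro u hu v hv huv
  exact hG.2 x u v (mem_out.1 hu) huv (mem_inn.1 hv)

lemma Ind.mono {G : DG} {A B A' B' : Finset ℕ} (h : Ind G A B) (hA : A' ⊆ A) (hB : B' ⊆ B) :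
    Ind G A' B' := fun x hx y hy => h x (hA hx) y (hB hy)

lemma Ind.res {G : DG} {A B S : Finset ℕ} (h : Ind G A B) : Ind (res G S) A B :=
  fun x hx y hy hxy => h x hx y hy (mem_res.1 hxy).1

lemma ind_res_iff {G : DG} {A B S : Finset ℕ} (hA : A ⊆ S) (hB : B ⊆ S) :
    Ind (Pool.H47.D.res G S) A B ↔ Ind G A B :=
  ⟨fun h x hx y hy hxy => h x hx y hy (mem_res.2 ⟨hxy, hA hx, hB hy⟩), fun h => h.res⟩

lemma ext_decomp {V : Finset ℕ} {G : DG} (hG : G ∈ cls V) (x : ℕ) :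
    Pool.H47.D.ext (res G (V.erase x)) x (out G x) (inn G x) = G := by
  have h1 := (mem_cls.1 hG).1
  have h2 := (mem_cls.1 hG).2
  ext ⟨u, v⟩
  rw [mem_ext, mem_res, mem_out, mem_inn]
  constructor
  · rintro (h | ⟨rfl, h⟩ | ⟨rfl, h⟩)
    · exact h.1
    · exact h
    · exact h
  · intro h
    by_cases hu : u = x
    · subst hu; exact Or.inr (Or.inl ⟨rfl, h⟩)
    · by_cases hv : v = x
      · subst hv; exact Or.inr (Or.inr ⟨rfl, h⟩)
      · have := h1 _ h
        exact Or.inl ⟨h, mem_erase.2 ⟨hu, this.1⟩, mem_erase.2 ⟨hv, this.2⟩⟩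

lemma ext_mem_cls {V : Finset ℕ} {x : ℕ} {H : DG} {A B : Finset ℕ} (hx : x ∈ V)
    (hH : H ∈ cls (V.erase x)) (hA : A ⊆ V.erase x) (hB : B ⊆ V.erase x) (hI : Ind H A B) :
    Pool.H47.D.ext H x A B ∈ cls V := by
  rw [mem_cls] at hH ⊢
  obtain ⟨h1, h2⟩ := hH
  have hxH1 : ∀ y, (x, y) ∉ H := fun y hy => by simpa using (h1 _ hy).1
  have hxH2 : ∀ y, (y, x) ∉ H := fun y hy => by simpa using (h1 _ hy).2
  have hxA : x ∉ A := fun h => by simpa using hA h
  have hxB : x ∉ B := fun h => by simpa using hB h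
  constructor
  · rintro ⟨u, v⟩ he
    rw [mem_ext] at he
    rcases he with h | ⟨rfl, h⟩ | ⟨rfl, h⟩
    · exact ⟨(mem_erase.1 (h1 _ h).1).2, (mem_erase.1 (h1 _ h).2).2⟩
    · exact ⟨hx, (mem_erase.1 (hA h)).2⟩
    · exact ⟨(mem_erase.1 (hB h)).2, hx⟩
  · intro u v w huv hvw hwu
    rw [mem_ext] at huv hvw hwu
    rcases huv with huv | ⟨rfl, huv⟩ | ⟨rfl, huv⟩
    · rcases hvw with hvw | ⟨rfl, hvw⟩ | ⟨rfl, hvw⟩
      · rcases hwu with hwu | ⟨rfl, hwu⟩ | ⟨rfl, hwu⟩
        · exact h2 u v w huv hvw hwu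
        · exact hxH2 _ hvw
        · exact hxH1 _ huv
      · exact hxH2 _ huv
      · rcases hwu with hwu | ⟨_, hwu⟩ | ⟨rfl, hwu⟩
        · exact hxH1 _ hwu
        · exact hI u hwu v hvw huv
        · exact hxH1 _ huv
    · rcases hvw with hvw | ⟨rfl, hvw⟩ | ⟨rfl, hvw⟩
      · rcases hwu with hwu | ⟨rfl, hwu⟩ | ⟨_, hwu⟩
        · exact hxH2 _ hwu
        · exact hxH2 _ hvw
        · exact hI v huv w hwu hvw
      · exact hxA huv
      · rcases hwu with hwu | ⟨_, hwu⟩ | ⟨_, hwu⟩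
        · exact hxH2 _ hwu
        · exact hxA hwu
        · exact hxB hwu
    · rcases hvw with hvw | ⟨_, hvw⟩ | ⟨rfl, hvw⟩
      · exact hxH1 _ hvw
      · rcases hwu with hwu | ⟨rfl, hwu⟩ | ⟨rfl, hwu⟩
        · exact hI w hvw u huv hwu
        · exact hxA hvw
        · exact hxB huv
      · exact hxB hvw

lemma out_ext {V : Finset ℕ} {x : ℕ} {H : DG} {A B : Finset ℕ}
    (hH : H ∈ cls (V.erase x)) (hB : B ⊆ V.erase x) : out (Pool.H47.D.ext H x A B) x = A := by
  ext y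
  rw [mem_out, mem_ext]
  constructor
  · rintro (h | ⟨_, h⟩ | ⟨rfl, h⟩)
    · have := ((mem_cls.1 hH).1 _ h).1
      simp at this
    · exact h
    · have := hB h
      simp at this
  · intro h; exact Or.inr (Or.inl ⟨rfl, h⟩)

lemma inn_ext {V : Finset ℕ} {x : ℕ} {H : DG} {A B : Finset ℕ}
    (hH : H ∈ cls (V.erase x)) (hA : A ⊆ V.erase x) : inn (Pool.H47.D.ext H x A B) x = B := by
  ext y
  rw [mem_inn, mem_ext]
  constructor
  · rintro (h | ⟨rfl, h⟩ | ⟨_, h⟩)
    · have := ((mem_cls.1 hH).1 _ h).2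
      simp at this
    · have := hA h
      simp at this
    · exact h
  · intro h; exact Or.inr (Or.inr ⟨rfl, h⟩)

lemma res_ext {V : Finset ℕ} {x : ℕ} {H : DG} {A B : Finset ℕ}
    (hH : H ∈ cls (V.erase x)) : res (Pool.H47.D.ext H x A B) (V.erase x) = H := by
  ext ⟨u, v⟩
  rw [mem_res, mem_ext]
  constructor
  · rintro ⟨h | ⟨rfl, _⟩ | ⟨rfl, _⟩, hu, hv⟩
    · exact h
    · simp at hu
    · simp at hv
  · intro h
    have := (mem_cls.1 hH).1 _ h
    exact ⟨Or.inl h, this⟩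

open Classical in
/-- the counting principle: delete the vertex `x` -/
lemma card_le_sum (V : Finset ℕ) (x : ℕ) (E : Finset DG) (hE : E ⊆ cls V) (N : DG → ℕ)
    (hN : ∀ H ∈ cls (V.erase x), ((ip H (V.erase x) (V.erase x)).filter
      (fun p => Pool.H47.D.ext H x p.1 p.2 ∈ E)).card ≤ N H) :
    E.card ≤ ∑ H ∈ cls (V.erase x), N H := by
  calc E.card = ∑ H ∈ cls (V.erase x), (E.filter (fun G => res G (V.erase x) = H)).card :=
        card_eq_sum_card_fiberwise (fun G hG => by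
          exact res_mem_cls (hE hG))
    _ ≤ ∑ H ∈ cls (V.erase x), N H := by
        refine sum_le_sum fun H hH => le_trans ?_ (hN H hH)
        refine card_le_card_of_injOn (fun G => (out G x, inn G x)) ?_ ?_
        · intro G hG
          obtain ⟨hG1, hG2⟩ := mem_filter.1 hG
          have hG3 := hE hG1
          refine mem_filter.2 ⟨?_, ?_⟩
          · refine mem_ip.2 ⟨out_subset hG3 x, inn_subset hG3 x, ?_⟩
            rw [← hG2]; exact (ind_nbhd hG3 x).res
          · have := ext_decomp hG3 x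
            rw [hG2] at this
            change Pool.H47.D.ext H x (out G x) (inn G x) ∈ E
            rw [this]; exact hG1
        · intro G hG G' hG' h
          obtain ⟨hG1, hG2⟩ := mem_filter.1 hG
          obtain ⟨hG1', hG2'⟩ := mem_filter.1 hG'
          have e1 := ext_decomp (hE hG1) x
          have e2 := ext_decomp (hE hG1') x
          rw [hG2] at e1
          rw [hG2'] at e2
          simp only [Prod.mk.injEq] at h
          rw [← e1, ← e2, h.1, h.2]

open Classical in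
/-- exact count of one-vertex extensions -/
lemma card_eq_sum (V : Finset ℕ) (x : ℕ) (E : Finset DG) (hE : E ⊆ cls V) :
    E.card = ∑ H ∈ cls (V.erase x), ((ip H (V.erase x) (V.erase x)).filter
      (fun p => Pool.H47.D.ext H x p.1 p.2 ∈ E)).card := by
  refine le_antisymm (card_le_sum V x E hE _ fun H _ => le_rfl) ?_
  rw [card_eq_sum_card_fiberwise (f := fun G => res G (V.erase x)) (t := cls (V.erase x))
    (fun G hG => by exact res_mem_cls (hE hG))]
  refine sum_le_sum fun H hH => ?_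
  refine card_le_card_of_injOn (fun p => Pool.H47.D.ext H x p.1 p.2) ?_ ?_
  · rintro ⟨A, B⟩ hp
    obtain ⟨hp1, hp2⟩ := mem_filter.1 hp
    exact mem_filter.2 ⟨hp2, res_ext hH⟩
  · rintro ⟨A, B⟩ hp ⟨A', B'⟩ hp' h
    obtain ⟨h1, h2, _⟩ := mem_ip.1 (mem_filter.1 hp).1
    obtain ⟨h1', h2', _⟩ := mem_ip.1 (mem_filter.1 hp').1
    have e1 := congrArg (fun G => out G x) h
    have e2 := congrArg (fun G => inn G x) h
    simp only at e1 e2
    rw [out_ext hH h2, out_ext hH h2'] at e1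
    rw [inn_ext hH h1, inn_ext hH h1'] at e2
    rw [e1, e2]

lemma card_cls_eq_sum (V : Finset ℕ) (x : ℕ) (hx : x ∈ V) :
    (cls V).card = ∑ H ∈ cls (V.erase x), (ip H (V.erase x) (V.erase x)).card := by
  classical
  rw [card_eq_sum V x (cls V) (Subset.refl _)]
  refine sum_congr rfl fun H hH => ?_
  congr 1
  rw [filter_eq_self]
  rintro ⟨A, B⟩ hp
  obtain ⟨h1, h2, h3⟩ := mem_ip.1 hp
  exact ext_mem_cls hx hH h1 h2 h3

lemma card_cls_le {S T : Finset ℕ} (h : S.card = T.card) : (cls S).card ≤ (cls T).card := by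
  classical
  obtain ⟨e⟩ : Nonempty (S ≃ T) := ⟨Fintype.equivOfCardEq (by simpa using h)⟩
  let f : ℕ → ℕ := fun n => if hn : n ∈ S then (e ⟨n, hn⟩ : ℕ) else 0
  have hf : ∀ n (hn : n ∈ S), f n = (e ⟨n, hn⟩ : ℕ) := fun n hn => dif_pos hn
  have hfT : ∀ n ∈ S, f n ∈ T := fun n hn => by rw [hf n hn]; exact (e ⟨n, hn⟩).2
  have hinj : ∀ m ∈ S, ∀ n ∈ S, f m = f n → m = n := by
    intro m hm n hn h
    rw [hf m hm, hf n hn] at h
    have := e.injective (Subtype.ext h)
    exact congrArg Subtype.val this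
  refine card_le_card_of_injOn (fun G => G.image (fun p => (f p.1, f p.2))) ?_ ?_
  · intro G hG
    have hG := mem_cls.1 hG
    refine mem_cls.2 ⟨?_, ?_⟩
    · intro p hp
      obtain ⟨q, hq, rfl⟩ := mem_image.1 hp
      exact ⟨hfT _ (hG.1 q hq).1, hfT _ (hG.1 q hq).2⟩
    · intro u v w h1 h2 h3
      obtain ⟨⟨a1, b1⟩, hq1, e1⟩ := mem_image.1 h1
      obtain ⟨⟨a2, b2⟩, hq2, e2⟩ := mem_image.1 h2
      obtain ⟨⟨a3, b3⟩, hq3, e3⟩ := mem_image.1 h3
      simp only [Prod.mk.injEq] at e1 e2 e3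
      have k1 : b1 = a2 := hinj _ (hG.1 _ hq1).2 _ (hG.1 _ hq2).1 (e1.2.trans e2.1.symm)
      have k2 : b2 = a3 := hinj _ (hG.1 _ hq2).2 _ (hG.1 _ hq3).1 (e2.2.trans e3.1.symm)
      have k3 : b3 = a1 := hinj _ (hG.1 _ hq3).2 _ (hG.1 _ hq1).1 (e3.2.trans e1.1.symm)
      subst k1 k2 k3
      exact hG.2 _ _ _ hq1 hq2 hq3
  · intro G hG G' hG' h
    have hG := (mem_cls.1 hG).1
    have hG' := (mem_cls.1 hG').1
    have key : ∀ G₁ G₂ : DG, (∀ e ∈ G₁, e.1 ∈ S ∧ e.2 ∈ S) → (∀ e ∈ G₂, e.1 ∈ S ∧ e.2 ∈ S) →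
        G₁.image (fun p => (f p.1, f p.2)) = G₂.image (fun p => (f p.1, f p.2)) → G₁ ⊆ G₂ := by
      intro G₁ G₂ h1 h2 h3 p hp
      have : (f p.1, f p.2) ∈ G₂.image (fun p => (f p.1, f p.2)) := by
        rw [← h3]; exact mem_image_of_mem _ hp
      obtain ⟨q, hq, e⟩ := mem_image.1 this
      simp only [Prod.mk.injEq] at e
      have k1 := hinj _ (h2 q hq).1 _ (h1 p hp).1 e.1
      have k2 := hinj _ (h2 q hq).2 _ (h1 p hp).2 e.2
      have : q = p := Prod.ext k1 k2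
      rwa [← this]
    exact Subset.antisymm (key G G' hG hG' h) (key G' G hG' hG h.symm)

/-- the number of `C3`-digraphs only depends on the number of vertices -/
lemma card_cls (S : Finset ℕ) : (cls S).card = a S.card :=
  le_antisymm (card_cls_le (by simp)) (card_cls_le (by simp))

lemma card_ip_ge (H : DG) (S : Finset ℕ) : 2 ^ S.card ≤ (ip H S S).card := by
  rw [← card_powerset]
  refine card_le_card_of_injOn (fun A => (A, (∅ : Finset ℕ))) ?_ ?_
  · intro A hA
    refine mem_ip.2 ⟨mem_powerset.1 hA, by simp, ?_⟩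
    intro x _ y hy
    simp at hy
  · intro A _ B _ h
    simpa using h

lemma ip_mono {G : DG} {R L R' L' : Finset ℕ} (hR : R ⊆ R') (hL : L ⊆ L') :
    ip G R L ⊆ ip G R' L' := by
  rintro ⟨A, B⟩ h
  obtain ⟨h1, h2, h3⟩ := mem_ip.1 h
  exact mem_ip.2 ⟨h1.trans hR, h2.trans hL, h3⟩

lemma card_ip_le (G : DG) (R L : Finset ℕ) : (ip G R L).card ≤ 2 ^ (R.card + L.card) := by
  classical
  calc (ip G R L).card ≤ (R.powerset ×ˢ L.powerset).card := card_filter_le _ _
    _ = 2 ^ (R.card + L.card) := by rw [card_product, card_powerset, card_powerset, pow_add]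

/-- trivial lower bound: add a source -/
lemma a_succ_ge (n : ℕ) : 2 ^ n * a n ≤ a (n + 1) := by
  have h := card_cls_eq_sum (range (n + 1)) n (by simp)
  have e : (range (n + 1)).erase n = range n := by
    rw [range_add_one, erase_insert (by simp)]
  rw [e] at h
  unfold a
  rw [h]
  calc 2 ^ n * (cls (range n)).card = ∑ H ∈ cls (range n), 2 ^ n := by
        rw [sum_const, smul_eq_mul, mul_comm]
    _ ≤ _ := sum_le_sum fun H _ => by simpa using card_ip_ge H (range n)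

lemma a_zero : a 0 = 1 := by
  unfold a
  rw [card_eq_one]
  refine ⟨∅, ?_⟩
  ext G
  rw [mem_cls, mem_singleton]
  constructor
  · rintro ⟨h, _⟩
    rw [eq_empty_iff_forall_notMem]
    intro e he
    have := (h e he).1
    simp at this
  · rintro rfl
    exact ⟨by simp, fun u v w h => by simp at h⟩

lemma a_pos (n : ℕ) : 0 < a n := by
  induction n with
  | zero => rw [a_zero]; exact one_pos
  | succ n ih => exact lt_of_lt_of_le (by positivity) (a_succ_ge n)

lemma a_add_ge (n k : ℕ) : 2 ^ (n * k) * a n ≤ a (n + k) := by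
  induction k with
  | zero => simp
  | succ k ih =>
    calc 2 ^ (n * (k + 1)) * a n = 2 ^ n * (2 ^ (n * k) * a n) := by ring
      _ ≤ 2 ^ (n + k) * a (n + k) := Nat.mul_le_mul (Nat.pow_le_pow_right two_pos (by omega)) ih
      _ ≤ a (n + (k + 1)) := a_succ_ge (n + k)

end Pool.H47.D
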