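import Pool.Agent.H47.C3.Base

set_option autoImplicit false

/-! Parameters and events for the structure of typical `C3`-digraphs. -/

namespace Pool.H47.D

open Finset

/-- vertices of `V` that receive no edge from `J` -/
def Lp (G : DG) (V J : Finset ℕ) : Finset ℕ := V.filter (fun y => ∀ x ∈ J, (x, y) ∉ G)

/-- vertices of `V` that send no edge to `J` -/
def Rp (G : DG) (V J : Finset ℕ) : Finset ℕ := V.filter (fun y => ∀ x ∈ J, (y, x) ∉ G)

/-- every fat pair has a vertex of large degree -/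
def Good (q s : ℕ) (V : Finset ℕ) (G : DG) : Prop :=
  ∀ R ⊆ V, ∀ L ⊆ V, V.card + s ≤ R.card + L.card →
    (∃ x ∈ R, R.card + L.card < V.card + 4 * q * (out G x ∩ L).card) ∨
    (∃ y ∈ L, R.card + L.card < V.card + 4 * q * (inn G y ∩ R).card)

/-! parameters; `l` is an integer with `2 * n + 1 ≤ 2 ^ l` -/

def q (l : ℕ) : ℕ := 16 * l ^ 2
def sg (l : ℕ) : ℕ := 2 * (q l + 1) * l + 10
def s1 (l : ℕ) : ℕ := 4 * (sg l + 1 + q l) + 4 * q l * l
def tt (l : ℕ) : ℕ := 4 * q l * l * l + l + 6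
def La (l : ℕ) : ℕ := 7 * (s1 l + tt l)
def L4 (l : ℕ) : ℕ := 2 * (La l + sg l)
def t4 (l : ℕ) : ℕ := (q l + 1) * l + 5
def ww (l : ℕ) : ℕ := L4 l + 6 * (l * L4 l + La l + t4 l)
def sw (l : ℕ) : ℕ := 4 * (sg l + ww l + q l)
def ge (l : ℕ) : ℕ := 4 * q l * l * l + sw l + 4 * q l * l
def gg (l : ℕ) : ℕ := l * ww l + ww l ^ 2 + ge l * ww l + 1

/-- `x` can be compressed by a small sample `J` -/
def Bad1 (l : ℕ) (V : Finset ℕ) (G : DG) : Prop :=
  ∃ J ⊆ V, J.card ≤ q l ∧ ∃ x ∈ V, x ∉ J ∧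
    V.card + sg l ≤ (Lp G V J).card + (Rp G V J).card ∧
    8 * l * ((out G x ∩ Lp G V J).card + (inn G x ∩ Rp G V J).card) + V.card ≤
      (Lp G V J).card + (Rp G V J).card

/-- some vertex is only in containers of small capacity -/
def Bad2 (l : ℕ) (V : Finset ℕ) (G : DG) : Prop :=
  ∃ v ∈ V, ∀ R ⊆ V.erase v, ∀ L ⊆ V.erase v, R.card + L.card ≤ V.card + s1 l →
    out G v ⊆ R → inn G v ⊆ L → (ip G R L).card * 2 ^ tt l < 2 ^ V.card

open Classical in
/-- independent pairs nearly avoiding `(P, Q)` -/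
noncomputable def ipa (G : DG) (S P Q : Finset ℕ) (m : ℕ) : Finset (Finset ℕ × Finset ℕ) :=
  (ip G S S).filter (fun p => (p.1 ∩ P).card + (p.2 ∩ Q).card ≤ m)

/-- `x` is in a small family described by the small sample `J` -/
def Bad4 (l m : ℕ) (V : Finset ℕ) (G : DG) : Prop :=
  ∃ J ⊆ V, J.card ≤ q l ∧ ∃ x ∈ V, x ∉ J ∧
    (out G x ∩ Lp G V J).card + (inn G x ∩ Rp G V J).card ≤ m ∧
    (ipa G (V.erase x) (Lp G V J) (Rp G V J) m).card * 2 ^ t4 l < 2 ^ V.card

/-- `L` is closed (no edge enters it from the rest of `S`), and both sides have at least `m`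
elements -/
def Cut (m : ℕ) (S : Finset ℕ) (G : DG) : Prop :=
  ∃ L ⊆ S, m ≤ L.card ∧ m ≤ (S \ L).card ∧ Ind G (S \ L) L

/-- a bipartite cluster `I, O` with at least half of the vertices, `L` below it, `R` above it -/
def Giant (S : Finset ℕ) (G : DG) : Prop :=
  ∃ L I O R : Finset ℕ, L ∪ I ∪ O ∪ R = S ∧ L.card + I.card + O.card + R.card = S.card ∧
    Ind G (R ∪ I) (L ∪ I) ∧ Ind G (R ∪ O) (L ∪ O) ∧ S.card ≤ 2 * (I.card + O.card)

/-- sources -/
def src (V : Finset ℕ) (G : DG) : Finset ℕ := V.filter (fun y => inn G y = ∅)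

/-- integer logarithm of `2 n + 1`, rounded up -/
def lam (n : ℕ) : ℕ := Nat.clog 2 (2 * n + 1)

end Pool.H47.D
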