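import Pool.Agent.H47.C3.Defs

set_option autoImplicit false

/-! Module FIN: no 0-1 law for `exactly one source`. -/

namespace Pool.H47.D

open Finset Filter

open Classical in
theorem fin_aux
    (hsrc_ge : ∀ n : ℕ, ((cls (range (n + 1))).filter
      (fun G => src (range (n + 1)) G ≠ ∅)).card ≤ (n + 1) * 2 ^ n * a n)
    (hsrc_one : ∀ n : ℕ, (n + 1) * 2 ^ n * a n ≤
      16 * ((cls (range (n + 1))).filter (fun G => (src (range (n + 1)) G).card = 1)).card)
    (hsrc_two : ∀ n : ℕ, (n + 2) * (n + 1) * 4 ^ n * a n ≤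
      10 * ((cls (range (n + 2))).filter (fun G => (src (range (n + 2)) G).card = 2)).card)
    (κ : ℝ) (hκ : ∀ n, (a n : ℝ) ≤ κ ^ n * n.factorial * 2 ^ (n.choose 2)) :
    ¬ Tendsto (fun n : ℕ => (((cls (range n)).filter
        (fun G => (src (range n) G).card = 1)).card : ℝ) / a n) atTop (nhds 1) ∧
    ¬ Tendsto (fun n : ℕ => (((cls (range n)).filter
        (fun G => (src (range n) G).card = 1)).card : ℝ) / a n) atTop (nhds 0) := by
  have hapos : ∀ n, (0 : ℝ) < a n := fun n => by exact_mod_cast a_pos n
  constructor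
  · intro hlim
    have h1 := (tendsto_order.1 hlim).1 (1 - 1 / 80 : ℝ) (by norm_num)
    have h2 : ∀ᶠ n : ℕ in atTop, (1 - 1 / 80 : ℝ) < (((cls (range (n + 1))).filter
        (fun G => (src (range (n + 1)) G).card = 1)).card : ℝ) / a (n + 1) :=
      (tendsto_add_atTop_nat 1).eventually h1
    have h3 : ∀ᶠ n : ℕ in atTop, (1 - 1 / 80 : ℝ) < (((cls (range (n + 2))).filter
        (fun G => (src (range (n + 2)) G).card = 1)).card : ℝ) / a (n + 2) :=
      (tendsto_add_atTop_nat 2).eventually h1
    obtain ⟨n, hn1, hn2⟩ := (h2.and h3).exists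
    rw [lt_div_iff₀ (hapos _)] at hn1 hn2
    have hmono : ∀ m : ℕ, ((cls (range (m + 1))).filter
        (fun G => (src (range (m + 1)) G).card = 1)).card ≤ (m + 1) * 2 ^ m * a m := by
      intro m
      refine (Finset.card_le_card ?_).trans (hsrc_ge m)
      intro G hG
      rw [Finset.mem_filter] at hG ⊢
      refine ⟨hG.1, fun h => ?_⟩
      rw [h] at hG
      simp at hG
    have h4 : (((cls (range (n + 1))).filter
        (fun G => (src (range (n + 1)) G).card = 1)).card : ℝ) ≤ (n + 1) * 2 ^ n * a n := by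
      exact_mod_cast hmono n
    have h5 : (((cls (range (n + 2))).filter
        (fun G => (src (range (n + 2)) G).card = 1)).card : ℝ)
          ≤ (n + 2) * 2 ^ (n + 1) * a (n + 1) := by
      have := hmono (n + 1)
      have h6 : (((cls (range (n + 1 + 1))).filter
        (fun G => (src (range (n + 1 + 1)) G).card = 1)).card : ℝ)
          ≤ ((n + 1 : ℕ) + 1) * 2 ^ (n + 1) * a (n + 1) := by exact_mod_cast this
      push_cast at h6
      convert h6 using 3
      ring
    have h7 : ((n + 2) * (n + 1) * 4 ^ n * a n : ℝ) ≤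
      10 * ((cls (range (n + 2))).filter (fun G => (src (range (n + 2)) G).card = 2)).card := by
      exact_mod_cast hsrc_two n
    have h8 : (((cls (range (n + 2))).filter (fun G => (src (range (n + 2)) G).card = 1)).card : ℝ)
        + ((cls (range (n + 2))).filter (fun G => (src (range (n + 2)) G).card = 2)).card
          ≤ a (n + 2) := by
      have : ((cls (range (n + 2))).filter (fun G => (src (range (n + 2)) G).card = 1)).card
        + ((cls (range (n + 2))).filter (fun G => (src (range (n + 2)) G).card = 2)).card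
          ≤ a (n + 2) := by
        rw [← Finset.card_union_of_disjoint]
        · rw [a]
          apply Finset.card_le_card
          intro G hG
          rw [Finset.mem_union, Finset.mem_filter, Finset.mem_filter] at hG
          rcases hG with h | h
          · exact h.1
          · exact h.1
        · rw [Finset.disjoint_filter]
          intro G _ h1 h2
          omega
      exact_mod_cast this
    -- combine
    have h9 : (1 - 1 / 80 : ℝ) * a (n + 2) ≤ (n + 2) * 2 ^ (n + 1) * ((n + 1) * 2 ^ n * a n /
        (1 - 1 / 80)) := by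
      have h10 : (a (n + 1) : ℝ) ≤ (n + 1) * 2 ^ n * a n / (1 - 1 / 80) := by
        rw [le_div_iff₀ (by norm_num)]
        linarith
      have h11 : ((n : ℝ) + 2) * 2 ^ (n + 1) * a (n + 1) ≤
          (n + 2) * 2 ^ (n + 1) * ((n + 1) * 2 ^ n * a n / (1 - 1 / 80)) :=
        mul_le_mul_of_nonneg_left h10 (by positivity)
      linarith
    have h12 : ((n : ℝ) + 2) * 2 ^ (n + 1) * ((n + 1) * 2 ^ n * a n / (1 - 1 / 80))
        = 2 / (1 - 1 / 80) * ((n + 2) * (n + 1) * 4 ^ n * a n) := by
      have : (4 : ℝ) ^ n = 2 ^ n * 2 ^ n := by rw [← mul_pow]; norm_num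
      rw [this, pow_succ]
      ring
    rw [h12] at h9
    have h13 := hapos (n + 2)
    norm_num at h9 hn2
    nlinarith
  · intro hlim
    have hκ1 : (1 : ℝ) ≤ κ := by
      have h1 := hκ 1
      have h2 : (1 : ℝ) ≤ a 1 := by exact_mod_cast a_pos 1
      norm_num at h1
      linarith
    have h1 := (tendsto_order.1 hlim).2 (1 / (32 * κ) : ℝ) (by positivity)
    obtain ⟨N, hN⟩ := eventually_atTop.1 h1
    -- `a (n + 1) ≥ 2 κ (n + 1) 2 ^ n a n`
    have h2 : ∀ n ≥ N, (2 * κ) * ((n + 1) * 2 ^ n * a n) ≤ a (n + 1) := by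
      intro n hn
      have h3 := hN (n + 1) (by omega)
      rw [div_lt_div_iff₀ (hapos _) (by positivity)] at h3
      have h4 : ((n + 1) * 2 ^ n * a n : ℝ) ≤
        16 * ((cls (range (n + 1))).filter (fun G => (src (range (n + 1)) G).card = 1)).card := by
        exact_mod_cast hsrc_one n
      have h5 : (2 * κ) * ((n + 1) * 2 ^ n * a n) ≤ (2 * κ) * (16 * ((cls (range (n + 1))).filter
        (fun G => (src (range (n + 1)) G).card = 1)).card) :=
        mul_le_mul_of_nonneg_left h4 (by positivity)
      linarith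
    have h3 : ∀ m : ℕ, (2 * κ) ^ m * (a N * (((N + m).factorial : ℝ) * 2 ^ ((N + m).choose 2)))
        ≤ a (N + m) * ((N.factorial : ℝ) * 2 ^ (N.choose 2)) := by
      intro m
      induction m with
      | zero => simp
      | succ m ih =>
        have h4 := h2 (N + m) (by omega)
        have h5 : ((N + (m + 1)).factorial : ℝ) * 2 ^ ((N + (m + 1)).choose 2)
            = ((N + m : ℕ) + 1) * 2 ^ (N + m) * (((N + m).factorial : ℝ)
              * 2 ^ ((N + m).choose 2)) := by
          have h6 : (N + (m + 1)).choose 2 = (N + m) + (N + m).choose 2 := by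
            rw [← add_assoc, Nat.choose_succ_succ' (N + m) 1, Nat.choose_one_right]
          rw [h6, ← add_assoc, Nat.factorial_succ, pow_add]
          push_cast
          ring
        rw [h5, pow_succ]
        have h7 : (0 : ℝ) < N.factorial := by exact_mod_cast Nat.factorial_pos N
        calc (2 * κ) ^ m * (2 * κ) * (a N * (((N + m : ℕ) + 1) * 2 ^ (N + m) *
              (((N + m).factorial : ℝ) * 2 ^ ((N + m).choose 2))))
            = (2 * κ * (((N + m : ℕ) + 1) * 2 ^ (N + m))) * ((2 * κ) ^ m *
              (a N * (((N + m).factorial : ℝ) * 2 ^ ((N + m).choose 2)))) := by ring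
          _ ≤ (2 * κ * (((N + m : ℕ) + 1) * 2 ^ (N + m))) *
              (a (N + m) * ((N.factorial : ℝ) * 2 ^ (N.choose 2))) :=
            mul_le_mul_of_nonneg_left ih (by positivity)
          _ = (2 * κ * (((N + m : ℕ) + 1) * 2 ^ (N + m) * a (N + m))) *
              ((N.factorial : ℝ) * 2 ^ (N.choose 2)) := by ring
          _ ≤ a (N + m + 1) * ((N.factorial : ℝ) * 2 ^ (N.choose 2)) :=
            mul_le_mul_of_nonneg_right h4 (by positivity)
          _ = a (N + (m + 1)) * ((N.factorial : ℝ) * 2 ^ (N.choose 2)) := by rw [add_assoc]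
    have h4 : ∀ m : ℕ, (2 : ℝ) ^ m * a N ≤ κ ^ N * ((N.factorial : ℝ) * 2 ^ (N.choose 2)) := by
      intro m
      have h5 := h3 m
      have h6 := hκ (N + m)
      have h7 : (0 : ℝ) < (N + m).factorial := by exact_mod_cast Nat.factorial_pos _
      have h8 : (0 : ℝ) < N.factorial := by exact_mod_cast Nat.factorial_pos N
      have h9 : (0 : ℝ) < κ := by linarith
      have h10 : a (N + m) * ((N.factorial : ℝ) * 2 ^ (N.choose 2)) ≤
          (κ ^ (N + m) * (N + m).factorial * 2 ^ ((N + m).choose 2)) *
            ((N.factorial : ℝ) * 2 ^ (N.choose 2)) :=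
        mul_le_mul_of_nonneg_right h6 (by positivity)
      have h11 := h5.trans h10
      have h12 : (0 : ℝ) < κ ^ m * (((N + m).factorial : ℝ) * 2 ^ ((N + m).choose 2)) := by
        positivity
      refine le_of_mul_le_mul_right ?_ h12
      calc (2 : ℝ) ^ m * a N * (κ ^ m * (((N + m).factorial : ℝ) * 2 ^ ((N + m).choose 2)))
          = (2 * κ) ^ m * (a N * (((N + m).factorial : ℝ) * 2 ^ ((N + m).choose 2))) := by
            rw [mul_pow]; ring
        _ ≤ _ := h11
        _ = κ ^ N * ((N.factorial : ℝ) * 2 ^ (N.choose 2)) *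
            (κ ^ m * (((N + m).factorial : ℝ) * 2 ^ ((N + m).choose 2))) := by
            rw [pow_add]; ring
    obtain ⟨m, hm⟩ := pow_unbounded_of_one_lt
      (κ ^ N * ((N.factorial : ℝ) * 2 ^ (N.choose 2)) / a N) (one_lt_two (α := ℝ))
    rw [div_lt_iff₀ (hapos N)] at hm
    exact absurd (h4 m) (not_le.2 hm)

end Pool.H47.D
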