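import Pool.Agent.H47.C3.Defs

set_option autoImplicit false

/-! Module GREEDY: a greedy sample. -/

namespace Pool.H47.D

open Finset

lemma greedy_two_mul_pow (j : ℕ) : 2 * j ^ (j + 1) ≤ (j + 1) ^ (j + 1) := by
  rcases Nat.eq_zero_or_pos j with rfl | hj
  · simp
  have hj' : (0 : ℝ) < j := by exact_mod_cast hj
  have h1 : (1 : ℝ) + ((j + 1 : ℕ) : ℝ) * (1 / j) ≤ (1 + 1 / j) ^ (j + 1) :=
    one_add_mul_le_pow (by have : (0:ℝ) < 1 / j := by positivity
                           linarith) (j + 1)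
  have h2 : (2 : ℝ) ≤ (1 + 1 / j) ^ (j + 1) := by
    refine le_trans ?_ h1
    have : (1 : ℝ) ≤ ((j + 1 : ℕ) : ℝ) * (1 / j) := by
      rw [mul_one_div, le_div_iff₀ hj']
      push_cast
      linarith
    linarith
  have h3 : ((2 * j ^ (j + 1) : ℕ) : ℝ) ≤ (((j + 1) ^ (j + 1) : ℕ) : ℝ) := by
    push_cast
    have e : ((j : ℝ) + 1) = (1 + 1 / j) * j := by
      field_simp
    calc (2 : ℝ) * (j : ℝ) ^ (j + 1) ≤ (1 + 1 / (j : ℝ)) ^ (j + 1) * (j : ℝ) ^ (j + 1) :=
          mul_le_mul_of_nonneg_right h2 (by positivity)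
      _ = ((j : ℝ) + 1) ^ (j + 1) := by rw [← mul_pow, ← e]
  exact_mod_cast h3

lemma greedy_pow_lt (l n : ℕ) (hl1 : 1 ≤ l) (hl : 2 * n + 1 ≤ 2 ^ l) :
    (16 * l - 1) ^ q l * (2 * n) < (16 * l) ^ q l := by
  obtain ⟨j, hj⟩ : ∃ j, 16 * l = j + 1 := ⟨16 * l - 1, by omega⟩
  have hq : q l = (j + 1) * l := by unfold q; rw [← hj]; ring
  have hjpos : 0 < j := by omega
  rw [hq, hj, Nat.add_sub_cancel]
  calc j ^ ((j + 1) * l) * (2 * n) < j ^ ((j + 1) * l) * 2 ^ l := by
        apply Nat.mul_lt_mul_of_pos_left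
        · omega
        · positivity
    _ = (2 * j ^ (j + 1)) ^ l := by rw [mul_pow, ← pow_mul, mul_comm]
    _ ≤ ((j + 1) ^ (j + 1)) ^ l := Nat.pow_le_pow_left (greedy_two_mul_pow j) l
    _ = (j + 1) ^ ((j + 1) * l) := by rw [← pow_mul]

lemma greedy_Lp_insert (G : DG) (V J : Finset ℕ) (x : ℕ) :
    Lp G V (insert x J) = Lp G V J \ out G x := by
  ext y
  simp only [Lp, mem_filter, mem_insert, forall_eq_or_imp, mem_sdiff, mem_out]
  tauto

lemma greedy_Rp_insert (G : DG) (V J : Finset ℕ) (x : ℕ) :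
    Rp G V (insert x J) = Rp G V J \ inn G x := by
  ext y
  simp only [Rp, mem_filter, mem_insert, forall_eq_or_imp, mem_sdiff, mem_inn]
  tauto

lemma greedy_card_step (P L O : Finset ℕ) :
    ((P \ O) \ L).card + (O ∩ (P \ L)).card = (P \ L).card := by
  have h : (P \ O) \ L = (P \ L) \ O := by
    ext y; simp only [mem_sdiff]; tauto
  rw [h, inter_comm, card_sdiff_add_card_inter]

theorem greedy (l : ℕ) (V : Finset ℕ) (G : DG) (hl : 2 * V.card + 1 ≤ 2 ^ l)
    (R L : Finset ℕ) (hR : R ⊆ V) (hL : L ⊆ V) :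
    ∃ J ⊆ R ∩ L, J.card ≤ q l ∧ ∀ x ∈ R ∩ L,
      16 * l * ((out G x ∩ (Lp G V J \ L)).card + (inn G x ∩ (Rp G V J \ R)).card) ≤
        (Lp G V J \ L).card + (Rp G V J \ R).card := by
  rcases Nat.eq_zero_or_pos l with rfl | hl1
  · refine ⟨∅, by simp, by simp, fun x _ => by simp⟩
  by_contra hcon
  push Not at hcon
  have key : ∀ k ≤ q l, ∃ J ⊆ R ∩ L, J.card ≤ k ∧
      ((Lp G V J \ L).card + (Rp G V J \ R).card) * (16 * l) ^ k ≤
        (16 * l - 1) ^ k * (2 * V.card) := by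
    intro k
    induction k with
    | zero =>
      intro _
      refine ⟨∅, by simp, by simp, ?_⟩
      have h1 : (Lp G V ∅ \ L).card ≤ V.card :=
        card_le_card (sdiff_subset.trans (filter_subset _ _))
      have h2 : (Rp G V ∅ \ R).card ≤ V.card :=
        card_le_card (sdiff_subset.trans (filter_subset _ _))
      simp only [pow_zero, mul_one, one_mul]
      omega
    | succ k ih =>
      intro hk
      obtain ⟨J, hJ, hJc, hJY⟩ := ih (by omega)
      obtain ⟨x, hx, hviol⟩ := hcon J hJ (by omega)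
      refine ⟨insert x J, insert_subset hx hJ, (card_insert_le _ _).trans (by omega), ?_⟩
      rw [greedy_Lp_insert, greedy_Rp_insert]
      have e1 := greedy_card_step (Lp G V J) L (out G x)
      have e2 := greedy_card_step (Rp G V J) R (inn G x)
      set Y := (Lp G V J \ L).card + (Rp G V J \ R).card with hY
      set Y' := ((Lp G V J \ out G x) \ L).card + ((Rp G V J \ inn G x) \ R).card with hY'
      set c := (out G x ∩ (Lp G V J \ L)).card + (inn G x ∩ (Rp G V J \ R)).card with hc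
      have e3 : Y' + c = Y := by omega
      obtain ⟨j, hj⟩ : ∃ j, 16 * l = j + 1 := ⟨16 * l - 1, by omega⟩
      rw [hj] at hviol hJY ⊢
      rw [Nat.add_sub_cancel] at hJY ⊢
      have e4 : Y' * (j + 1) ≤ j * Y := by
        have : (j + 1) * Y' + (j + 1) * c = (j + 1) * Y := by rw [← mul_add, e3]
        nlinarith
      calc Y' * (j + 1) ^ (k + 1) = (Y' * (j + 1)) * (j + 1) ^ k := by ring
        _ ≤ (j * Y) * (j + 1) ^ k := Nat.mul_le_mul_right _ e4
        _ = j * (Y * (j + 1) ^ k) := by ring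
        _ ≤ j * (j ^ k * (2 * V.card)) := Nat.mul_le_mul_left _ hJY
        _ = j ^ (k + 1) * (2 * V.card) := by ring
  obtain ⟨J, hJ, hJc, hJY⟩ := key (q l) le_rfl
  have h1 := greedy_pow_lt l V.card hl1 hl
  have h2 : (Lp G V J \ L).card + (Rp G V J \ R).card = 0 := by
    by_contra h
    have h3 : 1 ≤ (Lp G V J \ L).card + (Rp G V J \ R).card := Nat.one_le_iff_ne_zero.2 h
    have h4 : (16 * l) ^ q l ≤
        ((Lp G V J \ L).card + (Rp G V J \ R).card) * (16 * l) ^ q l :=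
      Nat.le_mul_of_pos_left _ h3
    omega
  obtain ⟨x, hx, hviol⟩ := hcon J hJ hJc
  have h5 : (out G x ∩ (Lp G V J \ L)).card ≤ (Lp G V J \ L).card :=
    card_le_card inter_subset_right
  have h6 : (inn G x ∩ (Rp G V J \ R)).card ≤ (Rp G V J \ R).card :=
    card_le_card inter_subset_right
  have h7 : (out G x ∩ (Lp G V J \ L)).card + (inn G x ∩ (Rp G V J \ R)).card = 0 := by omega
  rw [h7] at hviol
  simp at hviol

end Pool.H47.D
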