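import Mathlib

set_option autoImplicit false

/-! First-order side: digraphs as structures, the class Forb(directed triangle), its almost sure
theory. -/

namespace Pool.H47.D

open FirstOrder FirstOrder.Language

/-- the edges `(1,0), (2,1), (0,2)` of the directed triangle on `Fin 3` -/
def triE (i j : Fin 3) : Prop := (i = 1 ∧ j = 0) ∨ (i = 2 ∧ j = 1) ∨ (i = 0 ∧ j = 2)

/-- there is no homomorphism from the directed triangle to the digraph `E` -/
def Forb {V : Type} (E : V → V → Prop) : Prop :=
  ¬ ∃ h : Fin 3 → V, ∀ i j, triE i j → E (h i) (h j)

/-- a digraph (loops allowed) as a first-order structure with one binary relation -/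
@[instance_reducible]
def str {V : Type} (E : V → V → Prop) : Language.graph.Structure V where
  RelMap | .adj => fun x => E (x 0) (x 1)

/-- the fraction of the labelled digraphs in the class, with vertex set `Fin n`, that satisfy
the sentence -/
noncomputable def frac (φ : Language.graph.Sentence) (n : ℕ) : ℝ :=
  (Nat.card {E : Fin n → Fin n → Prop // Forb E ∧ @Sentence.Realize _ (Fin n) (str E) φ} : ℝ) /
    Nat.card {E : Fin n → Fin n → Prop // Forb E}

/-- the almost sure theory -/
def T : Language.graph.Theory :=
  {φ | Filter.Tendsto (fun n : ℕ => frac φ n) Filter.atTop (nhds 1)}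

end Pool.H47.D
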