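import Pool.Agent.H47.C3.LDefs
import Pool.Agent.H47.C3.Defs

set_option autoImplicit false

/-! Module LOGIC: from counting sources to the almost sure theory. -/

namespace Pool.H47.D

open Finset Filter FirstOrder FirstOrder.Language

open Classical in
/-- the digraphs of the class on `Fin n` -/
noncomputable def logic_F (n : ℕ) : Finset (Fin n → Fin n → Prop) :=
  (univ : Finset (Fin n → Fin n → Prop)).filter (fun E => Forb E)

open Classical in
/-- fraction of the class satisfying a property -/
noncomputable def logic_fr (P : ∀ n : ℕ, (Fin n → Fin n → Prop) → Prop) (n : ℕ) : ℝ :=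
  (((logic_F n).filter (fun E => P n E)).card : ℝ) / (logic_F n).card

lemma logic_F_pos (n : ℕ) : (0 : ℝ) < (logic_F n).card := by
  classical
  have : (logic_F n).Nonempty := by
    refine ⟨fun _ _ => False, ?_⟩
    simp only [logic_F, mem_filter, mem_univ, true_and]
    rintro ⟨h, hh⟩
    exact hh 1 0 (Or.inl ⟨rfl, rfl⟩)
  exact_mod_cast this.card_pos

lemma logic_frac_eq (φ : Language.graph.Sentence) (n : ℕ) :
    frac φ n = logic_fr (fun n E => @Sentence.Realize _ (Fin n) (str E) φ) n := by
  classical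
  unfold frac logic_fr logic_F
  congr 1
  · rw [Nat.card_eq_fintype_card, Fintype.card_subtype, filter_filter]
  · rw [Nat.card_eq_fintype_card, Fintype.card_subtype]

lemma logic_fr_le (P : ∀ n : ℕ, (Fin n → Fin n → Prop) → Prop) (n : ℕ) :
    logic_fr P n ≤ 1 := by
  classical
  unfold logic_fr
  rw [div_le_one (logic_F_pos n)]
  exact_mod_cast card_filter_le _ _

lemma logic_fr_nonneg (P : ∀ n : ℕ, (Fin n → Fin n → Prop) → Prop) (n : ℕ) :
    0 ≤ logic_fr P n := by
  unfold logic_fr
  positivity

lemma logic_fr_not (P : ∀ n : ℕ, (Fin n → Fin n → Prop) → Prop) (n : ℕ) :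
    logic_fr (fun n E => ¬ P n E) n = 1 - logic_fr P n := by
  classical
  unfold logic_fr
  have h := logic_F_pos n
  rw [eq_sub_iff_add_eq, ← add_div, div_eq_one_iff_eq h.ne']
  have := card_filter_add_card_filter_not (s := logic_F n) (fun E => P n E)
  rw [← this]
  push_cast
  ring

lemma logic_fr_and (P Q : ∀ n : ℕ, (Fin n → Fin n → Prop) → Prop) (n : ℕ) :
    logic_fr P n + logic_fr Q n - 1 ≤ logic_fr (fun n E => P n E ∧ Q n E) n := by
  classical
  unfold logic_fr
  have h := logic_F_pos n
  rw [← add_div, sub_le_iff_le_add, ← sub_le_iff_le_add', ← sub_div]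
  rw [div_le_one h, sub_le_iff_le_add]
  have h1 : ((logic_F n).filter (fun E => P n E)).card +
      ((logic_F n).filter (fun E => Q n E)).card =
      ((logic_F n).filter (fun E => P n E ∨ Q n E)).card +
      ((logic_F n).filter (fun E => P n E ∧ Q n E)).card := by
    rw [filter_or, filter_and, card_union_add_card_inter]
  have h2 : ((logic_F n).filter (fun E => P n E ∨ Q n E)).card ≤ (logic_F n).card :=
    card_filter_le _ _
  have h3 := h1.le.trans (Nat.add_le_add_right h2 _)
  have h4 : (((logic_F n).filter (fun E => P n E)).card : ℝ) +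
      ((logic_F n).filter (fun E => Q n E)).card ≤
      (logic_F n).card + ((logic_F n).filter (fun E => P n E ∧ Q n E)).card := by
    exact_mod_cast h3
  refine h4.trans (le_of_eq ?_)
  congr!

lemma logic_fr_eq_zero (P : ∀ n : ℕ, (Fin n → Fin n → Prop) → Prop) (n : ℕ)
    (h : ∀ E, Forb E → ¬ P n E) : logic_fr P n = 0 := by
  classical
  unfold logic_fr
  have : (logic_F n).filter (fun E => P n E) = ∅ := by
    apply filter_eq_empty_iff.2
    intro E hE
    exact h E (mem_filter.1 hE).2
  rw [this]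
  simp

lemma logic_fr_eq_one (P : ∀ n : ℕ, (Fin n → Fin n → Prop) → Prop) (n : ℕ)
    (h : ∀ E, Forb E → P n E) : logic_fr P n = 1 := by
  classical
  unfold logic_fr
  have : (logic_F n).filter (fun E => P n E) = logic_F n := by
    apply filter_true_of_mem
    intro E hE
    exact h E (mem_filter.1 hE).2
  rw [this]
  exact div_self (logic_F_pos n).ne'

/-- an almost sure property meets a property that is not almost surely false -/
lemma logic_meet (P Q : ∀ n : ℕ, (Fin n → Fin n → Prop) → Prop)
    (hP : Tendsto (logic_fr P) atTop (nhds 1)) (hQ : ¬ Tendsto (logic_fr Q) atTop (nhds 0))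
    (N : ℕ) : ∃ n, N ≤ n ∧ ∃ E, Forb E ∧ P n E ∧ Q n E := by
  by_contra hcon
  push Not at hcon
  apply hQ
  have hb : ∀ n, N ≤ n → logic_fr Q n ≤ 1 - logic_fr P n := by
    intro n hn
    have h1 := logic_fr_and P Q n
    have h2 : logic_fr (fun n E => P n E ∧ Q n E) n = 0 := by
      apply logic_fr_eq_zero
      intro E hE h
      exact hcon n hn E hE h.1 h.2
    rw [h2] at h1
    linarith
  have hlim : Tendsto (fun n => 1 - logic_fr P n) atTop (nhds 0) := by
    have := (tendsto_const_nhds (x := (1 : ℝ)) (f := atTop (α := ℕ))).sub hP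
    simpa using this
  refine tendsto_of_tendsto_of_tendsto_of_le_of_le' tendsto_const_nhds hlim ?_ ?_
  · exact Eventually.of_forall fun n => logic_fr_nonneg Q n
  · exact eventually_atTop.2 ⟨N, hb⟩

lemma logic_finset (S : Finset Language.graph.Sentence) (hS : ∀ φ ∈ S, φ ∈ T) :
    Tendsto (logic_fr (fun n E => ∀ φ ∈ S, @Sentence.Realize _ (Fin n) (str E) φ))
      atTop (nhds 1) := by
  classical
  induction S using Finset.induction_on with
  | empty =>
    have : logic_fr (fun n E => ∀ φ ∈ (∅ : Finset Language.graph.Sentence),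
        @Sentence.Realize _ (Fin n) (str E) φ) = fun _ => 1 := by
      funext n
      apply logic_fr_eq_one
      intro E _ φ hφ
      exact absurd hφ (notMem_empty φ)
    rw [this]
    exact tendsto_const_nhds
  | insert ψ S hψ ih =>
    have h1 := ih (fun φ hφ => hS φ (mem_insert_of_mem hφ))
    have h2 : Tendsto (logic_fr (fun n E => @Sentence.Realize _ (Fin n) (str E) ψ))
        atTop (nhds 1) := by
      have h3 : ψ ∈ T := hS ψ (mem_insert_self _ _)
      have h4 : Tendsto (fun n : ℕ => frac ψ n) atTop (nhds 1) := h3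
      refine h4.congr fun n => ?_
      exact logic_frac_eq ψ n
    have h5 : ∀ n, logic_fr (fun n E => ∀ φ ∈ insert ψ S,
        @Sentence.Realize _ (Fin n) (str E) φ) n =
        logic_fr (fun n E => @Sentence.Realize _ (Fin n) (str E) ψ ∧
          ∀ φ ∈ S, @Sentence.Realize _ (Fin n) (str E) φ) n := by
      intro n
      unfold logic_fr
      congr 3
      ext E
      simp only [mem_filter, mem_insert, forall_eq_or_imp]
    refine tendsto_of_tendsto_of_tendsto_of_le_of_le
      (g := fun n => logic_fr (fun n E => @Sentence.Realize _ (Fin n) (str E) ψ) n +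
        logic_fr (fun n E => ∀ φ ∈ S, @Sentence.Realize _ (Fin n) (str E) φ) n - 1)
      (h := fun _ => 1) ?_ tendsto_const_nhds ?_ ?_
    · have := (h2.add h1).sub (tendsto_const_nhds (x := (1 : ℝ)) (f := atTop (α := ℕ)))
      simpa using this
    · intro n
      rw [h5]
      exact logic_fr_and _ _ n
    · intro n
      exact logic_fr_le _ n

/-- theories consistent with positive upper density are satisfiable -/
lemma logic_sat (ψ : Language.graph.Sentence)
    (h : ¬ Tendsto (fun n => frac ψ n) atTop (nhds 0)) :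
    (T ∪ {ψ}).IsSatisfiable := by
  classical
  rw [Theory.isSatisfiable_iff_isFinitelySatisfiable]
  intro T0 hT0
  set S := T0.erase ψ with hSdef
  have hS : ∀ φ ∈ S, φ ∈ T := by
    intro φ hφ
    have h1 := mem_erase.1 hφ
    have h2 : φ ∈ T ∪ {ψ} := hT0 (mem_coe.2 h1.2)
    rcases h2 with h2 | h2
    · exact h2
    · exact absurd h2 h1.1
  have h1 := logic_finset S hS
  have h2 : ¬ Tendsto (logic_fr (fun n E => @Sentence.Realize _ (Fin n) (str E) ψ))
      atTop (nhds 0) := by
    intro hc
    apply h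
    refine hc.congr fun n => ?_
    exact (logic_frac_eq ψ n).symm
  obtain ⟨n, hn, E, _, hE1, hE2⟩ := logic_meet _ _ h1 h2 1
  have : Nonempty (Fin n) := ⟨⟨0, hn⟩⟩
  let _ := str E
  have : (Fin n) ⊨ (T0 : Language.graph.Theory) := by
    refine ⟨fun φ hφ => ?_⟩
    by_cases he : φ = ψ
    · rw [he]; exact hE2
    · exact hE1 φ (mem_erase.2 ⟨he, mem_coe.1 hφ⟩)
  exact Theory.Model.isSatisfiable (Fin n)

lemma logic_infinite : Language.graph.infiniteTheory ⊆ T := by
  rintro _ ⟨k, rfl⟩
  show Tendsto (fun n : ℕ => frac (Sentence.cardGe Language.graph k) n) atTop (nhds 1)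
  refine tendsto_const_nhds.congr' ?_
  refine eventually_atTop.2 ⟨k, fun n hn => ?_⟩
  show (1 : ℝ) = frac (Sentence.cardGe Language.graph k) n
  rw [logic_frac_eq]
  symm
  apply logic_fr_eq_one
  intro E _
  let _ := str E
  show (Fin n) ⊨ Sentence.cardGe Language.graph k
  rw [Sentence.realize_cardGe]
  simpa using hn

/-- countable infinite models -/
lemma logic_model (ψ : Language.graph.Sentence)
    (h : ¬ Tendsto (fun n => frac ψ n) atTop (nhds 0)) :
    ∃ (M : Type) (_ : Language.graph.Structure M), Countable M ∧ Infinite M ∧ M ⊨ T ∧ M ⊨ ψ := by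
  obtain ⟨M⟩ := logic_sat ψ h
  have hinf : Infinite M := by
    rw [← model_infiniteTheory_iff Language.graph]
    have h1 : M ⊨ (T ∪ {ψ}) := M.is_model
    exact Theory.Model.mono h1 (logic_infinite.trans Set.subset_union_left)
  have hL : Language.graph.card ≤ Cardinal.aleph0 := by
    have h1 : ∀ l, Countable (Language.graph.Functions l) := fun l => by
      show Countable Empty
      infer_instance
    have h2 : ∀ l, Countable (Language.graph.Relations l) := fun l => by
      infer_instance
    have h3 : Countable Language.graph.Symbols := by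
      unfold Language.Symbols
      infer_instance
    exact Cardinal.mk_le_aleph0
  obtain ⟨N, hN⟩ := Theory.exists_model_card_eq (T := T ∪ {ψ}) ⟨M, hinf⟩ Cardinal.aleph0
    le_rfl (by simpa using hL)
  refine ⟨N, inferInstance, ?_, ?_, ?_, ?_⟩
  · rw [← Cardinal.mk_le_aleph0_iff, hN]
  · rw [Cardinal.infinite_iff, hN]
  · exact Theory.Model.mono (N.is_model) Set.subset_union_left
  · exact N.is_model.realize_of_mem ψ (Set.mem_union_right _ rfl)

/-- there is exactly one source -/
def logic_phi : Language.graph.Sentence :=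
  BoundedFormula.ex ((BoundedFormula.all (Relations.boundedFormula₂ adj (&1) (&0)).not) ⊓
    (BoundedFormula.all ((BoundedFormula.all
      (Relations.boundedFormula₂ adj (&2) (&1)).not).imp
        (Term.bdEqual (&1) (&0)))))

lemma logic_phi_iff {V : Type} (E : V → V → Prop) :
    @Sentence.Realize _ V (str E) logic_phi ↔ ∃! x, ∀ y, ¬ E y x := by
  let _ := str E
  unfold logic_phi Sentence.Realize Formula.Realize
  simp only [BoundedFormula.realize_ex, BoundedFormula.realize_inf, BoundedFormula.realize_all,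
    BoundedFormula.realize_not, BoundedFormula.realize_imp, BoundedFormula.realize_bdEqual,
    BoundedFormula.realize_rel₂]
  rfl

/-- edge set of a relation on `Fin n` -/
noncomputable def logic_f (n : ℕ) (E : Fin n → Fin n → Prop) : DG := by
  classical
  exact ((univ : Finset (Fin n × Fin n)).filter (fun e => E e.1 e.2)).image
    (fun e => ((e.1 : ℕ), (e.2 : ℕ)))

lemma logic_mem_f {n : ℕ} {E : Fin n → Fin n → Prop} {i j : ℕ} :
    (i, j) ∈ logic_f n E ↔ ∃ (hi : i < n) (hj : j < n), E ⟨i, hi⟩ ⟨j, hj⟩ := by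
  classical
  unfold logic_f
  simp only [mem_image, mem_filter, mem_univ, true_and, Prod.exists, Prod.mk.injEq]
  constructor
  · rintro ⟨a, b, h, rfl, rfl⟩
    exact ⟨a.2, b.2, h⟩
  · rintro ⟨hi, hj, h⟩
    exact ⟨⟨i, hi⟩, ⟨j, hj⟩, h, rfl, rfl⟩

lemma logic_forb_iff {n : ℕ} {E : Fin n → Fin n → Prop} :
    Forb E ↔ ∀ u v w, E u v → E v w → ¬ E w u := by
  unfold Forb triE
  constructor
  · intro h u v w h1 h2 h3
    apply h
    refine ⟨![v, u, w], ?_⟩
    rintro i j (⟨rfl, rfl⟩ | ⟨rfl, rfl⟩ | ⟨rfl, rfl⟩)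
    · exact h1
    · exact h3
    · exact h2
  · rintro h ⟨g, hg⟩
    exact h (g 1) (g 0) (g 2) (hg 1 0 (Or.inl ⟨rfl, rfl⟩)) (hg 0 2 (Or.inr (Or.inr ⟨rfl, rfl⟩)))
      (hg 2 1 (Or.inr (Or.inl ⟨rfl, rfl⟩)))

lemma logic_f_mem_cls {n : ℕ} {E : Fin n → Fin n → Prop} (h : Forb E) :
    logic_f n E ∈ cls (range n) := by
  rw [mem_cls]
  constructor
  · rintro ⟨i, j⟩ he
    obtain ⟨hi, hj, _⟩ := logic_mem_f.1 he
    exact ⟨mem_range.2 hi, mem_range.2 hj⟩
  · intro u v w h1 h2 h3
    obtain ⟨hu, hv, h1⟩ := logic_mem_f.1 h1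
    obtain ⟨_, hw, h2⟩ := logic_mem_f.1 h2
    obtain ⟨_, _, h3⟩ := logic_mem_f.1 h3
    exact logic_forb_iff.1 h _ _ _ h1 h2 h3

lemma logic_f_inj {n : ℕ} : Function.Injective (logic_f n) := by
  intro E E' h
  funext i j
  have h1 : ((i : ℕ), (j : ℕ)) ∈ logic_f n E ↔ ((i : ℕ), (j : ℕ)) ∈ logic_f n E' := by rw [h]
  rw [logic_mem_f, logic_mem_f] at h1
  apply propext
  constructor
  · intro h2
    obtain ⟨_, _, h3⟩ := h1.1 ⟨i.2, j.2, h2⟩
    exact h3
  · intro h2
    obtain ⟨_, _, h3⟩ := h1.2 ⟨i.2, j.2, h2⟩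
    exact h3

lemma logic_f_surj {n : ℕ} {G : DG} (hG : G ∈ cls (range n)) :
    ∃ E : Fin n → Fin n → Prop, Forb E ∧ logic_f n E = G := by
  rw [mem_cls] at hG
  refine ⟨fun i j => ((i : ℕ), (j : ℕ)) ∈ G, ?_, ?_⟩
  · rw [logic_forb_iff]
    intro u v w h1 h2 h3
    exact hG.2 _ _ _ h1 h2 h3
  · ext ⟨i, j⟩
    rw [logic_mem_f]
    constructor
    · rintro ⟨_, _, h⟩
      exact h
    · intro h
      have h1 := hG.1 _ h
      exact ⟨mem_range.1 h1.1, mem_range.1 h1.2, h⟩

lemma logic_src {n : ℕ} {E : Fin n → Fin n → Prop} :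
    (src (range n) (logic_f n E)).card = 1 ↔ ∃! x, ∀ y, ¬ E y x := by
  classical
  have h1 : src (range n) (logic_f n E) =
      ((univ : Finset (Fin n)).filter (fun x => ∀ y, ¬ E y x)).image (fun x : Fin n => (x : ℕ)) := by
    ext i
    unfold src
    simp only [mem_filter, mem_range, mem_image, mem_univ, true_and]
    constructor
    · rintro ⟨hi, h⟩
      refine ⟨⟨i, hi⟩, ?_, rfl⟩
      intro y hy
      have h2 : (y : ℕ) ∈ inn (logic_f n E) i := by
        rw [mem_inn, logic_mem_f]
        exact ⟨y.2, hi, hy⟩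
      rw [h] at h2
      exact absurd h2 (notMem_empty _)
    · rintro ⟨x, hx, rfl⟩
      refine ⟨x.2, ?_⟩
      apply eq_empty_of_forall_notMem
      intro y hy
      rw [mem_inn, logic_mem_f] at hy
      obtain ⟨hy1, _, hy2⟩ := hy
      exact hx _ hy2
  rw [h1, card_image_of_injective _ Fin.val_injective, card_eq_one]
  constructor
  · rintro ⟨x, hx⟩
    have h2 : ∀ z, (∀ y, ¬ E y z) ↔ z = x := by
      intro z
      have : z ∈ (univ : Finset (Fin n)).filter (fun x => ∀ y, ¬ E y x) ↔
        z ∈ ({x} : Finset (Fin n)) := by rw [hx]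
      simpa using this
    exact ⟨x, (h2 x).2 rfl, fun z hz => (h2 z).1 hz⟩
  · rintro ⟨x, hx, hx'⟩
    refine ⟨x, ?_⟩
    ext z
    simp only [mem_filter, mem_univ, true_and, mem_singleton]
    exact ⟨fun h => hx' z h, fun h => h ▸ hx⟩

open Classical in
lemma logic_ratio (n : ℕ) :
    (((cls (range n)).filter (fun G => (src (range n) G).card = 1)).card : ℝ) / a n =
      frac logic_phi n := by
  rw [logic_frac_eq]
  unfold logic_fr
  have h1 : ∀ (P : DG → Prop) [DecidablePred P],
      ((logic_F n).filter (fun E => P (logic_f n E))).card =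
      ((cls (range n)).filter P).card := by
    intro P _
    apply card_bij (fun E _ => logic_f n E)
    · intro E hE
      rw [mem_filter] at hE ⊢
      exact ⟨logic_f_mem_cls (mem_filter.1 hE.1).2, hE.2⟩
    · intro E _ E' _ h
      exact logic_f_inj h
    · intro G hG
      rw [mem_filter] at hG
      obtain ⟨E, hE, rfl⟩ := logic_f_surj hG.1
      exact ⟨E, mem_filter.2 ⟨mem_filter.2 ⟨mem_univ _, hE⟩, hG.2⟩, rfl⟩
  congr 1
  · rw [← h1 (fun G => (src (range n) G).card = 1)]
    congr 2
    ext E
    simp only [mem_filter]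
    rw [logic_src, logic_phi_iff]
  · have h2 := h1 (fun _ => True)
    simp only [filter_true] at h2
    rw [h2]
    rfl

open Classical in
/-- Module LOGIC -/
theorem logic
    (h1 : ¬ Tendsto (fun n : ℕ => (((cls (range n)).filter
        (fun G => (src (range n) G).card = 1)).card : ℝ) / a n) atTop (nhds 1))
    (h0 : ¬ Tendsto (fun n : ℕ => (((cls (range n)).filter
        (fun G => (src (range n) G).card = 1)).card : ℝ) / a n) atTop (nhds 0)) :
    (∃ φ : Language.graph.Sentence, φ ∉ T ∧ φ.not ∉ T) ∧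
      ∃ (M N : Type) (_ : Language.graph.Structure M) (_ : Language.graph.Structure N),
        Countable M ∧ Infinite M ∧ Countable N ∧ Infinite N ∧ M ⊨ T ∧ N ⊨ T ∧
        ¬ Nonempty (M ≃[Language.graph] N) := by
  have e : (fun n : ℕ => (((cls (range n)).filter
        (fun G => (src (range n) G).card = 1)).card : ℝ) / a n) =
        fun n => frac logic_phi n := by
    funext n
    exact logic_ratio n
  rw [e] at h1 h0
  have hnot : ∀ n, frac logic_phi.not n = 1 - frac logic_phi n := by
    intro n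
    rw [logic_frac_eq, logic_frac_eq, ← logic_fr_not]
    rfl
  have h0' : ¬ Tendsto (fun n : ℕ => frac logic_phi.not n) atTop (nhds 0) := by
    intro h
    apply h1
    have h2 := (tendsto_const_nhds (x := (1 : ℝ)) (f := atTop (α := ℕ))).sub h
    simpa [hnot] using h2
  refine ⟨⟨logic_phi, h1, ?_⟩, ?_⟩
  · intro h
    apply h0
    have h2 : Tendsto (fun n : ℕ => frac logic_phi.not n) atTop (nhds 1) := h
    have h3 := (tendsto_const_nhds (x := (1 : ℝ)) (f := atTop (α := ℕ))).sub h2
    simpa [hnot] using h3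
  · obtain ⟨M, sM, cM, iM, mM, pM⟩ := logic_model logic_phi h0
    obtain ⟨N, sN, cN, iN, mN, pN⟩ := logic_model logic_phi.not h0'
    refine ⟨M, N, sM, sN, cM, iM, cN, iN, mM, mN, ?_⟩
    rintro ⟨g⟩
    have h2 : M ⊨ logic_phi ↔ N ⊨ logic_phi := StrongHomClass.realize_sentence g logic_phi
    exact (Sentence.realize_not N).1 pN (h2.1 pM)

end Pool.H47.D
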