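import Pool.Agent.H47.C3.Asm
import Pool.Agent.H47.C3.Anal
import Pool.Agent.H47.C3.Fin
import Pool.Agent.H47.C3.Logic

set_option autoImplicit false

/-! The almost-sure theory of digraphs omitting the directed triangle is not complete and has two
non-isomorphic countable models. -/

namespace Pool.H47.D

open FirstOrder FirstOrder.Language

/-- the number of labelled `C3`-digraphs is at most `κ ^ n * n! * 2 ^ (n choose 2)` -/
theorem a_upper : ∃ κ : ℝ, 1 ≤ κ ∧ ∀ n, (a n : ℝ) ≤ κ ^ n * n.factorial * 2 ^ (n.choose 2) :=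
  a_le recursion

theorem main : (∃ φ : Language.graph.Sentence, φ ∉ T ∧ φ.not ∉ T) ∧
      ∃ (M N : Type) (_ : Language.graph.Structure M) (_ : Language.graph.Structure N),
        Countable M ∧ Infinite M ∧ Countable N ∧ Infinite N ∧ M ⊨ T ∧ N ⊨ T ∧
        ¬ Nonempty (M ≃[Language.graph] N) := by
  obtain ⟨κ, _, hκ⟩ := a_upper
  have h := fin_aux src_one_or_more src_one src_two κ hκ
  exact logic h.1 h.2

end Pool.H47.D
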