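import Pool.Agent.H47.C3.Defs

set_option autoImplicit false

/-! Polynomially bounded functions of `lam n` are smaller than every power of `n`. -/

namespace Pool.H47.D

open Filter Asymptotics

/-- polynomially bounded -/
def PB (f : ℕ → ℕ) : Prop := ∃ C k : ℕ, ∀ l, 1 ≤ l → f l ≤ C * l ^ k

lemma PB.const (c : ℕ) : PB (fun _ => c) := ⟨c, 0, fun l _ => by simp⟩

lemma PB.id : PB (fun l => l) := ⟨1, 1, fun l _ => by simp⟩

lemma PB.add {f g : ℕ → ℕ} (hf : PB f) (hg : PB g) : PB (fun l => f l + g l) := by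
  obtain ⟨C, k, h⟩ := hf
  obtain ⟨D, m, h'⟩ := hg
  refine ⟨C + D, k + m, fun l hl => ?_⟩
  calc f l + g l ≤ C * l ^ k + D * l ^ m := add_le_add (h l hl) (h' l hl)
    _ ≤ C * l ^ (k + m) + D * l ^ (k + m) := by
        gcongr <;> omega
    _ = (C + D) * l ^ (k + m) := by ring

lemma PB.mul {f g : ℕ → ℕ} (hf : PB f) (hg : PB g) : PB (fun l => f l * g l) := by
  obtain ⟨C, k, h⟩ := hf
  obtain ⟨D, m, h'⟩ := hg
  refine ⟨C * D, k + m, fun l hl => ?_⟩
  calc f l * g l ≤ (C * l ^ k) * (D * l ^ m) := Nat.mul_le_mul (h l hl) (h' l hl)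
    _ = C * D * l ^ (k + m) := by ring

lemma PB.pow {f : ℕ → ℕ} (hf : PB f) (m : ℕ) : PB (fun l => f l ^ m) := by
  induction m with
  | zero => simpa using PB.const 1
  | succ m ih => simpa [pow_succ] using ih.mul hf

lemma pb_q : PB q := (PB.const 16).mul (PB.id.pow 2)
lemma pb_sg : PB sg := (((PB.const 2).mul (pb_q.add (PB.const 1))).mul PB.id).add (PB.const 10)
lemma pb_s1 : PB s1 :=
  ((PB.const 4).mul ((pb_sg.add (PB.const 1)).add pb_q)).add (((PB.const 4).mul pb_q).mul PB.id)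
lemma pb_tt : PB tt :=
  (((((PB.const 4).mul pb_q).mul PB.id).mul PB.id).add PB.id).add (PB.const 6)
lemma pb_La : PB La := (PB.const 7).mul (pb_s1.add pb_tt)
lemma pb_L4 : PB L4 := (PB.const 2).mul (pb_La.add pb_sg)
lemma pb_t4 : PB t4 := ((pb_q.add (PB.const 1)).mul PB.id).add (PB.const 5)
lemma pb_ww : PB ww :=
  pb_L4.add ((PB.const 6).mul (((PB.id.mul pb_L4).add pb_La).add pb_t4))
lemma pb_sw : PB sw := (PB.const 4).mul ((pb_sg.add pb_ww).add pb_q)
lemma pb_ge : PB ge :=
  (((((PB.const 4).mul pb_q).mul PB.id).mul PB.id).add pb_sw).add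
    (((PB.const 4).mul pb_q).mul PB.id)
lemma pb_gg : PB gg :=
  (((PB.id.mul pb_ww).add (pb_ww.pow 2)).add (pb_ge.mul pb_ww)).add (PB.const 1)

lemma le_lam (n : ℕ) : 2 * n + 1 ≤ 2 ^ lam n := Nat.le_pow_clog one_lt_two _

lemma lam_pos {n : ℕ} (hn : 1 ≤ n) : 1 ≤ lam n := by
  by_contra h
  have h0 : lam n = 0 := by omega
  have := le_lam n
  rw [h0] at this
  omega

lemma lam_le (n : ℕ) (hn : 1 ≤ n) : (lam n : ℝ) ≤ 2 * Real.log n + 4 := by
  have h1 : 2 ^ (lam n - 1) < 2 * n + 1 := by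
    have := Nat.pow_pred_clog_lt_self one_lt_two (x := 2 * n + 1) (by omega)
    exact this
  have h2 : (2 : ℝ) ^ (lam n - 1) ≤ 4 * n := by
    have : 2 ^ (lam n - 1) ≤ 4 * n := by omega
    exact_mod_cast this
  have h3 := Real.log_le_log (by positivity) h2
  rw [Real.log_pow, Real.log_mul (by norm_num) (by positivity)] at h3
  have h4 : Real.log 4 = 2 * Real.log 2 := by
    rw [show (4 : ℝ) = 2 ^ 2 by norm_num, Real.log_pow]; norm_num
  rw [h4] at h3
  have h5 : (0.6931471803 : ℝ) < Real.log 2 := Real.log_two_gt_d9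
  have h6 := Real.log_two_lt_d9
  have h7 : (((lam n - 1 : ℕ) : ℝ)) = (lam n : ℝ) - 1 := by
    rw [Nat.cast_sub (lam_pos hn)]; simp
  rw [h7] at h3
  have h8 : 0 ≤ Real.log n := Real.log_nonneg (by exact_mod_cast hn)
  by_contra hcon
  push Not at hcon
  nlinarith

/-- polynomially bounded functions of `lam n` are eventually smaller than `n ^ ε` -/
theorem pb_lam {f : ℕ → ℕ} (hf : PB f) (ε : ℝ) (hε : 0 < ε) :
    ∀ᶠ n : ℕ in atTop, (f (lam n) : ℝ) ≤ (n : ℝ) ^ ε := by
  obtain ⟨C, k, h⟩ := hf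
  have h1 : (fun x : ℝ => (2 * Real.log x + 4) ^ k) =o[atTop] fun x => x ^ ε := by
    rcases Nat.eq_zero_or_pos k with rfl | hk
    · simp only [pow_zero]
      refine isLittleO_const_left.2 (Or.inr ?_)
      have := tendsto_rpow_atTop hε
      exact tendsto_norm_atTop_atTop.comp this
    · have h2 : (fun x : ℝ => 2 * Real.log x + 4) =o[atTop] fun x => x ^ (ε / k) := by
        have hp : 0 < ε / k := by positivity
        refine IsLittleO.add ((isLittleO_log_rpow_atTop hp).const_mul_left 2) ?_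
        refine isLittleO_const_left.2 (Or.inr ?_)
        exact tendsto_norm_atTop_atTop.comp (tendsto_rpow_atTop hp)
      have h3 := h2.pow hk
      refine h3.trans_eventuallyEq ?_
      filter_upwards [eventually_ge_atTop (0 : ℝ)] with x hx
      rw [← Real.rpow_natCast, ← Real.rpow_mul hx]
      congr 1
      field_simp
  have h4 := (h1.const_mul_left (C : ℝ)).bound one_pos
  have h5 := tendsto_natCast_atTop_atTop (R := ℝ) |>.eventually h4
  filter_upwards [h5, eventually_ge_atTop 1] with n hn hn1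
  have h6 := h (lam n) (lam_pos hn1)
  have h7 := lam_le n hn1
  have h8 : 0 ≤ Real.log n := Real.log_nonneg (by exact_mod_cast hn1)
  rw [one_mul, Real.norm_eq_abs, Real.norm_eq_abs, abs_of_nonneg (by positivity),
    abs_of_nonneg (by positivity)] at hn
  calc (f (lam n) : ℝ) ≤ C * (lam n : ℝ) ^ k := by exact_mod_cast h6
    _ ≤ C * (2 * Real.log n + 4) ^ k := by gcongr
    _ ≤ (n : ℝ) ^ ε := hn

/-- constant multiples of polynomially bounded functions of `lam n` are eventually below `n` -/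
theorem pb_lam_le {f : ℕ → ℕ} (hf : PB f) : ∀ᶠ n : ℕ in atTop, f (lam n) ≤ n := by
  filter_upwards [pb_lam hf 1 one_pos] with n hn
  rw [Real.rpow_one] at hn
  exact_mod_cast hn

end Pool.H47.D
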